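import Pool.Agent.Lib.MP_b07157_agO4.GD

/-!
# Affine coordinates
-/

noncomputable section

namespace MPb07157.O4

open MvPolynomial MPb07157Q
open MPb07157.OK
open MPb07157.OK.TrAux (Mat eqv)
open MPb07157.OB (Dat)

variable {r l n d : ℕ} {f : MvPolynomial (Fin 3) ℂ}
  {g : Fin l → MvPolynomial (Fin 3) ℂ} {m : Fin l → ℕ}
  {b : Fin r → Fin 3 → ℂ} {c : ℂ} {t : Fin 3 → Kf} {Sec : (Fin 3 → ℂ) → Kf → Prop} {j : Fin r}
  {x y z : MvPolynomial (Fin 3) ℂ}

/-- `x`, `y`, `z` are the coordinates for the basis `p`, `u`, `w`. -/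
structure Dual (p u w : Fin 3 → ℂ) (x y z : MvPolynomial (Fin 3) ℂ) : Prop where
  crd : Crd p x y z
  sum : ∀ i, X i = C (p i) * x + C (u i) * y + C (w i) * z
  dx : ∑ i, C (u i) * pderiv i x = 0 ∧ ∑ i, C (w i) * pderiv i x = 0
  dy : ∑ i, C (u i) * pderiv i y = 1 ∧ ∑ i, C (w i) * pderiv i y = 0
  dz : ∑ i, C (u i) * pderiv i z = 0 ∧ ∑ i, C (w i) * pderiv i z = 1

/-- (H1) Linear coordinates.

Proof. The matrix with rows `p`, `u`, `w` is invertible (`LinearIndependent`); `x`, `y`, `z` are the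
linear forms given by the inverse matrix (compare the construction of `Crd` in
`MPb07157.OK.loc_general'` from `Mat`). -/
theorem exists_dual {p u w : Fin 3 → ℂ} (h : LinearIndependent ℂ ![p, u, w]) :
    ∃ x y z, Dual p u w x y z := by
  have hdet : (Matrix.of ![p, u, w]).det ≠ 0 := by
    have h1 : LinearIndependent ℂ (Matrix.of ![p, u, w]).row := h
    rw [Matrix.linearIndependent_rows_iff_isUnit, Matrix.isUnit_iff_isUnit_det] at h1
    exact h1.ne_zero
  obtain ⟨q, M⟩ := MPb07157.OK.TrAux.mat_of_det ![p, u, w] _ hdet (by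
    rw [Matrix.det_fin_three]
    rfl)
  have e0 : ∀ j, ∑ i, p i * q i j = if (0 : Fin 3) = j then 1 else 0 := fun j => M.pq 0 j
  have e1 : ∀ j, ∑ i, u i * q i j = if (1 : Fin 3) = j then 1 else 0 := fun j => M.pq 1 j
  have e2 : ∀ j, ∑ i, w i * q i j = if (2 : Fin 3) = j then 1 else 0 := fun j => M.pq 2 j
  have q0 : ∀ l j, q l 0 * p j + q l 1 * u j + q l 2 * w j = if l = j then 1 else 0 := by
    intro l j
    have := M.qp l j
    rwa [Fin.sum_univ_three] at this
  set L : Fin 3 → MvPolynomial (Fin 3) ℂ := fun i => ∑ j, C (q j i) * X j with hL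
  have hh : ∀ i, (L i).IsHomogeneous 1 := by
    intro i
    rw [hL]
    refine IsHomogeneous.sum _ _ _ fun j _ => ?_
    have := (isHomogeneous_C (Fin 3) (q j i)).mul (isHomogeneous_X ℂ j)
    rwa [zero_add] at this
  have he : ∀ (v : Fin 3 → ℂ) i, eval v (L i) = ∑ j, v j * q j i := by
    intro v i
    rw [hL]
    simp only [map_sum, map_mul, eval_C, eval_X]
    exact Finset.sum_congr rfl fun j _ => mul_comm _ _
  have hd : ∀ (v : Fin 3 → ℂ) i, ∑ j, C (v j) * pderiv j (L i) = C (∑ j, v j * q j i) := by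
    intro v i
    have h1 : ∀ j, pderiv j (L i) = C (q j i) := by
      intro j
      rw [hL]
      simp only [map_sum, Derivation.leibniz, pderiv_C, smul_zero, add_zero]
      rw [Finset.sum_eq_single j]
      · rw [pderiv_X_self, smul_eq_mul, mul_one]
      · intro l _ hl
        rw [pderiv_X_of_ne hl, smul_zero]
      · intro h2
        exact absurd (Finset.mem_univ _) h2
    rw [map_sum]
    refine Finset.sum_congr rfl fun j _ => ?_
    rw [h1, map_mul]
  have hs : ∀ i, X i = C (p i) * L 0 + C (u i) * L 1 + C (w i) * L 2 := by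
    intro i
    have h1 : C (p i) * L 0 + C (u i) * L 1 + C (w i) * L 2 =
        ∑ j, C (q j 0 * p i + q j 1 * u i + q j 2 * w i) * X j := by
      rw [hL]
      simp only [Finset.mul_sum, ← Finset.sum_add_distrib, map_add, map_mul]
      exact Finset.sum_congr rfl fun j _ => by ring
    rw [h1, Finset.sum_eq_single i]
    · rw [q0, if_pos rfl, map_one, one_mul]
    · intro l _ hl
      rw [q0, if_neg hl, map_zero, zero_mul]
    · intro h2
      exact absurd (Finset.mem_univ _) h2
  refine ⟨L 0, L 1, L 2, ⟨⟨hh 0, hh 1, hh 2, ?_, ?_, ?_, fun v h1 h2 => ?_⟩, hs, ⟨?_, ?_⟩, ⟨?_, ?_⟩,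
    ⟨?_, ?_⟩⟩⟩
  · rw [he, e0, if_pos rfl]
    exact one_ne_zero
  · rw [he, e0, if_neg (by decide)]
  · rw [he, e0, if_neg (by decide)]
  · refine ⟨eval v (L 0), ?_⟩
    funext i
    have h3 := congrArg (eval v) (hs i)
    rw [map_add, map_add, map_mul, map_mul, map_mul, h1, h2, eval_X, eval_C, mul_zero, mul_zero,
      add_zero, add_zero] at h3
    rw [h3, Pi.smul_apply, smul_eq_mul, mul_comm]
  · rw [hd, e1, if_neg (by decide), map_zero]
  · rw [hd, e2, if_neg (by decide), map_zero]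
  · rw [hd, e1, if_pos rfl, map_one]
  · rw [hd, e2, if_neg (by decide), map_zero]
  · rw [hd, e1, if_neg (by decide), map_zero]
  · rw [hd, e2, if_pos rfl, map_one]

/-- The local function `A` as a rational function of degree `0`. -/
def th (x y z : MvPolynomial (Fin 3) ℂ) : MvPolynomial (Fin 2) ℂ →ₐ[ℂ] Kf :=
  aeval ![fr y * (fr x)⁻¹, fr z * (fr x)⁻¹]

/-- (H2) A form in terms of its local expression.

Proof. `F = F (x p + y u + z w)` by `hD.sum` and, `F` being homogeneous, this is
`x ^ n F (p + (y / x) u + (z / x) w)` in `Kf`. -/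
theorem fr_eq_th {p u w : Fin 3 → ℂ} (hD : Dual p u w x y z) {k : ℕ}
    {F : MvPolynomial (Fin 3) ℂ} (hF : F.IsHomogeneous k) :
    fr F = fr x ^ k * th x y z (Tay p u w 0 F) := by
  have hx0 : x ≠ 0 := by
    intro h0
    apply hD.crd.xb
    rw [h0, map_zero]
  have hx : fr x ≠ 0 := fr_ne_zero hx0
  have hvar : ∀ i, fr (X i) = fr x * th x y z (Tay p u w 0 (X i)) := by
    intro i
    have h1 : Tay p u w 0 (X i) = C (p i) + C (u i) * X 0 + C (w i) * X 1 := by
      unfold Tay
      rw [aeval_X, map_zero, add_zero]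
    have h2 : th x y z (X 0) = fr y * (fr x)⁻¹ := by
      unfold th
      rw [aeval_X]
      rfl
    have h3 : th x y z (X 1) = fr z * (fr x)⁻¹ := by
      unfold th
      rw [aeval_X]
      rfl
    have h4 : ∀ c : ℂ, th x y z (C c) = algebraMap ℂ Kf c := by
      intro c
      rw [← algebraMap_eq, AlgHom.commutes]
    rw [h1, map_add, map_add, map_mul, map_mul, h2, h3, h4, h4, h4]
    conv_lhs => rw [hD.sum i]
    rw [map_add, map_add, map_mul, map_mul, map_mul, fr_C, fr_C, fr_C]
    field_simp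
  have hmul : ∀ A B : MvPolynomial (Fin 3) ℂ,
      Tay p u w 0 (A * B) = Tay p u w 0 A * Tay p u w 0 B := by
    intro A B
    unfold Tay
    rw [map_mul]
  have hpow : ∀ (A : MvPolynomial (Fin 3) ℂ) (e : ℕ),
      Tay p u w 0 (A ^ e) = Tay p u w 0 A ^ e := by
    intro A e
    unfold Tay
    rw [map_pow]
  have h1 : ∀ m : Fin 3 →₀ ℕ, m.degree = k → ∀ c : ℂ,
      fr (monomial m c) = fr x ^ k * th x y z (Tay p u w 0 (monomial m c)) := by
    intro m hm c
    rw [monomial_eq, Finsupp.prod_fintype _ _ (fun i => pow_zero _), Fin.prod_univ_three]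
    have h2 : fr (C c) = th x y z (Tay p u w 0 (C c)) := by
      have h5 : Tay p u w 0 (C c) = C c := by
        unfold Tay
        rw [aeval_C]
        rfl
      rw [h5, fr_C, ← algebraMap_eq, AlgHom.commutes]
    have h3 : k = m 0 + m 1 + m 2 := by
      rw [← hm, Finsupp.degree_eq_sum, Fin.sum_univ_three]
    rw [map_mul, map_mul, map_mul, map_pow, map_pow, map_pow, hmul, hmul, hmul, hpow, hpow, hpow,
      map_mul, map_mul, map_mul, map_pow, map_pow, map_pow, hvar 0, hvar 1, hvar 2, ← h2, h3,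
      pow_add, pow_add, mul_pow, mul_pow, mul_pow]
    ring
  have h4 : fr F = ∑ m ∈ F.support, fr (monomial m (coeff m F)) := by
    rw [← map_sum, ← F.as_sum]
  have h5 : Tay p u w 0 F = ∑ m ∈ F.support, Tay p u w 0 (monomial m (coeff m F)) := by
    unfold Tay
    rw [← map_sum, ← F.as_sum]
  rw [h4, h5, map_sum, Finset.mul_sum]
  refine Finset.sum_congr rfl fun m hm => h1 m ?_ _
  by_contra hcon
  exact mem_support_iff.1 hm (hF.coeff_eq_zero hcon)

end MPb07157.O4
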