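import Pool.Agent.Lib.MP_b07157_agO4.GK
import Pool.Agent.Lib.MP_b07157_agO4.GH

/-!
# The class of a function in `LogS`
-/

noncomputable section

namespace MPb07157.O4

open MvPolynomial MPb07157Q
open MPb07157.OK
open MPb07157.OK.TrAux (Mat eqv)
open MPb07157.OB (Dat)

variable {r l n d : ℕ} {f : MvPolynomial (Fin 3) ℂ}
  {g : Fin l → MvPolynomial (Fin 3) ℂ} {m : Fin l → ℕ}
  {b : Fin r → Fin 3 → ℂ} {c : ℂ} {t : Fin 3 → Kf} {Sec : (Fin 3 → ℂ) → Kf → Prop} {j : Fin r}
  {x y z : MvPolynomial (Fin 3) ℂ}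

namespace GIAux

/-- The derivative in the direction `u`. -/
def giD (u : Fin 3 → ℂ) : Derivation ℂ Kf Kf := u 0 • DK 0 + u 1 • DK 1 + u 2 • DK 2

theorem giD_apply (u : Fin 3 → ℂ) (a : Kf) :
    giD u a = ∑ k, algebraMap ℂ Kf (u k) * DK k a := by
  rw [Fin.sum_univ_three]
  simp only [giD, Derivation.add_apply, Derivation.smul_apply, Algebra.smul_def]

theorem giD_fr (u : Fin 3 → ℂ) (P : MvPolynomial (Fin 3) ℂ) :
    giD u (fr P) = fr (∑ k, C (u k) * pderiv k P) := by
  rw [giD_apply, map_sum]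
  refine Finset.sum_congr rfl fun k _ => ?_
  rw [map_mul, fr_C, DK_fr]

theorem giD_mul (u : Fin 3 → ℂ) (a b : Kf) : giD u (a * b) = a * giD u b + b * giD u a := by
  rw [Derivation.leibniz, smul_eq_mul, smul_eq_mul]

theorem giD_inv (u : Fin 3 → ℂ) {a : Kf} (ha : a ≠ 0) :
    giD u a⁻¹ * a ^ 2 = - giD u a := by
  have h1 : giD u (a * a⁻¹) = 0 := by
    rw [mul_inv_cancel₀ ha, Derivation.map_one_eq_zero]
  rw [giD_mul] at h1
  have h2 : a * (a * giD u a⁻¹ + a⁻¹ * giD u a) = 0 := by rw [h1, mul_zero]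
  have h3 : a * a⁻¹ = 1 := mul_inv_cancel₀ ha
  linear_combination h2 - giD u a * h3

theorem giD_pow {u : Fin 3 → ℂ} {a : Kf} (ha : giD u a = 0) (k : ℕ) : giD u (a ^ k) = 0 := by
  induction k with
  | zero => rw [pow_zero, Derivation.map_one_eq_zero]
  | succ k ih => rw [pow_succ, giD_mul, ih, ha, mul_zero, mul_zero, add_zero]

theorem gi_thC (a : ℂ) : th x y z (C a) = algebraMap ℂ Kf a := by
  rw [← MvPolynomial.algebraMap_eq, AlgHom.commutes]

theorem gi_thX0 : th x y z (X 0) = fr y * (fr x)⁻¹ := by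
  rw [th, aeval_X]
  rfl

theorem gi_thX1 : th x y z (X 1) = fr z * (fr x)⁻¹ := by
  rw [th, aeval_X]
  rfl

/-- The directional derivative of a local function. -/
theorem giD_th (hx : fr x ≠ 0) {u : Fin 3 → ℂ} (h0 : giD u (fr x) = 0) {α β : ℂ}
    (hy : giD u (fr y) = algebraMap ℂ Kf α) (hz : giD u (fr z) = algebraMap ℂ Kf β)
    (A : MvPolynomial (Fin 2) ℂ) :
    giD u (th x y z A) * fr x = th x y z (C α * pderiv 0 A + C β * pderiv 1 A) := by
  have hi : giD u (fr x)⁻¹ = 0 := by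
    have h1 := giD_inv u hx
    rw [h0, neg_zero] at h1
    exact (mul_eq_zero.mp h1).resolve_right (pow_ne_zero 2 hx)
  have hX0 : giD u (th x y z (X 0)) * fr x = algebraMap ℂ Kf α := by
    rw [gi_thX0, giD_mul, hi, hy]
    field_simp
    ring
  have hX1 : giD u (th x y z (X 1)) * fr x = algebraMap ℂ Kf β := by
    rw [gi_thX1, giD_mul, hi, hz]
    field_simp
    ring
  induction A using MvPolynomial.induction_on with
  | C a =>
    rw [gi_thC, Derivation.map_algebraMap]
    simp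
  | add p q hp hq =>
    rw [map_add, map_add, add_mul, hp, hq, ← map_add]
    congr 1
    rw [map_add, map_add]
    ring
  | mul_X p i hp =>
    rw [map_mul, giD_mul, add_mul, mul_assoc, mul_assoc, hp]
    have hi2 : i = 0 ∨ i = 1 := by
      fin_cases i
      · exact Or.inl rfl
      · exact Or.inr rfl
    rcases hi2 with rfl | rfl
    · rw [hX0, pderiv_mul, pderiv_mul, pderiv_X_self, pderiv_X_of_ne (by decide)]
      simp only [map_add, map_mul, gi_thC, mul_one, mul_zero, add_zero]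
      ring
    · rw [hX1, pderiv_mul, pderiv_mul, pderiv_X_self, pderiv_X_of_ne (by decide)]
      simp only [map_add, map_mul, gi_thC, mul_one, mul_zero, add_zero]
      ring

/-- The form of degree `D` with a given local expression. -/
theorem gi_form {p : Fin 3 → ℂ} (hC : Crd p x y z) (A : MvPolynomial (Fin 2) ℂ) {D : ℕ}
    (hA : A.totalDegree ≤ D) :
    ∃ H : MvPolynomial (Fin 3) ℂ, H.IsHomogeneous D ∧ fr H = fr x ^ D * th x y z A ∧
      eval p H = coeff 0 A * eval p x ^ D := by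
  classical
  have hx0 : x ≠ 0 := by
    intro h
    exact hC.xb (by rw [h, map_zero])
  have hx : fr x ≠ 0 := fr_ne_zero hx0
  have hdeg : ∀ μ ∈ A.support, μ 0 + μ 1 ≤ D := by
    intro μ hμ
    have h1 := MvPolynomial.le_totalDegree hμ
    rw [Finsupp.sum_fintype _ _ (fun _ => rfl), Fin.sum_univ_two] at h1
    exact h1.trans hA
  refine ⟨∑ μ ∈ A.support, C (coeff μ A) * (x ^ (D - (μ 0 + μ 1)) * y ^ μ 0 * z ^ μ 1),
    ?_, ?_, ?_⟩
  · apply IsHomogeneous.sum
    intro μ hμ
    have h1 : D = 0 + (1 * (D - (μ 0 + μ 1)) + 1 * μ 0 + 1 * μ 1) := by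
      have := hdeg μ hμ
      omega
    have h2 : (C (coeff μ A) * (x ^ (D - (μ 0 + μ 1)) * y ^ μ 0 * z ^ μ 1) :
        MvPolynomial (Fin 3) ℂ).IsHomogeneous
        (0 + (1 * (D - (μ 0 + μ 1)) + 1 * μ 0 + 1 * μ 1)) :=
      (isHomogeneous_C _ _).mul (((hC.hx.pow _).mul (hC.hy.pow _)).mul (hC.hz.pow _))
    rw [← h1] at h2
    exact h2
  · have h3 : th x y z A = ∑ μ ∈ A.support, algebraMap ℂ Kf (coeff μ A) *
        ((fr y * (fr x)⁻¹) ^ μ 0 * (fr z * (fr x)⁻¹) ^ μ 1) := by
      conv_lhs => rw [A.as_sum]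
      rw [map_sum]
      refine Finset.sum_congr rfl fun μ _ => ?_
      rw [th, aeval_monomial, Finsupp.prod_fintype _ _ (fun _ => pow_zero _), Fin.prod_univ_two]
      rfl
    rw [h3, map_sum, Finset.mul_sum]
    refine Finset.sum_congr rfl fun μ hμ => ?_
    have h4 : fr x ^ D = fr x ^ (D - (μ 0 + μ 1)) * fr x ^ μ 0 * fr x ^ μ 1 := by
      rw [← pow_add, ← pow_add]
      congr 1
      have := hdeg μ hμ
      omega
    rw [map_mul, map_mul, map_mul, map_pow, map_pow, map_pow, fr_C, h4]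
    have h5 : (fr y * (fr x)⁻¹) ^ μ 0 * fr x ^ μ 0 = fr y ^ μ 0 := by
      rw [← mul_pow, inv_mul_cancel_right₀ hx]
    have h6 : (fr z * (fr x)⁻¹) ^ μ 1 * fr x ^ μ 1 = fr z ^ μ 1 := by
      rw [← mul_pow, inv_mul_cancel_right₀ hx]
    rw [← h5, ← h6]
    ring
  · rw [map_sum]
    by_cases h0 : (0 : Fin 2 →₀ ℕ) ∈ A.support
    · rw [Finset.sum_eq_single_of_mem 0 h0]
      · simp
      · intro μ _ hμ
        rw [map_mul, map_mul, map_mul, map_pow, map_pow, map_pow, hC.yb, hC.zb]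
        have h7 : μ 0 ≠ 0 ∨ μ 1 ≠ 0 := by
          by_contra hcon
          push Not at hcon
          apply hμ
          ext i
          fin_cases i
          · exact hcon.1
          · exact hcon.2
        rcases h7 with h7 | h7
        · rw [zero_pow h7]
          ring
        · rw [zero_pow h7]
          ring
    · rw [MvPolynomial.notMem_support_iff.mp h0, zero_mul]
      apply Finset.sum_eq_zero
      intro μ hμs
      have hμ : μ ≠ 0 := fun h => h0 (h ▸ hμs)
      rw [map_mul, map_mul, map_mul, map_pow, map_pow, map_pow, hC.yb, hC.zb]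
      have h7 : μ 0 ≠ 0 ∨ μ 1 ≠ 0 := by
        by_contra hcon
        push Not at hcon
        apply hμ
        ext i
        fin_cases i
        · exact hcon.1
        · exact hcon.2
      rcases h7 with h7 | h7
      · rw [zero_pow h7]
        ring
      · rw [zero_pow h7]
        ring

end GIAux

open GIAux

/-- (H3) The local class of a function in `LogS`: the main step.

Proof. Let `A`, `B`, `h`, `η`, `s` be as in `LogS` and `K` a number `≥` all their degrees plus
`2 n`. For a polynomial `A` in two variables of degree `≤ D` there is a form `A ^ D` of degree `D`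
in `x`, `y`, `z` with `fr (A ^ D) = fr x ^ D * th A`. Put `δ = A ^ (K-1) x u + B ^ (K-1) x w` (degree `κ = K`),
`h' = h ^ (K-1)`, `η' = η ^ (K-1)`, `ε = s ^ (K-n+5)` (degree `λ = κ - (n - 5)`, nonzero at `p` since
`s 0 ≠ 0`). With `D_u = ∑ u_k DK k`, `D_w`: `D_u (th A) = th (∂_y A) / x`, `D_u (fr x) = 0` (`Dual.dx`,
`dy`, `dz`), so by `H2` `δ F = x ^ (K-1) th(h) F` (first as elements of `Kf`, then by
`fr_injective`), `δ f = η' f`; and
`∑ DK k (δ k / ε) = x ^ (n-6) (th (∂_y A + ∂_z B) / th s - th (A ∂_y s + B ∂_z s) / th s ^ 2)`.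
So `K1` is the claim, `p = x ^ (n - 6) th φ`. (`F` is a constant multiple of `∏ j, g j`, with the
same `h`.) -/
theorem gt_of_logS (hf : IsFact f g m) (h : Dat f (∏ j, g j) (vv g m) d n) (hb : ∀ j, b j ≠ 0)
    (hbb : ∀ i j, i ≠ j → ∀ c : ℂ, b i ≠ c • b j) (hS : Sol f (vv g m) n b c t Sec)
    {u w : Fin 3 → ℂ} (hD : Dual (b j) u w x y z) {φ : MvPolynomial (Fin 2) ℂ}
    (hφ : LogS d (Tay (b j) u w 0 f) (Tay (b j) u w 0 (∏ j, g j)) φ) :
    GT b Sec j y z (-3) (fr x ^ ((n : ℤ) - 6) * th x y z φ) := by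
  obtain ⟨A, B, h0, η, s, hs, hF, hff, hdiv⟩ := hφ
  have hC := hD.crd
  have hx0 : x ≠ 0 := by
    intro h
    exact hC.xb (by rw [h, map_zero])
  have hx : fr x ≠ 0 := fr_ne_zero hx0
  -- directional derivatives
  have ux : giD u (fr x) = 0 := by rw [giD_fr, hD.dx.1, map_zero]
  have uy : giD u (fr y) = algebraMap ℂ Kf 1 := by rw [giD_fr, hD.dy.1, map_one, map_one]
  have uz : giD u (fr z) = algebraMap ℂ Kf 0 := by rw [giD_fr, hD.dz.1, map_zero, map_zero]
  have wx : giD w (fr x) = 0 := by rw [giD_fr, hD.dx.2, map_zero]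
  have wy : giD w (fr y) = algebraMap ℂ Kf 0 := by rw [giD_fr, hD.dy.2, map_zero, map_zero]
  have wz : giD w (fr z) = algebraMap ℂ Kf 1 := by rw [giD_fr, hD.dz.2, map_one, map_one]
  have hu : ∀ Q : MvPolynomial (Fin 2) ℂ, giD u (th x y z Q) * fr x = th x y z (pderiv 0 Q) := by
    intro Q
    rw [giD_th hx ux uy uz, C_1, C_0]
    congr 1
    ring
  have hw : ∀ Q : MvPolynomial (Fin 2) ℂ, giD w (th x y z Q) * fr x = th x y z (pderiv 1 Q) := by
    intro Q
    rw [giD_th hx wx wy wz, C_1, C_0]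
    congr 1
    ring
  -- the degrees
  obtain ⟨K, hKA, hKB, hKh, hKη, hKs⟩ : ∃ K : ℕ, A.totalDegree ≤ K ∧ B.totalDegree ≤ K ∧
      h0.totalDegree ≤ K ∧ η.totalDegree ≤ K ∧ s.totalDegree + n ≤ K :=
    ⟨A.totalDegree + B.totalDegree + h0.totalDegree + η.totalDegree + s.totalDegree + n,
      by omega, by omega, by omega, by omega, by omega⟩
  obtain ⟨HA, hHA, eA, -⟩ := gi_form hC A hKA
  obtain ⟨HB, hHB, eB, -⟩ := gi_form hC B hKB
  obtain ⟨Hh, hHh, eh, -⟩ := gi_form hC h0 hKh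
  obtain ⟨Hη, hHη, eη, -⟩ := gi_form hC η hKη
  obtain ⟨ε, hε, eε, pε⟩ := gi_form hC s (D := K + 6 - n) (by omega)
  have hε0 : eval (b j) ε ≠ 0 := by
    rw [pε]
    exact mul_ne_zero hs (pow_ne_zero _ hC.xb)
  have hε1 : ε ≠ 0 := by
    intro h
    exact hε0 (by rw [h, map_zero])
  have hE : fr ε ≠ 0 := fr_ne_zero hε1
  -- the vector field
  have key : ∀ {k : ℕ} {P Q : MvPolynomial (Fin 3) ℂ} {q : MvPolynomial (Fin 2) ℂ},
      P.IsHomogeneous k → fr Q = fr x ^ K * th x y z q →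
      A * pderiv 0 (Tay (b j) u w 0 P) + B * pderiv 1 (Tay (b j) u w 0 P) =
        q * Tay (b j) u w 0 P →
      ∑ k, (HA * x * C (u k) + HB * x * C (w k)) * pderiv k P = Q * P := by
    intro k P Q q hP hQ hq
    have eP := fr_eq_th hD hP
    have hq' := congrArg (th x y z) hq
    rw [map_add, map_mul, map_mul, map_mul] at hq'
    set T := Tay (b j) u w 0 P with hT
    have h1 : giD u (fr P) * fr x = fr x ^ k * th x y z (pderiv 0 T) := by
      rw [eP, giD_mul, giD_pow ux, mul_zero, add_zero, mul_assoc, hu]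
    have h2 : giD w (fr P) * fr x = fr x ^ k * th x y z (pderiv 1 T) := by
      rw [eP, giD_mul, giD_pow wx, mul_zero, add_zero, mul_assoc, hw]
    have h3 : ∑ k, (HA * x * C (u k) + HB * x * C (w k)) * pderiv k P =
        HA * x * (∑ k, C (u k) * pderiv k P) + HB * x * (∑ k, C (w k) * pderiv k P) := by
      rw [Finset.mul_sum, Finset.mul_sum, ← Finset.sum_add_distrib]
      refine Finset.sum_congr rfl fun k _ => ?_
      ring
    apply fr_injective
    rw [h3, map_add, map_mul, map_mul, map_mul, map_mul, map_mul, ← giD_fr, ← giD_fr, eA, eB, hQ]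
    linear_combination fr x ^ K * th x y z A * h1 + fr x ^ K * th x y z B * h2 +
      fr x ^ K * fr x ^ k * hq' - fr x ^ K * th x y z q * eP
  have hP := key h.hP eh hF
  have hδ := key h.hf eη hff
  have hκ : ∀ k, (HA * x * C (u k) + HB * x * C (w k)).IsHomogeneous (K + 1) := by
    intro k
    exact ((hHA.mul hC.hx).mul (isHomogeneous_C _ (u k))).add
      ((hHB.mul hC.hx).mul (isHomogeneous_C _ (w k)))
  have hκl : ((K + 1 : ℕ) : ℤ) - ((K + 6 - n : ℕ) : ℤ) = n - 5 := by
    have : n ≤ K + 6 := by omega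
    push_cast [Nat.cast_sub this]
    ring
  have main := gt_log hf h hb hbb hS hC hκl hκ hε hε0 hP hδ
  -- the divergence
  have e1 : ∑ k, DK k (fr (HA * x * C (u k) + HB * x * C (w k)) * (fr ε)⁻¹) =
      giD u (fr HA * fr x * (fr ε)⁻¹) + giD w (fr HB * fr x * (fr ε)⁻¹) := by
    rw [giD_apply, giD_apply, ← Finset.sum_add_distrib]
    refine Finset.sum_congr rfl fun k _ => ?_
    have e2 : fr (HA * x * C (u k) + HB * x * C (w k)) * (fr ε)⁻¹ =
        u k • (fr HA * fr x * (fr ε)⁻¹) + w k • (fr HB * fr x * (fr ε)⁻¹) := by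
      rw [map_add, map_mul, map_mul, map_mul, map_mul, fr_C, fr_C, Algebra.smul_def,
        Algebra.smul_def]
      ring
    rw [e2, map_add, Derivation.map_smul, Derivation.map_smul, Algebra.smul_def, Algebra.smul_def]
  have hZ : fr x ^ ((n : ℤ) - 6) * fr x ^ (K + 6 - n) = fr x ^ K := by
    rw [← zpow_natCast (fr x) (K + 6 - n), ← zpow_add₀ hx, ← zpow_natCast (fr x) K]
    congr 1
    have : n ≤ K + 6 := by omega
    push_cast [Nat.cast_sub this]
    ring
  have hdiv' := congrArg (th x y z) hdiv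
  simp only [map_add, map_sub, map_mul, map_pow, gi_thC] at hdiv'
  have e3 : (∑ k, DK k (fr (HA * x * C (u k) + HB * x * C (w k)) * (fr ε)⁻¹) -
      fr Hh * (fr ε)⁻¹ + algebraMap ℂ Kf (3 / d) * (fr Hη * (fr ε)⁻¹)) =
      fr x ^ ((n : ℤ) - 6) * th x y z φ := by
    rw [e1]
    have i4 : (fr ε)⁻¹ * fr ε ^ 2 = fr ε := by
      rw [pow_two, inv_mul_cancel_left₀ hE]
    have a1 : giD u (fr HA * fr x * (fr ε)⁻¹) * fr ε ^ 2 =
        fr x ^ K * th x y z (pderiv 0 A) * fr ε -
          fr HA * (fr x ^ (K + 6 - n) * th x y z (pderiv 0 s)) := by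
      have i1 := giD_inv u hE
      have i2 : giD u (fr HA) * fr x = fr x ^ K * th x y z (pderiv 0 A) := by
        rw [eA, giD_mul, giD_pow ux, mul_zero, add_zero, mul_assoc, hu]
      have i3 : giD u (fr ε) * fr x = fr x ^ (K + 6 - n) * th x y z (pderiv 0 s) := by
        rw [eε, giD_mul, giD_pow ux, mul_zero, add_zero, mul_assoc, hu]
      rw [giD_mul, giD_mul, ux]
      linear_combination fr HA * fr x * i1 + fr x * giD u (fr HA) * i4 + fr ε * i2 - fr HA * i3
    have a2 : giD w (fr HB * fr x * (fr ε)⁻¹) * fr ε ^ 2 =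
        fr x ^ K * th x y z (pderiv 1 B) * fr ε -
          fr HB * (fr x ^ (K + 6 - n) * th x y z (pderiv 1 s)) := by
      have i1 := giD_inv w hE
      have i2 : giD w (fr HB) * fr x = fr x ^ K * th x y z (pderiv 1 B) := by
        rw [eB, giD_mul, giD_pow wx, mul_zero, add_zero, mul_assoc, hw]
      have i3 : giD w (fr ε) * fr x = fr x ^ (K + 6 - n) * th x y z (pderiv 1 s) := by
        rw [eε, giD_mul, giD_pow wx, mul_zero, add_zero, mul_assoc, hw]
      rw [giD_mul, giD_mul, wx]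
      linear_combination fr HB * fr x * i1 + fr x * giD w (fr HB) * i4 + fr ε * i2 - fr HB * i3
    rw [eA] at a1
    rw [eB] at a2
    apply mul_right_cancel₀ (pow_ne_zero 2 hE)
    rw [eA, eB]
    generalize giD u (fr x ^ K * th x y z A * fr x * (fr ε)⁻¹) = U1 at a1 ⊢
    generalize giD w (fr x ^ K * th x y z B * fr x * (fr ε)⁻¹) = U2 at a2 ⊢
    generalize fr x ^ ((n : ℤ) - 6) = Z at hZ ⊢
    generalize fr x ^ (K + 6 - n) = Xl at hZ a1 a2 eε ⊢
    generalize fr x ^ K = XK at hZ a1 a2 eh eη ⊢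
    linear_combination a1 + a2 + (-fr Hh + algebraMap ℂ Kf (3 / d) * fr Hη) * i4 - fr ε * eh +
      algebraMap ℂ Kf (3 / d) * fr ε * eη +
      XK * (th x y z (pderiv 0 A) + th x y z (pderiv 1 B) - th x y z h0 +
        algebraMap ℂ Kf (3 / d) * th x y z η) * eε -
      Z * th x y z φ * (fr ε + Xl * th x y z s) * eε -
      th x y z φ * th x y z s ^ 2 * Xl * hZ - XK * Xl * hdiv'
  rw [e3] at main
  exact main

end MPb07157.O4
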