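import Pool.Agent.Lib.MP_b07157_agO4.GM
import Pool.Agent.Lib.MP_b07157_agO4.GI

/-!
# The class of a function in `LogI`
-/

noncomputable section

namespace MPb07157.O4

open MvPolynomial MPb07157Q
open MPb07157.OK
open MPb07157.O3 (An)
open MPb07157.OB (Dat)

variable {r l n d : ℕ} {f : MvPolynomial (Fin 3) ℂ}
  {g : Fin l → MvPolynomial (Fin 3) ℂ} {m : Fin l → ℕ} {v : Fin 3 → MvPolynomial (Fin 3) ℂ}
  {b : Fin r → Fin 3 → ℂ} {c : ℂ} {t : Fin 3 → Kf} {Sec : (Fin 3 → ℂ) → Kf → Prop} {j : Fin r}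
  {x y z : MvPolynomial (Fin 3) ℂ} {κ : ℤ} {ψ ψ' : Kf}

theorem AnK.add (h : AnK b Sec j κ ψ) (h' : AnK b Sec j κ ψ') : AnK b Sec j κ (ψ + ψ') := by
  obtain ⟨e, s, ⟨l, he⟩, e0, ei, hk, hr⟩ := h
  obtain ⟨e', s', ⟨l', he'⟩, e0', ei', hk', hr'⟩ := h'
  refine ⟨e * e', s + s', ⟨_, he.mul he'⟩, ?_, fun i hi => ?_, hk.add hk',
    fun q G hq hb hs => ?_⟩
  · rw [map_mul]
    exact mul_ne_zero e0 e0'
  · rw [map_mul, ei i hi, zero_mul]
  · rw [map_mul] at hq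
    have h1 := (hr q G (left_ne_zero_of_mul hq) hb hs).add
      (hr' q G (right_ne_zero_of_mul hq) hb hs)
    have e1 : (ψ + ψ') * G - (s + s') = ψ * G - s + (ψ' * G - s') := by ring
    rw [e1]
    exact h1

theorem ank_zero (hbb : ∀ i j, i ≠ j → ∀ c : ℂ, b i ≠ c • b j) (j : Fin r) (κ : ℤ) :
    AnK b Sec j κ 0 := by
  obtain ⟨l, e, he, e0, ei⟩ := exists_sep hbb j
  refine ⟨e, 0, ⟨l, he⟩, e0, ei, Hk.zero _, fun q G _ _ _ => ?_⟩
  rw [zero_mul, sub_zero]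
  exact RegAt.zero q

theorem ank_sum (hbb : ∀ i j, i ≠ j → ∀ c : ℂ, b i ≠ c • b j) {ι : Type*} (s : Finset ι)
    (u : ι → Kf) (h : ∀ i ∈ s, AnK b Sec j κ (u i)) : AnK b Sec j κ (∑ i ∈ s, u i) := by
  classical
  induction s using Finset.induction_on with
  | empty => exact ank_zero hbb j κ
  | insert a s ha ih =>
    rw [Finset.sum_insert ha]
    exact (h a (Finset.mem_insert_self _ _)).add
      (ih fun i hi => h i (Finset.mem_insert_of_mem hi))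

/-- Functions of high order kill the class. -/
theorem ank_of_order (hbb : ∀ i j, i ≠ j → ∀ c : ℂ, b i ≠ c • b j) (hC : Crd (b j) x y z)
    {R : ℕ} (hR : ∀ β γ : ℕ, R ≤ β + γ → An b n Sec j (β + γ) (y ^ β * z ^ γ))
    {φ : MvPolynomial (Fin 2) ℂ} (hφ : ∀ m : Fin 2 →₀ ℕ, m 0 + m 1 < R → coeff m φ = 0) :
    AnK b Sec j (-3) (fr x ^ ((n : ℤ) - 6) * th x y z φ) := by
  classical
  have hx0 : x ≠ 0 := fun h0 => hC.xb (by rw [h0, map_zero])
  have fx := fr_ne_zero hx0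
  have hxh : ∀ k : ℕ, (x ^ k).IsHomogeneous k := by
    intro k
    have := hC.hx.pow k
    rwa [one_mul] at this
  have hxe : ∀ k : ℕ, eval (b j) (x ^ k) ≠ 0 := by
    intro k
    rw [map_pow]
    exact pow_ne_zero _ hC.xb
  rw [φ.as_sum, map_sum, Finset.mul_sum]
  refine ank_sum hbb _ _ fun m hm => ?_
  have hmR : R ≤ m 0 + m 1 := by
    by_contra hlt
    exact (mem_support_iff.1 hm) (hφ m (by omega))
  have a1 : AnK b Sec j (3 - n + ((m 0 + m 1 : ℕ) : ℤ)) (fr (y ^ m 0 * z ^ m 1)) :=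
    hR _ _ hmR
  have a2 := (a1.unit (hxh (m 0 + m 1 + 6)) (hxh n) (hxe _) (κ' := -3)
    (by push_cast; ring)).unit (isHomogeneous_one (Fin 3) ℂ)
    (isHomogeneous_C (Fin 3) (coeff m φ)) (by rw [map_one]; exact one_ne_zero) (κ' := -3)
    (by norm_num)
  have a3 : fr x ^ ((n : ℤ) - 6) * th x y z (monomial m (coeff m φ)) =
      fr (C (coeff m φ)) * (fr 1)⁻¹ * (fr (x ^ n) * (fr (x ^ (m 0 + m 1 + 6)))⁻¹ *
        fr (y ^ m 0 * z ^ m 1)) := by
    have b1 : th x y z (monomial m (coeff m φ)) = fr (C (coeff m φ)) *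
        ((fr y * (fr x)⁻¹) ^ m 0 * (fr z * (fr x)⁻¹) ^ m 1) := by
      unfold th
      rw [aeval_monomial, fr_C, Finsupp.prod_fintype _ _ (fun i => pow_zero _), Fin.prod_univ_two]
      rfl
    have b2 : (fr x ^ (m 0 + m 1 + 6))⁻¹ =
        (fr x ^ (6 : ℤ))⁻¹ * ((fr x)⁻¹ ^ m 0 * (fr x)⁻¹ ^ m 1) := by
      rw [inv_pow, inv_pow, pow_add, pow_add, mul_inv, mul_inv]
      have c9 : fr x ^ (6 : ℤ) = fr x ^ 6 := by
        exact_mod_cast zpow_natCast (fr x) 6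
      rw [c9]
      ring
    rw [b1, map_mul fr (y ^ m 0), map_pow fr y, map_pow fr z, map_pow fr x, map_pow fr x,
      mul_pow, mul_pow, zpow_sub₀ fx, zpow_natCast, b2, map_one fr, inv_one]
    ring
  rw [a3]
  exact a2

/-- (J) The local class of a function in `LogI`. -/
theorem gt_of_logI (hf : IsFact f g m) (h : Dat f (∏ j, g j) (vv g m) d n) (hb : ∀ j, b j ≠ 0)
    (hbb : ∀ i j, i ≠ j → ∀ c : ℂ, b i ≠ c • b j) (hS : Sol f (vv g m) n b c t Sec)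
    {u w : Fin 3 → ℂ} (hD : Dual (b j) u w x y z) {φ : MvPolynomial (Fin 2) ℂ}
    (hφ : LogI d (Tay (b j) u w 0 f) (Tay (b j) u w 0 (∏ j, g j)) φ) :
    GT b Sec j y z (-3) (fr x ^ ((n : ℤ) - 6) * th x y z φ) := by
  obtain ⟨M, hM⟩ := an_of_pow hS hb hbb hD.crd
  obtain ⟨A, B, h', η, h1, h2, h3⟩ := hφ (2 * M)
  have hS1 : LogS d (Tay (b j) u w 0 f) (Tay (b j) u w 0 (∏ j, g j))
      (pderiv 0 A + pderiv 1 B - h' + C (3 / d : ℂ) * η) := by
    refine ⟨A, B, h', η, 1, ?_, h1, h2, ?_⟩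
    · rw [coeff_zero_one]
      exact one_ne_zero
    · rw [pderiv_one, pderiv_one]
      ring
  have g1 := gt_of_logS hf h hb hbb hS hD hS1
  have g2 := (ank_of_order (R := 2 * M) hbb hD.crd (fun β γ hβγ => hM β γ (by omega))
    (φ := pderiv 0 A + pderiv 1 B - h' + C (3 / d : ℂ) * η - φ) (fun m' hm' => by
      rw [coeff_sub, h3 m' hm', sub_self])).gt y z
  have g3 := g1.sub g2
  rw [map_sub, mul_sub, sub_sub_cancel] at g3
  exact g3

end MPb07157.O4
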