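import Pool.Agent.Lib.MP_b07157_agO4.GM
import Pool.Agent.Lib.MP_b07157_agO4.GJ
import Pool.Agent.Lib.MP_b07157_agO3.MB

/-!
# The root `-3/d` for ternary forms with arbitrary singular points
-/

noncomputable section

namespace MPb07157.O4

open MvPolynomial MPb07157Q
open MPb07157.OK
open MPb07157.OK.TrAux
open MPb07157.O3 (An JJ ls_of_an loc_an ordSqh interpQ sqh_of_C_mul)
open MPb07157.OB (Dat)

variable {r n d : ℕ} {f : MvPolynomial (Fin 3) ℂ} {b : Fin r → Fin 3 → ℂ}
  {Sec : (Fin 3 → ℂ) → Kf → Prop}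

/-- Coordinates at a point. -/
theorem exists_crd {b : Fin 3 → ℂ} (hb : b ≠ 0) : ∃ x y z, Crd b x y z := by
  obtain ⟨p, q, D, M, hp⟩ := exists_mat hb
  subst hp
  refine ⟨(eqv M).symm (X 0), (eqv M).symm (X 1), (eqv M).symm (X 2),
    hom_symm M (isHomogeneous_X ℂ 0), hom_symm M (isHomogeneous_X ℂ 1),
    hom_symm M (isHomogeneous_X ℂ 2), ?_, ?_, ?_, fun y h1 h2 => ?_⟩
  · rw [← pt_single p, eval_symm, eval_X, Pi.single_eq_same]
    exact one_ne_zero
  · rw [← pt_single p, eval_symm, eval_X]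
    rfl
  · rw [← pt_single p, eval_symm, eval_X]
    rfl
  · obtain ⟨x, rfl⟩ := exists_pt M y
    rw [eval_symm, eval_X] at h1 h2
    refine ⟨x 0, ?_⟩
    unfold pt
    rw [Fin.sum_univ_three, h1, h2, zero_smul, zero_smul, add_zero, add_zero]

/-- The bad points, with given representatives of the listed points. -/
theorem exists_bad2 {l : ℕ} {g : Fin l → MvPolynomial (Fin 3) ℂ} {m : Fin l → ℕ}
    (hf : IsFact f g m) (hd : 0 < d) (hh : f.IsHomogeneous d) (Pl : (Fin 3 → ℂ) → Prop)
    (hpts : ∀ q, q ≠ 0 → eval q f = 0 →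
      IsWHAt f q ∨ OrdPt f q ∨ ∃ (p : Fin 3 → ℂ) (c : ℂ), Pl p ∧ q = c • p) :
    ∃ (r : ℕ) (b : Fin r → Fin 3 → ℂ), (∀ j, b j ≠ 0) ∧
      (∀ i j, i ≠ j → ∀ c : ℂ, b i ≠ c • b j) ∧
      (∀ j, eval (b j) f = 0 ∧ ¬ QHat f (b j)) ∧
      (∀ q, OffB b q → eval q f = 0 → QHat f q) ∧
      ∀ j, Pl (b j) ∨
        (¬ IsWHAt f (b j) ∧ OrdPt f (b j) ∧ ∀ (p : Fin 3 → ℂ) (c : ℂ), Pl p → b j ≠ c • p) := by
  obtain ⟨r, p, hp0, hpp, hbad, hq⟩ := exists_bad hf hd hh
  have h1 : ∀ j, ∃ (q : Fin 3 → ℂ) (c : ℂ), c ≠ 0 ∧ q = c • p j ∧ (Pl q ∨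
      (¬ IsWHAt f q ∧ OrdPt f q ∧ ∀ (p : Fin 3 → ℂ) (c : ℂ), Pl p → q ≠ c • p)) := by
    intro j
    by_cases hj : ∃ (p' : Fin 3 → ℂ) (c : ℂ), Pl p' ∧ p j = c • p'
    · obtain ⟨p', c, hP, hc⟩ := hj
      have hc0 : c ≠ 0 := by
        rintro rfl
        exact hp0 j (by rw [hc, zero_smul])
      refine ⟨p', c⁻¹, inv_ne_zero hc0, ?_, Or.inl hP⟩
      rw [hc, smul_smul, inv_mul_cancel₀ hc0, one_smul]
    · push Not at hj
      have hw : ¬ IsWHAt f (p j) := fun h => (hbad j).2 (qhat_of_isWHAt hd hh (hp0 j) h)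
      refine ⟨p j, 1, one_ne_zero, (one_smul _ _).symm, Or.inr ⟨hw, ?_, hj⟩⟩
      rcases hpts (p j) (hp0 j) (hbad j).1 with h | h | ⟨p', c, hP, h⟩
      · exact absurd h hw
      · exact h
      · exact absurd h (hj p' c hP)
  choose b c hc hbp hcase using h1
  have hpb : ∀ j, p j = (c j)⁻¹ • b j := by
    intro j
    rw [hbp, smul_smul, inv_mul_cancel₀ (hc j), one_smul]
  refine ⟨r, b, fun j h0 => ?_, fun i j hij c' h0 => ?_, fun j => ⟨?_, fun hQ => ?_⟩,
    fun q hq' h0 => ?_, hcase⟩
  · rw [hbp] at h0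
    exact hp0 j ((smul_eq_zero.1 h0).resolve_left (hc j))
  · refine hpp i j hij ((c i)⁻¹ * (c' * c j)) ?_
    rw [hpb i, h0, hbp j, smul_smul, smul_smul]
    congr 1
    ring
  · rw [hbp, GlobAux.eval_smul hh, (hbad j).1, mul_zero]
  · apply (hbad j).2
    rw [hpb]
    exact FinAAux.qhat_smul hh (inv_ne_zero (hc j)) hQ
  · refine hq q ⟨hq'.1, fun j c' h1 => ?_⟩ h0
    rw [hpb, smul_smul] at h1
    exact hq'.2 j _ h1

/-- A nonzero constant factor of the reduced equation does not matter. -/
theorem logI_of_C_mul {f P φ : MvPolynomial (Fin 2) ℂ} {u : ℂ} (hu : u ≠ 0)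
    (h : LogI d f (C u * P) φ) : LogI d f P φ := by
  intro R
  obtain ⟨A, B, h', η, h1, h2, h3⟩ := h R
  refine ⟨A, B, h', η, ?_, h2, h3⟩
  have hC : (C u : MvPolynomial (Fin 2) ℂ) ≠ 0 := fun h0 => hu (C_eq_zero.1 h0)
  apply mul_left_cancel₀ hC
  rw [pderiv_C_mul, pderiv_C_mul] at h1
  linear_combination h1

theorem tay_C_mul (p u w : Fin 3 → ℂ) (φ : Polynomial ℂ) (a : ℂ) (P : MvPolynomial (Fin 3) ℂ) :
    Tay p u w φ (C a * P) = C a * Tay p u w φ P := by
  unfold Tay
  rw [map_mul, algHom_C]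
  rfl

end MPb07157.O4

namespace MPb07157

open MvPolynomial MPb07157Q

open O3 O4 OK in
/-- **The root `-3/d`** for ternary forms with arbitrary singular points, under the independence
condition. -/
theorem root_of_singG {f : MvPolynomial (Fin 3) ℂ} (hf : f ≠ 0) {d : ℕ} (hd : 0 < d)
    (hh : f.IsHomogeneous d) (hNS : NS f) (h : SingG d f) {b : Polynomial ℂ}
    (hb : IsBernsteinSato f b) : b.eval (((-(3 / d) : ℚ)) : ℂ) = 0 := by
  classical
  obtain ⟨F, k₀, n₀, r₀, s₀, L, E, hsq, hFf, hfF, hFn, hL, hE, hI, hpts⟩ := h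
  obtain ⟨l, g, m, hfact⟩ := exists_isFact hf hd hh
  obtain ⟨n, hD⟩ := OB.dat_of_isFact hfact hd hh
  obtain ⟨u, hu, hF⟩ := OB.eq_of_squarefree hfact hsq hFf hfF
  have hn0 : n₀ = n := by
    have h1 : F.IsHomogeneous n := by
      rw [hF]
      have h2 := (isHomogeneous_C (Fin 3) u).mul hD.hP
      rwa [zero_add] at h2
    exact hFn.inj_right h1 hsq.ne_zero
  subst hn0
  have hL' : ∀ j, (L j).Sqh (∏ j, g j) := fun j => sqh_of_C_mul hu (by rw [← hF]; exact hL j)
  have hlog : ∀ (j : Fin s₀) (φ : MvPolynomial (Fin 2) ℂ),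
      LogI d ((E j).tay f) ((E j).tay F) φ →
      LogI d ((E j).tay f) ((E j).tay (∏ j, g j)) φ := by
    intro j φ h1
    rw [hF] at h1
    unfold Frame.tay at h1 ⊢
    rw [tay_C_mul] at h1
    exact logI_of_C_mul hu h1
  obtain ⟨r, p, hp0, hpp, hbad, hq, hcase⟩ := exists_bad2 hfact hd hh
    (fun p => (∃ i, (L i).p = p) ∨ ∃ i, (E i).p = p) (by
      intro q hq0 h0
      rcases hpts q hq0 h0 with h | h | ⟨j, c, h⟩ | ⟨j, c, h⟩
      · exact Or.inl h
      · exact Or.inr (Or.inl h)
      · exact Or.inr (Or.inr ⟨(L j).p, c, Or.inl ⟨j, rfl⟩, h⟩)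
      · exact Or.inr (Or.inr ⟨(E j).p, c, Or.inr ⟨j, rfl⟩, h⟩))
  have hform := OB.form_of_bs hb
  rcases Nat.eq_zero_or_pos r with hr | hr
  · subst hr
    exact root_of_qh hfact hd hh (fun q hq0 h0 => hq q ⟨hq0, fun j => j.elim0⟩ h0) hNS b hform
  · choose μ h2 hlt hμ hμ' using fun j =>
      exists_mu hfact hd hh hNS (hp0 j) (hbad j).1 (hbad j).2 hD.hP
    have hn : 3 ≤ n₀ := by
      have := h2 ⟨0, hr⟩
      have := hlt ⟨0, hr⟩
      omega
    have key : ∀ G : MvPolynomial (Fin 3) (MvPolynomial (Fin 3) ℂ),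
        (∀ q : ℕ, Psi ((f : MvPowerSeries (Fin 3) ℂ) ^ q) G = 0) → cc G = 0 := by
      intro G hG
      by_contra hcc
      obtain ⟨t, Sec, hS, hR⟩ := totK' hD hq hp0 G hG
      have hc : -(cc G) ≠ 0 := neg_ne_zero.2 hcc
      -- the listed index of a bad point
      have ho : ∀ j, ∃ o : Option (Fin r₀ ⊕ Fin s₀), (∀ i, o = some (Sum.inl i) → (L i).p = p j) ∧
          (∀ i, o = some (Sum.inr i) → (E i).p = p j) ∧
          (o = none → ¬ IsWHAt f (p j) ∧ OrdPt f (p j) ∧ (∀ i (c : ℂ), p j ≠ c • (L i).p) ∧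
            ∀ i (c : ℂ), p j ≠ c • (E i).p) := by
        intro j
        rcases hcase j with (⟨i, hi⟩ | ⟨i, hi⟩) | ⟨a1, a2, a3⟩
        · refine ⟨some (Sum.inl i), fun i' h' => ?_, fun i' h' => ?_, fun h' => ?_⟩
          · rw [← Sum.inl_injective (Option.some.inj h')]
            exact hi
          · exact absurd (Option.some.inj h') (by simp)
          · exact absurd h' (Option.some_ne_none _)
        · refine ⟨some (Sum.inr i), fun i' h' => ?_, fun i' h' => ?_, fun h' => ?_⟩
          · exact absurd (Option.some.inj h') (by simp)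
          · rw [← Sum.inr_injective (Option.some.inj h')]
            exact hi
          · exact absurd h' (Option.some_ne_none _)
        · refine ⟨none, fun i h' => absurd h'.symm (Option.some_ne_none _),
            fun i h' => absurd h'.symm (Option.some_ne_none _), fun _ => ⟨a1, a2,
              fun i c => a3 _ c (Or.inl ⟨i, rfl⟩), fun i c => a3 _ c (Or.inr ⟨i, rfl⟩)⟩⟩
      choose o ho1 ho2 ho3 using ho
      -- coordinates
      have hcrd : ∀ j, ∃ x y z, Crd (p j) x y z ∧
          ∀ i, o j = some (Sum.inr i) → Dual (p j) (E i).u (E i).w x y z := by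
        intro j
        rcases hoj : o j with _ | (i | i)
        · obtain ⟨x, y, z, h1⟩ := exists_crd (hp0 j)
          exact ⟨x, y, z, h1, fun i h' => absurd h'.symm (Option.some_ne_none _)⟩
        · obtain ⟨x, y, z, h1⟩ := exists_crd (hp0 j)
          exact ⟨x, y, z, h1, fun i' h' => absurd (Option.some.inj h') (by simp)⟩
        · have h0 := hE i
          rw [ho2 j i hoj] at h0
          obtain ⟨x, y, z, h1⟩ := exists_dual h0
          refine ⟨x, y, z, h1.crd, fun i' h' => ?_⟩
          rw [← Sum.inr_injective (Option.some.inj h')]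
          exact h1
      choose x y z hC hDual using hcrd
      -- an ordinary point
      have hAord : ∀ j, o j = none → ∀ k σ, σ.IsHomogeneous k → Mu (p j) (μ j - 4) σ →
          An p n₀ Sec j k σ := by
        intro j hoj k σ hσ hm
        obtain ⟨L', hp, hSq, hJJ⟩ := ordSqh hD.hP (hp0 j) (h2 j) (hμ j)
          (sq_init' hfact (ho3 j hoj).2.1 (hμ j) (hμ' j))
        exact loc_an hfact hD hp0 hpp hc hS hR j hp hSq (hJJ k σ hσ hm)
      -- the class of a form at a bad point
      have hxne : ∀ j, x j ≠ 0 := fun j h0 => (hC j).xb (by rw [h0, map_zero])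
      have hdeg3 : ∀ {k : ℕ}, 6 ≤ n₀ → k = n₀ - 6 → (3 : ℤ) - n₀ + k = -3 := by
        intro k h6 hk
        omega
      have hGT : ∀ (τ : MvPolynomial (Fin 3) ℂ), (τ = 0 ∨ 6 ≤ n₀ ∧ τ.IsHomogeneous (n₀ - 6)) →
          ∀ j, (∀ i, o j = some (Sum.inl i) → JJ (L i) (n₀ - 6) τ) →
          (∀ i, o j = some (Sum.inr i) → LogI d ((E i).tay f) ((E i).tay F) ((E i).tay τ)) →
          (o j = none → Mu (p j) (μ j - 4) τ) → GT p Sec j (y j) (z j) (-3) (fr τ) := by
        intro τ hτ j a1 a2 a3
        rcases hτ with hτ | ⟨h6, hτ⟩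
        · rw [hτ, map_zero]
          exact gt_zero hpp j _ _ _
        · rcases hoj : o j with _ | (i | i)
          · have a4 : AnK p Sec j (3 - n₀ + ((n₀ - 6 : ℕ) : ℤ)) (fr τ) :=
              hAord j hoj _ τ hτ (a3 hoj)
            rw [hdeg3 h6 rfl] at a4
            exact a4.gt _ _
          · have a4 : AnK p Sec j (3 - n₀ + ((n₀ - 6 : ℕ) : ℤ)) (fr τ) :=
              loc_an hfact hD hp0 hpp hc hS hR j (ho1 j i hoj) (hL' i) (a1 i hoj)
            rw [hdeg3 h6 rfl] at a4
            exact a4.gt _ _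
          · have a4 := hlog i _ (a2 i hoj)
            unfold Frame.tay at a4
            rw [ho2 j i hoj] at a4
            have a5 := gt_of_logI hfact hD hp0 hpp hS (hDual j i hoj) a4
            have a6 := fr_eq_th (hDual j i hoj) hτ
            have a7 : ((n₀ : ℤ) - 6) = ((n₀ - 6 : ℕ) : ℤ) := by omega
            rw [a7, zpow_natCast, ← a6] at a5
            exact a5
      -- the values of a form at the points
      have hJJ0 : ∀ (τ : MvPolynomial (Fin 3) ℂ), (τ = 0 ∨ 6 ≤ n₀ ∧ τ.IsHomogeneous (n₀ - 6)) →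
          ∀ i, (∀ m', (L i).a * m' 0 + (L i).b * m' 1 + 2 * ((L i).a + (L i).b) < (L i).N →
            coeff m' ((L i).tay τ) = 0) → JJ (L i) (n₀ - 6) τ := by
        intro τ hτ i h0
        refine ⟨?_, fun m' hm' => ?_⟩
        · rcases hτ with hτ | hτ
          · rw [hτ]
            exact isHomogeneous_zero _ _ _
          · exact hτ.2
        · by_contra hlt'
          exact hm' (h0 m' (by omega))
      have hmuF : ∀ j, ∀ i < μ j, homogeneousComponent i (translate (p j) F) = 0 := by
        intro j i hi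
        rw [hF, OB.translate_C_mul, homogeneousComponent_C_mul, hμ j i hi, mul_zero]
      have hone : ∀ j, o j ≠ none → An p n₀ Sec j 0 1 := by
        intro j hoj0
        refine an_one2 hS hp0 hpp hC j fun β γ => ?_
        have hσ : (y j ^ β * z j ^ γ).IsHomogeneous (β + γ) := by
          have a1 := (hC j).hy.pow β
          have a2 := (hC j).hz.pow γ
          rw [one_mul] at a1 a2
          exact a1.mul a2
        rcases hoj : o j with _ | (i | i)
        · exact absurd hoj hoj0
        · -- a listed semi-quasi-homogeneous point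
          have hpj := ho1 j i hoj
          obtain ⟨τ, ℓ₁, ℓ₂, l₁, l₂, h6, hτ, a1, a2, a3, a4, a5, a6, a7, a8, a9⟩ :=
            interpQ (fun j => (hL j).ind) (fun j => ⟨(hL j).ha, (hL j).hb⟩)
              (fun j => (hL j).hφ)
              (Q := fun τ => (∀ i, LogI d ((E i).tay f) ((E i).tay F) ((E i).tay τ)) ∧
                ∀ q, q ≠ 0 → ¬ IsWHAt f q → OrdPt f q → (∀ j (c : ℂ), q ≠ c • (L j).p) →
                (∀ j (c : ℂ), q ≠ c • (E j).p) →
                ∀ μ, (∀ i < μ, homogeneousComponent i (translate q F) = 0) →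
                  ∀ i < μ - 4, homogeneousComponent i (translate q τ) = 0)
              (fun c => by
                obtain ⟨τ, b1, b2, b3, b4⟩ := hI c fun _ => 0
                refine ⟨τ, b1, b2, fun i => ?_, b4⟩
                have b5 := b3 i
                rwa [sub_zero] at b5) i (β + γ) _ hσ
          have e7 := loc_an hfact hD hp0 hpp hc hS hR j hpj (hL' i) a7
          rcases h6 with h6 | h6
          · left
            rw [h6, mul_zero, zero_sub] at e7
            have e8 := e7.neg
            rw [neg_neg] at e8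
            exact e8.sat a2 (by rw [← hpj]; exact a4)
          · right
            have hτ' : Hk (n₀ - 6) (fr τ) := by
              have b1 := Hk.fr hτ
              have b2 : ((n₀ - 6 : ℕ) : ℤ) = (n₀ : ℤ) - 6 := by omega
              rwa [b2] at b1
            have b3 : eval (p j) ℓ₁ ≠ 0 := by
              rw [← hpj]
              exact a3
            refine ⟨τ, ℓ₁, ℓ₂, l₁, l₂, hτ', a1, a2, b3, by rw [← hpj]; exact a4, by omega,
              fun j' hj' => hGT τ (Or.inr ⟨h6, hτ⟩) j' (fun i' hi' => a6 i' ?_)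
                (fun i' _ => a8 i') (fun hn' => ?_), ?_⟩
            · rintro rfl
              apply hpp j' j hj' 1
              rw [one_smul, ← hpj, ← ho1 j' i' hi']
            · obtain ⟨b4, b5, b6, b7⟩ := ho3 j' hn'
              exact a9 (p j') (hp0 j') b4 b5 b6 b7 (μ j') (hmuF j')
            · have c1 : AnK p Sec j (3 - n₀ + ((β + γ + l₂ : ℕ) : ℤ))
                  (fr (ℓ₁ * τ - ℓ₂ * (y j ^ β * z j ^ γ))) := e7
              have c2 := c1.unit a1 (isHomogeneous_one (Fin 3) ℂ) b3 (κ' := -3)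
                (by push_cast; omega)
              have f1 : fr ℓ₁ ≠ 0 := fr_ne_zero (by rintro rfl; exact b3 (map_zero _))
              have c3 : fr (1 : MvPolynomial (Fin 3) ℂ) * (fr ℓ₁)⁻¹ *
                  fr (ℓ₁ * τ - ℓ₂ * (y j ^ β * z j ^ γ)) =
                  fr τ - fr ℓ₂ * (fr ℓ₁)⁻¹ * fr (y j ^ β * z j ^ γ) := by
                rw [map_one, one_mul, map_sub, map_mul fr ℓ₁, map_mul fr ℓ₂, mul_sub, ← mul_assoc,
                  inv_mul_cancel₀ f1, one_mul]
                ring
              rw [c3] at c2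
              exact c2.gt _ _
        · -- a listed arbitrary point
          right
          have hpj := ho2 j i hoj
          have hDj := hDual j i hoj
          obtain ⟨τ, b1, b2, b3, b4⟩ := hI (fun _ _ => 0)
            (Pi.single i (X 0 ^ β * X 1 ^ γ))
          have hτ' : Hk (n₀ - 6) (fr τ) := by
            rcases b1 with b1 | ⟨h6, b1⟩
            · rw [b1, map_zero]
              exact Hk.zero _
            · have c1 := Hk.fr b1
              have c2 : ((n₀ - 6 : ℕ) : ℤ) = (n₀ : ℤ) - 6 := by omega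
              rwa [c2] at c1
          have hxh : ∀ k : ℕ, (x j ^ k).IsHomogeneous k := by
            intro k
            have := (hC j).hx.pow k
            rwa [one_mul] at this
          have hxe : ∀ k : ℕ, eval (p j) (x j ^ k) ≠ 0 := by
            intro k
            rw [map_pow]
            exact pow_ne_zero _ (hC j).xb
          refine ⟨τ, x j ^ (β + γ + 6), x j ^ n₀, β + γ + 6, n₀, hτ', hxh _, hxh _, hxe _,
            hxe _, by push_cast; ring, fun j' hj' => hGT τ b1 j'
              (fun i' _ => hJJ0 τ b1 i' fun m' hm' => b2 i' m' hm') (fun i' hi' => ?_)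
              (fun hn' => ?_), ?_⟩
          · have c1 := b3 i'
            rw [Pi.single_eq_of_ne, sub_zero] at c1
            · exact c1
            · rintro rfl
              apply hpp j' j hj' 1
              rw [one_smul, ← hpj, ← ho2 j' i' hi']
          · obtain ⟨b4', b5, b6, b7⟩ := ho3 j' hn'
            exact b4 (p j') (hp0 j') b4' b5 b6 b7 (μ j') (hmuF j')
          · have c1 := b3 i
            rw [Pi.single_eq_same] at c1
            have c2 := hlog i _ c1
            unfold Frame.tay at c2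
            rw [hpj] at c2
            have c3 := gt_of_logI hfact hD hp0 hpp hS hDj c2
            have fx : fr (x j) ≠ 0 := fr_ne_zero (hxne j)
            have c4 : fr (x j) ^ ((n₀ : ℤ) - 6) * th (x j) (y j) (z j)
                (Tay (p j) (E i).u (E i).w 0 τ - X 0 ^ β * X 1 ^ γ) =
                fr τ - fr (x j ^ n₀) * (fr (x j ^ (β + γ + 6)))⁻¹ *
                  fr (y j ^ β * z j ^ γ) := by
              have c5 : fr (x j) ^ ((n₀ : ℤ) - 6) * th (x j) (y j) (z j)
                  (Tay (p j) (E i).u (E i).w 0 τ) = fr τ := by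
                rcases b1 with b1 | ⟨h6, b1⟩
                · have c6 : Tay (p j) (E i).u (E i).w 0 τ = 0 := by
                    rw [b1]
                    unfold Tay
                    rw [map_zero]
                  rw [c6, map_zero, mul_zero, b1, map_zero]
                · have c6 := fr_eq_th hDj b1
                  have c7 : ((n₀ : ℤ) - 6) = ((n₀ - 6 : ℕ) : ℤ) := by omega
                  rw [c7, zpow_natCast, ← c6]
              have c6 : th (x j) (y j) (z j) (X 0 ^ β * X 1 ^ γ) =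
                  (fr (y j) * (fr (x j))⁻¹) ^ β * (fr (z j) * (fr (x j))⁻¹) ^ γ := by
                unfold th
                rw [map_mul, map_pow, map_pow, aeval_X, aeval_X]
                rfl
              rw [map_sub, mul_sub, c5, c6, map_mul fr (y j ^ β), map_pow fr (y j),
                map_pow fr (z j), map_pow fr (x j), map_pow fr (x j), mul_pow, mul_pow,
                zpow_sub₀ fx, zpow_natCast]
              congr 1
              have c8 : (fr (x j) ^ (β + γ + 6))⁻¹ =
                  (fr (x j) ^ (6 : ℤ))⁻¹ * ((fr (x j))⁻¹ ^ β * (fr (x j))⁻¹ ^ γ) := by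
                rw [inv_pow, inv_pow, pow_add, pow_add, mul_inv, mul_inv]
                have c9 : fr (x j) ^ (6 : ℤ) = fr (x j) ^ 6 := by
                  exact_mod_cast zpow_natCast (fr (x j)) 6
                rw [c9]
                ring
              rw [c8]
              ring
            rw [c4] at c3
            exact c3
      by_cases hord : ∃ j₀, o j₀ = none
      · obtain ⟨j₀, hj₀⟩ := hord
        refine hc (keyB hD (squarefree_prod hfact) hn hp0 hpp hS hμ h2 hlt j₀
          (sq_init' hfact (ho3 j₀ hj₀).2.1 (hμ _) (hμ' _)) (fun j => ?_) hNS)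
        by_cases hoj : o j = none
        · exact loc_sol' hfact hD hn hp0 hpp hc hS hR j (ho3 j hoj).2.1 (hμ j) (hμ' j)
        · exact ls_of_an hn (hone j hoj) _
      · push Not at hord
        obtain ⟨a, -, ha⟩ := glob_an hS hp0 (isHomogeneous_one _ _) fun j => hone j (hord j)
        refine hc (c_eq_zero hD hp0 hS hNS (β := a) fun q G hq hG => ?_)
        have h1 := ha q G hq hG
        rwa [map_one, one_mul] at h1
    have := OB.root_of_key hf hd hh key b hform
    rw [← this]
    congr 1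
    push_cast
    ring

/-- The strong monodromy conjecture at `-3/d` for these forms. -/
theorem smc_singG {f : MvPolynomial (Fin 3) ℂ} (hf : f ≠ 0) {d : ℕ} (hd : 0 < d)
    (hh : f.IsHomogeneous d) (h : SingG d f)
    (hp : IsPole (Zmot f) (-(3 / d)) ∨ IsPole (Zmot0 f) (-(3 / d))) {b : Polynomial ℂ}
    (hb : IsBernsteinSato f b) : b.eval (((-(3 / d) : ℚ)) : ℂ) = 0 := by
  by_cases hNS : NS f
  · exact root_of_singG hf hd hh hNS h hb
  · have h0 : coeff 0 f = 0 := by
      rw [← MvPolynomial.notMem_support_iff]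
      intro h
      have := hh (mem_support_iff.1 h)
      simp at this
      omega
    have hs : (-(3 / d) : ℚ) < 0 := by
      have : (0 : ℚ) < d := by exact_mod_cast hd
      have : (0 : ℚ) < 3 / d := by positivity
      linarith
    obtain ⟨h1, h2⟩ := stable_of_not_NS hf hd hh hNS
    rcases hp with hp | hp
    · exact SmcGlob.of_stableGlob h2 hf _ hs hp b hb
    · exact SmcLoc.of_stableLoc h1 hf h0 _ hs hp b (OB.form_of_bs hb)

/-- The condition without listed arbitrary points. -/
theorem SqhOrd.singG {f : MvPolynomial (Fin 3) ℂ} (h : SqhOrd f) (d : ℕ) : SingG d f := by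
  obtain ⟨F, k, n, r, L, hsq, hFf, hfF, hFn, hL, hI, hpts⟩ := h
  refine ⟨F, k, n, r, 0, L, fun j => j.elim0, hsq, hFf, hfF, hFn, hL, fun j => j.elim0,
    fun c e => ?_, fun q hq h0 => ?_⟩
  · obtain ⟨τ, h1, h2, h3⟩ := hI c
    exact ⟨τ, h1, h2, fun j => j.elim0, fun q a1 a2 a3 a4 _ => h3 q a1 a2 a3 a4⟩
  · rcases hpts q hq h0 with h3 | h3 | h3
    · exact Or.inl h3
    · exact Or.inr (Or.inl h3)
    · exact Or.inr (Or.inr (Or.inl h3))

/-- Pointwise quasi-homogeneous forms satisfy the condition. -/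
theorem singG_of_allPt {f : MvPolynomial (Fin 3) ℂ} (hf : f ≠ 0) {d : ℕ} (hd : 0 < d)
    (hh : f.IsHomogeneous d) (h : AllPt f) : SingG d f :=
  SqhOrd.singG (sqhOrd_of_allPt hf hd hh h) d

end MPb07157
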