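import Pool.Agent.Lib.MP_b07157_agO3.SDefs

/-!
# Curves with arbitrary singular points: definitions
-/

noncomputable section

namespace MPb07157

open MvPolynomial

/-- The local function `φ` has, up to terms of arbitrarily high order, the form
`div δ - δ (log F) + (3 / d) δ (log f)` for logarithmic vector fields `δ = A ∂_y + B ∂_z`,
`δ F = h F`, `δ f = η f`. -/
def LogI (d : ℕ) (f F φ : MvPolynomial (Fin 2) ℂ) : Prop :=
  ∀ R : ℕ, ∃ A B h η : MvPolynomial (Fin 2) ℂ,
    A * pderiv 0 F + B * pderiv 1 F = h * F ∧ A * pderiv 0 f + B * pderiv 1 f = η * f ∧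
    ∀ m : Fin 2 →₀ ℕ, m 0 + m 1 < R →
      coeff m (pderiv 0 A + pderiv 1 B - h + C (3 / d : ℂ) * η) = coeff m φ

/-- Linear coordinates at a point. -/
structure Frame where
  /-- The point. -/
  p : Fin 3 → ℂ
  /-- The direction of the first coordinate. -/
  u : Fin 3 → ℂ
  /-- The direction of the second coordinate. -/
  w : Fin 3 → ℂ

/-- The local expression `F (p + y u + z w)` of a form. -/
abbrev Frame.tay (E : Frame) (F : MvPolynomial (Fin 3) ℂ) : MvPolynomial (Fin 2) ℂ :=
  Tay E.p E.u E.w 0 F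

/-- The forms `τ` of degree `n - 6`, whose multiplicity at every ordinary multiple point which is
not quasi-homogeneous and not listed is at least that of `F` minus 4, have arbitrary parts of weight
less than `N - 2 a - 2 b` at the points `L j` and arbitrary classes modulo `LogI` at the
points `E j`. -/
def IndepG {r s : ℕ} (d : ℕ) (f F : MvPolynomial (Fin 3) ℂ) (L : Fin r → Loc) (E : Fin s → Frame)
    (n : ℕ) : Prop :=
  ∀ (c : Fin r → (Fin 2 →₀ ℕ) → ℂ) (e : Fin s → MvPolynomial (Fin 2) ℂ),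
    ∃ τ : MvPolynomial (Fin 3) ℂ, (τ = 0 ∨ 6 ≤ n ∧ τ.IsHomogeneous (n - 6)) ∧
    (∀ j m, (L j).a * m 0 + (L j).b * m 1 + 2 * ((L j).a + (L j).b) < (L j).N →
      coeff m ((L j).tay τ) = c j m) ∧
    (∀ j, LogI d ((E j).tay f) ((E j).tay F) ((E j).tay τ - e j)) ∧
    ∀ q, q ≠ 0 → ¬ IsWHAt f q → OrdPt f q → (∀ j (c : ℂ), q ≠ c • (L j).p) →
      (∀ j (c : ℂ), q ≠ c • (E j).p) →
      ∀ μ, (∀ i < μ, homogeneousComponent i (translate q F) = 0) →
        ∀ i < μ - 4, homogeneousComponent i (translate q τ) = 0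

/-- Every point of the curve is quasi-homogeneous, or an ordinary multiple point of the reduced
curve, or one of the points `L j`, at which the reduced curve (with equation `F`, of degree `n`) is
semi-quasi-homogeneous, or one of the arbitrary points `E j`, and the conditions of `IndepG` are
independent. The form `f` has degree `d`. -/
def SingG (d : ℕ) (f : MvPolynomial (Fin 3) ℂ) : Prop :=
  ∃ (F : MvPolynomial (Fin 3) ℂ) (k n r s : ℕ) (L : Fin r → Loc) (E : Fin s → Frame),
    Squarefree F ∧ F ∣ f ∧ f ∣ F ^ k ∧ F.IsHomogeneous n ∧ (∀ j, (L j).Sqh F) ∧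
    (∀ j, LinearIndependent ℂ ![(E j).p, (E j).u, (E j).w]) ∧ IndepG d f F L E n ∧
    ∀ q, q ≠ 0 → eval q f = 0 →
      IsWHAt f q ∨ OrdPt f q ∨ (∃ (j : Fin r) (c : ℂ), q = c • (L j).p) ∨
        ∃ (j : Fin s) (c : ℂ), q = c • (E j).p

end MPb07157
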