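import Pool.Agent.Lib.MP_b07157_agO4.GDefs
import Pool.Agent.Lib.MP_b07157_agO3.G1
import Pool.Agent.Lib.MP_b07157_agB2.TrK

/-!
# Arbitrary singular points: local classes

`Sol f v n b c t Sec` is a global solution (`MPb07157.OK.Sol`): at every point `q` off the lines of
the bad points `b j` there are sections `G` with `Sec q G`; the differences of two sections are
regular. They define local cohomology classes `γ_j` at the points `b j`.
-/

noncomputable section

namespace MPb07157.O4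

open MvPolynomial MPb07157Q
open MPb07157.OK

/-- The rational function `ψ` kills the class `γ_j`: near `b j` the functions `ψ G` differ from one
function `s`, homogeneous of degree `κ`, by regular functions. -/
def AnK {r : ℕ} (b : Fin r → Fin 3 → ℂ) (Sec : (Fin 3 → ℂ) → Kf → Prop) (j : Fin r)
    (κ : ℤ) (ψ : Kf) : Prop :=
  ∃ (e : MvPolynomial (Fin 3) ℂ) (s : Kf), (∃ l, e.IsHomogeneous l) ∧ eval (b j) e ≠ 0 ∧
    (∀ i, i ≠ j → eval (b i) e = 0) ∧ Hk κ s ∧
    ∀ q G, eval q e ≠ 0 → OffB b q → Sec q G → RegAt q (ψ * G - s)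

/-- The class `ψ γ_j`, of degree `κ`, is the class of a global function `T` which is regular where
`y z ≠ 0`. Here `y`, `z` are linear forms whose common zeros are the multiples of `b j`. -/
def GT {r : ℕ} (b : Fin r → Fin 3 → ℂ) (Sec : (Fin 3 → ℂ) → Kf → Prop) (j : Fin r)
    (y z : MvPolynomial (Fin 3) ℂ) (κ : ℤ) (ψ : Kf) : Prop :=
  ∃ (e : MvPolynomial (Fin 3) ℂ) (s T : Kf), (∃ l, e.IsHomogeneous l) ∧ eval (b j) e ≠ 0 ∧
    (∀ i, i ≠ j → eval (b i) e = 0) ∧ Hk κ s ∧ Hk κ T ∧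
    (∀ q, eval q y ≠ 0 → eval q z ≠ 0 → RegAt q T) ∧
    (∀ q G, eval q z ≠ 0 → eval q e ≠ 0 → OffB b q → Sec q G → RegAt q (ψ * G - s)) ∧
    ∀ q G, eval q y ≠ 0 → eval q e ≠ 0 → OffB b q → Sec q G → RegAt q (ψ * G - s - T)

/-- The local function `φ` has the form `div δ - δ (log F) + (3 / d) δ (log f)` for a vector field
`δ = (A ∂_y + B ∂_z) / s`, `s 0 ≠ 0`, which is logarithmic: `δ F = (h / s) F`,
`δ f = (η / s) f`. -/
def LogS (d : ℕ) (f F φ : MvPolynomial (Fin 2) ℂ) : Prop :=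
  ∃ A B h η s : MvPolynomial (Fin 2) ℂ, coeff 0 s ≠ 0 ∧
    A * pderiv 0 F + B * pderiv 1 F = h * F ∧ A * pderiv 0 f + B * pderiv 1 f = η * f ∧
    s ^ 2 * φ = s * (pderiv 0 A + pderiv 1 B - h + C (3 / d : ℂ) * η) -
      (A * pderiv 0 s + B * pderiv 1 s)

/-- The determinant of three vectors. -/
def det3 {R : Type} [CommRing R] (A B D : Fin 3 → R) : R :=
  A 0 * (B 1 * D 2 - B 2 * D 1) + A 1 * (B 2 * D 0 - B 0 * D 2) + A 2 * (B 0 * D 1 - B 1 * D 0)

/-- The operator `L G = 3 η G - d (δ G + h G)` of a vector field `δ` with `δ P = h P`,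
`δ f = η f`. -/
def Lg (d : ℕ) (δ : Fin 3 → MvPolynomial (Fin 3) ℂ) (h η : MvPolynomial (Fin 3) ℂ) (G : Kf) : Kf :=
  3 * fr η * G - d * (∑ k, fr (δ k) * DK k G + fr h * G)

end MPb07157.O4
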