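import Pool.Agent.Lib.MP_b07157_agO4.GD

/-!
# Gluing
-/

noncomputable section

namespace MPb07157.O4

open MvPolynomial MPb07157Q
open MPb07157.OK
open MPb07157.O3 (An)

variable {r n : ℕ} {f : MvPolynomial (Fin 3) ℂ} {v : Fin 3 → MvPolynomial (Fin 3) ℂ}
  {b : Fin r → Fin 3 → ℂ} {c : ℂ} {t : Fin 3 → Kf} {Sec : (Fin 3 → ℂ) → Kf → Prop}

/-- Local sections `S q H` off the bad points and local functions at the bad points, with regular
differences, differ from one function by regular functions. -/
theorem glue {S : (Fin 3 → ℂ) → Kf → Prop} {κ : ℤ}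
    (hu : ∀ q H H', OffB b q → S q H → S q H' → RegAt q (H - H'))
    {ι : Type} [Fintype ι] (h : ι → MvPolynomial (Fin 3) ℂ) (H : ι → Kf)
    (hh : ∀ i, ∃ l, (h i).IsHomogeneous l) (hH : ∀ i, Hk κ (H i))
    (hS : ∀ i q, eval q (h i) ≠ 0 → OffB b q ∧ S q (H i))
    (hcov : ∀ q, OffB b q → ∃ i, eval q (h i) ≠ 0)
    (e : Fin r → MvPolynomial (Fin 3) ℂ) (s : Fin r → Kf) (he : ∀ j, ∃ l, (e j).IsHomogeneous l)
    (e0 : ∀ j, eval (b j) (e j) ≠ 0) (ei : ∀ j i, i ≠ j → eval (b i) (e j) = 0)
    (hs : ∀ j, Hk κ (s j))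
    (hr : ∀ j q H, eval q (e j) ≠ 0 → OffB b q → S q H → RegAt q (H - s j)) :
    ∃ A, Hk κ A ∧ (∀ q H, OffB b q → S q H → RegAt q (H - A)) ∧
      ∀ j q, eval q (e j) ≠ 0 → RegAt q (A - s j) := by
  classical
  obtain ⟨A, hA, hA'⟩ := cousin (κ := κ) (ι := Fin r ⊕ ι) (Sum.elim e h)
    (by
      rintro (j | i)
      · exact he j
      · exact hh i)
    (Sum.elim s H)
    (by
      rintro (j | i)
      · exact hs j
      · exact hH i)
    (by
      intro q hq
      by_cases hoffq : OffB b q
      · obtain ⟨i, hi⟩ := hcov q hoffq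
        exact ⟨Sum.inr i, hi⟩
      · have h1 : ∃ j, ∃ c' : ℂ, q = c' • b j := by
          by_contra hcon
          push Not at hcon
          exact hoffq ⟨hq, hcon⟩
        obtain ⟨j, c', rfl⟩ := h1
        refine ⟨Sum.inl j, ?_⟩
        obtain ⟨k, hk⟩ := he j
        change eval (c' • b j) (e j) ≠ 0
        rw [GlobAux.eval_smul hk]
        refine mul_ne_zero (pow_ne_zero _ ?_) (e0 j)
        rintro rfl
        exact hq (zero_smul _ _))
    (by
      rintro (j | i) (j' | i') q h1 h2
      · change RegAt q (s j - s j')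
        by_cases hjj : j = j'
        · rw [hjj, sub_self]
          exact RegAt.zero q
        · obtain ⟨k, hk⟩ := he j
          obtain ⟨k', hk'⟩ := he j'
          have hoffq : OffB b q := GlobAux.offB_of_two hk hk' hjj (ei j) (ei j') h1 h2
          obtain ⟨i, hi⟩ := hcov q hoffq
          obtain ⟨-, hi'⟩ := hS i q hi
          have h3 := (hr j' q (H i) h2 hoffq hi').sub (hr j q (H i) h1 hoffq hi')
          have e1 : s j - s j' = H i - s j' - (H i - s j) := by ring
          rw [e1]
          exact h3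
      · change RegAt q (s j - H i')
        obtain ⟨h3, h4⟩ := hS i' q h2
        have h5 := (hr j q (H i') h1 h3 h4).neg
        rwa [neg_sub] at h5
      · change RegAt q (H i - s j')
        obtain ⟨h3, h4⟩ := hS i q h1
        exact hr j' q (H i) h2 h3 h4
      · change RegAt q (H i - H i')
        obtain ⟨h3, h4⟩ := hS i q h1
        exact hu q _ _ h3 h4 (hS i' q h2).2)
  refine ⟨A, hA, fun q H' hq hH' => ?_, fun j q hq => hA' (Sum.inl j) q hq⟩
  obtain ⟨i, hi⟩ := hcov q hq
  obtain ⟨-, h4⟩ := hS i q hi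
  have h1 : RegAt q (A - H i) := hA' (Sum.inr i) q hi
  have h2 := (hu q _ _ hq hH' h4).sub h1
  have e1 : H' - A = H' - H i - (A - H i) := by ring
  rw [e1]
  exact h2

open Loc2Aux in
/-- (G) If the classes of `τ` at all other bad points come from global functions, so does the class
at `b j`. -/
theorem gt_glob (hS : Sol f v n b c t Sec) (hb : ∀ j, b j ≠ 0)
    (hbb : ∀ i j, i ≠ j → ∀ c : ℂ, b i ≠ c • b j) {x y z : Fin r → MvPolynomial (Fin 3) ℂ}
    (hC : ∀ i, Crd (b i) (x i) (y i) (z i)) (j : Fin r) {τ : MvPolynomial (Fin 3) ℂ}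
    (hτ : Hk (n - 6) (fr τ)) (h : ∀ i, i ≠ j → GT b Sec i (y i) (z i) (-3) (fr τ))
    (hpow : ∃ N, An b n Sec j N (y j ^ N) ∧ An b n Sec j N (z j ^ N)) :
    GT b Sec j (y j) (z j) (-3) (fr τ) := by
  classical
  obtain ⟨N, hNy, hNz⟩ := hpow
  -- the functions `T i`
  have h' : ∀ i, ∃ (e : MvPolynomial (Fin 3) ℂ) (s T : Kf), (∃ l, e.IsHomogeneous l) ∧
      eval (b i) e ≠ 0 ∧ (∀ k, k ≠ i → eval (b k) e = 0) ∧ Hk (-3) s ∧ Hk (-3) T ∧
      (∀ q, eval q (y i) ≠ 0 → eval q (z i) ≠ 0 → RegAt q T) ∧ (i = j → T = 0) ∧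
      (i ≠ j → ∀ q G, eval q (z i) ≠ 0 → eval q e ≠ 0 → OffB b q → Sec q G →
        RegAt q (fr τ * G - s)) ∧
      (i ≠ j → ∀ q G, eval q (y i) ≠ 0 → eval q e ≠ 0 → OffB b q → Sec q G →
        RegAt q (fr τ * G - s - T)) := by
    intro i
    by_cases hi : i = j
    · obtain ⟨l, e, he, e0, ei⟩ := exists_sep hbb i
      exact ⟨e, 0, 0, ⟨l, he⟩, e0, ei, Hk.zero _, Hk.zero _, fun q _ _ => RegAt.zero q,
        fun _ => rfl, fun h' => absurd hi h', fun h' => absurd hi h'⟩
    · obtain ⟨e, s, T, he, e0, ei, hs, hT, hr, h1, h2⟩ := h i hi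
      exact ⟨e, s, T, he, e0, ei, hs, hT, hr, fun h' => absurd h' hi, fun _ => h1, fun _ => h2⟩
  choose e s T he e0 ei hs hT hTr hTj h1 h2 using h'
  -- the charts
  let W : Fin r → Bool → MvPolynomial (Fin 3) ℂ := fun i β =>
    if i = j then 1 else if β then y i else z i
  let U : Fin r → Bool → Kf := fun i β => if β then T i else 0
  have hWhom : ∀ i β, ∃ l, (W i β).IsHomogeneous l := by
    intro i β
    by_cases hi : i = j
    · refine ⟨0, ?_⟩
      simp only [W, if_pos hi]
      exact isHomogeneous_one _ _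
    · cases β
      · refine ⟨1, ?_⟩
        simp only [W, if_neg hi]
        exact (hC i).hz
      · refine ⟨1, ?_⟩
        simp only [W, if_neg hi, if_true]
        exact (hC i).hy
  have hUk : ∀ i β, Hk (-3) (U i β) := by
    intro i β
    cases β
    · exact Hk.zero _
    · exact hT i
  have hUU : ∀ q i β β', eval q (W i β) ≠ 0 → eval q (W i β') ≠ 0 →
      RegAt q (U i β - U i β') := by
    intro q i β β' hq hq'
    by_cases hi : i = j
    · have : T i = 0 := hTj i hi
      cases β <;> cases β' <;> simp only [U, this, if_true, Bool.false_eq_true, if_false, sub_self]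
        <;> exact RegAt.zero q
    · cases β <;> cases β'
      · rw [sub_self]
        exact RegAt.zero q
      · simp only [W, if_neg hi, Bool.false_eq_true, if_false, if_true] at hq hq'
        have a1 := (hTr i q hq' hq).neg
        simp only [U, Bool.false_eq_true, if_false, if_true, zero_sub]
        exact a1
      · simp only [W, if_neg hi, Bool.false_eq_true, if_false, if_true] at hq hq'
        have a1 := hTr i q hq hq'
        simp only [U, Bool.false_eq_true, if_false, if_true, sub_zero]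
        exact a1
      · rw [sub_self]
        exact RegAt.zero q
  have hchart : ∀ q, OffB b q → ∃ β : Fin r → Bool, ∀ i, eval q (W i (β i)) ≠ 0 := by
    intro q hq
    have a1 : ∀ i, ∃ β, eval q (W i β) ≠ 0 := by
      intro i
      by_cases hi : i = j
      · refine ⟨true, ?_⟩
        simp only [W, if_pos hi, map_one]
        exact one_ne_zero
      · by_cases hz : eval q (z i) = 0
        · refine ⟨true, ?_⟩
          simp only [W, if_neg hi, if_true]
          intro hy
          obtain ⟨c', hc'⟩ := (hC i).yz q hy hz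
          exact hq.2 i c' hc'
        · refine ⟨false, ?_⟩
          simp only [W, if_neg hi, Bool.false_eq_true, if_false]
          exact hz
    choose β hβ using a1
    exact ⟨β, hβ⟩
  have hchartb : ∀ k, ∃ β : Fin r → Bool, ∀ i, i ≠ k → eval (b k) (W i (β i)) ≠ 0 := by
    intro k
    have a1 : ∀ i, ∃ β, i ≠ k → eval (b k) (W i β) ≠ 0 := by
      intro i
      by_cases hik : i = k
      · exact ⟨true, fun h' => absurd hik h'⟩
      by_cases hi : i = j
      · refine ⟨true, fun _ => ?_⟩
        simp only [W, if_pos hi, map_one]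
        exact one_ne_zero
      · by_cases hz : eval (b k) (z i) = 0
        · refine ⟨true, fun _ => ?_⟩
          simp only [W, if_neg hi, if_true]
          intro hy
          obtain ⟨c', hc'⟩ := (hC i).yz (b k) hy hz
          exact hbb k i (Ne.symm hik) c' hc'
        · refine ⟨false, fun _ => ?_⟩
          simp only [W, if_neg hi, Bool.false_eq_true, if_false]
          exact hz
    choose β hβ using a1
    exact ⟨β, hβ⟩
  choose βb hβb using hchartb
  -- the modified forms at the bad points
  let E : Fin r → MvPolynomial (Fin 3) ℂ := fun k =>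
    e k * ∏ i ∈ Finset.univ.erase k, W i (βb k i)
  have hE : ∀ k, ∃ l, (E k).IsHomogeneous l := by
    intro k
    obtain ⟨l, hl⟩ := he k
    choose m hm using fun i => hWhom i (βb k i)
    exact ⟨l + ∑ i ∈ Finset.univ.erase k, m i,
      hl.mul (IsHomogeneous.prod _ _ _ fun i _ => hm i)⟩
  have hE0 : ∀ k, eval (b k) (∏ i ∈ Finset.univ.erase k, W i (βb k i)) ≠ 0 := by
    intro k
    rw [map_prod]
    exact Finset.prod_ne_zero_iff.2 fun i hi => hβb k i (Finset.ne_of_mem_erase hi)
  have hEW : ∀ k q, eval q (∏ i ∈ Finset.univ.erase k, W i (βb k i)) ≠ 0 →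
      ∀ i, i ≠ k → eval q (W i (βb k i)) ≠ 0 := by
    intro k q hq i hi
    rw [map_prod] at hq
    exact Finset.prod_ne_zero_iff.1 hq i (Finset.mem_erase.2 ⟨hi, Finset.mem_univ i⟩)
  -- the local functions
  let Ψ : Fin r → Kf := fun k => s k - ∑ i ∈ Finset.univ.erase k, U i (βb k i)
  have hsum : ∀ (k : Fin r) (u : Fin r → Kf), ∑ i, u i = u k + ∑ i ∈ Finset.univ.erase k, u i :=
    fun k u => (Finset.add_sum_erase _ _ (Finset.mem_univ k)).symm
  have hΨ : ∀ k, k ≠ j → ∀ q G (β : Fin r → Bool), eval q (E k) ≠ 0 → OffB b q → Sec q G →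
      (∀ i, eval q (W i (β i)) ≠ 0) → RegAt q (fr τ * G - ∑ i, U i (β i) - Ψ k) := by
    intro k hk q G β hq hoff hG hβ
    rw [map_mul] at hq
    have q1 := left_ne_zero_of_mul hq
    have q2 := hEW k q (right_ne_zero_of_mul hq)
    have a1 : RegAt q (fr τ * G - s k - U k (β k)) := by
      have hβk := hβ k
      rcases hβk' : β k with _ | _
      · rw [hβk'] at hβk
        simp only [W, if_neg hk, Bool.false_eq_true, if_false] at hβk
        have a2 := h1 k hk q G hβk q1 hoff hG
        simp only [U, Bool.false_eq_true, if_false, sub_zero]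
        exact a2
      · rw [hβk'] at hβk
        simp only [W, if_neg hk, if_true] at hβk
        have a2 := h2 k hk q G hβk q1 hoff hG
        simp only [U, if_true]
        exact a2
    have a2 : RegAt q (∑ i ∈ Finset.univ.erase k, (U i (βb k i) - U i (β i))) :=
      RegAt.sum fun i hi => hUU q i _ _ (q2 i (Finset.ne_of_mem_erase hi)) (hβ i)
    have a3 : fr τ * G - ∑ i, U i (β i) - Ψ k = (fr τ * G - s k - U k (β k)) +
        ∑ i ∈ Finset.univ.erase k, (U i (βb k i) - U i (β i)) := by
      simp only [Ψ]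
      rw [hsum k, Finset.sum_sub_distrib]
      ring
    rw [a3]
    exact a1.add a2
  -- the two global functions
  have key : ∀ w : MvPolynomial (Fin 3) ℂ, w.IsHomogeneous N → An b n Sec j N w →
      ∃ A, Hk (N - 3) A ∧ (∀ q G (β : Fin r → Bool), OffB b q → Sec q G →
        (∀ i, eval q (W i (β i)) ≠ 0) → RegAt q (fr w * (fr τ * G - ∑ i, U i (β i)) - A)) ∧
        ∀ k, k ≠ j → ∀ q, eval q (E k) ≠ 0 → RegAt q (A - fr w * Ψ k) := by
    intro w hw hAn
    obtain ⟨e', s', he', e0', ei', hs', hr'⟩ := hAn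
    obtain ⟨ι, hι, e₀, h₀, he₀, hh₀, hhb, hcov⟩ := exists_cover hb
    have hg : ∀ i, ∃ g, Hk (3 - n) g ∧ ∀ q, eval q (h₀ i) ≠ 0 → Sec q g := by
      intro i
      by_cases hi : h₀ i = 0
      · exact ⟨0, Hk.zero _, fun q hq => absurd (by rw [hi, map_zero]) hq⟩
      · exact hS.ex e₀ (h₀ i) he₀ (hh₀ i) hi (hhb i)
    choose g hg1 hg2 using hg
    have hkw : Hk N (fr w) := Hk.fr hw
    have hksum : ∀ (I : Finset (Fin r)) (β : Fin r → Bool), Hk (-3) (∑ i ∈ I, U i (β i)) :=
      fun I β => CousAux.hk_sum fun i _ => hUk i (β i)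
    have hd1 : (N : ℤ) + -3 = N - 3 := by ring
    -- the local functions at the bad points
    let E' : Fin r → MvPolynomial (Fin 3) ℂ := fun k =>
      (if k = j then e' else e k) * ∏ i ∈ Finset.univ.erase k, W i (βb k i)
    let s'' : Fin r → Kf := fun k =>
      if k = j then fr τ * s' - fr w * ∑ i ∈ Finset.univ.erase k, U i (βb k i)
      else fr w * Ψ k
    obtain ⟨A, hA, hA1, hA2⟩ := glue (b := b) (κ := N - 3)
      (S := fun q H => ∃ (G : Kf) (β : Fin r → Bool), Sec q G ∧
        (∀ i, eval q (W i (β i)) ≠ 0) ∧ H = fr w * (fr τ * G - ∑ i, U i (β i)))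
      (by
        rintro q H H' hoff ⟨G, β, hG, hβ, rfl⟩ ⟨G', β', hG', hβ', rfl⟩
        have a1 : RegAt q (∑ i, (U i (β' i) - U i (β i))) :=
          RegAt.sum fun i _ => hUU q i _ _ (hβ' i) (hβ i)
        have a2 := (RegAt.fr q w).mul
          (((RegAt.fr q τ).mul (hS.uniq q G G' hG hG')).add a1)
        have a3 : fr w * (fr τ * G - ∑ i, U i (β i)) - fr w * (fr τ * G' - ∑ i, U i (β' i)) =
            fr w * (fr τ * (G - G') + ∑ i, (U i (β' i) - U i (β i))) := by
          rw [Finset.sum_sub_distrib]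
          ring
        rw [a3]
        exact a2)
      (ι := ι × (Fin r → Bool)) (fun i => h₀ i.1 * ∏ k, W k (i.2 k))
      (fun i => fr w * (fr τ * g i.1 - ∑ k, U k (i.2 k)))
      (by
        rintro ⟨i, β⟩
        choose m hm using fun k => hWhom k (β k)
        exact ⟨e₀ + ∑ k, m k, (hh₀ i).mul (IsHomogeneous.prod _ _ _ fun k _ => hm k)⟩)
      (by
        rintro ⟨i, β⟩
        have a1 := (hτ.mul (hg1 i))
        have a2 : (n : ℤ) - 6 + (3 - n) = -3 := by ring
        rw [a2] at a1
        have a3 := hkw.mul (a1.sub (hksum Finset.univ β))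
        rwa [hd1] at a3)
      (by
        rintro ⟨i, β⟩ q hq
        rw [map_mul, map_prod] at hq
        refine ⟨GlobAux.offB_of_ne he₀ (hh₀ i) (hhb i) (left_ne_zero_of_mul hq), g i, β,
          hg2 i q (left_ne_zero_of_mul hq), fun k => ?_, rfl⟩
        exact Finset.prod_ne_zero_iff.1 (right_ne_zero_of_mul hq) k (Finset.mem_univ k))
      (by
        intro q hq
        obtain ⟨i, hi⟩ := hcov q hq
        obtain ⟨β, hβ⟩ := hchart q hq
        refine ⟨⟨i, β⟩, ?_⟩
        rw [map_mul, map_prod]
        exact mul_ne_zero hi (Finset.prod_ne_zero_iff.2 fun k _ => hβ k))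
      E' s''
      (by
        intro k
        choose m hm using fun i => hWhom i (βb k i)
        have a1 : ∃ l, (if k = j then e' else e k).IsHomogeneous l := by
          by_cases hk : k = j
          · rw [if_pos hk]
            exact he'
          · rw [if_neg hk]
            exact he k
        obtain ⟨l, hl⟩ := a1
        exact ⟨l + ∑ i ∈ Finset.univ.erase k, m i,
          hl.mul (IsHomogeneous.prod _ _ _ fun i _ => hm i)⟩)
      (by
        intro k
        change eval (b k) ((if k = j then e' else e k) *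
          ∏ i ∈ Finset.univ.erase k, W i (βb k i)) ≠ 0
        rw [map_mul]
        refine mul_ne_zero ?_ (hE0 k)
        by_cases hk : k = j
        · rw [if_pos hk, hk]
          exact e0'
        · rw [if_neg hk]
          exact e0 k)
      (by
        intro k i hik
        change eval (b i) ((if k = j then e' else e k) *
          ∏ i ∈ Finset.univ.erase k, W i (βb k i)) = 0
        rw [map_mul]
        by_cases hk : k = j
        · rw [if_pos hk, ei' i (by rw [← hk]; exact hik), zero_mul]
        · rw [if_neg hk, ei k i hik, zero_mul])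
      (by
        intro k
        by_cases hk : k = j
        · simp only [s'', if_pos hk]
          have a1 := hτ.mul hs'
          have a2 : (n : ℤ) - 6 + (3 - n + N) = N - 3 := by ring
          rw [a2] at a1
          have a3 := hkw.mul (hksum (Finset.univ.erase k) (βb k))
          rw [hd1] at a3
          exact a1.sub a3
        · simp only [s'', if_neg hk, Ψ]
          have a3 := hkw.mul ((hs k).sub (hksum (Finset.univ.erase k) (βb k)))
          rwa [hd1] at a3)
      (by
        rintro k q H hq hoff ⟨G, β, hG, hβ, rfl⟩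
        change eval q ((if k = j then e' else e k) *
          ∏ i ∈ Finset.univ.erase k, W i (βb k i)) ≠ 0 at hq
        by_cases hk : k = j
        · rw [if_pos hk, map_mul] at hq
          have q1 := left_ne_zero_of_mul hq
          have q2 := hEW k q (right_ne_zero_of_mul hq)
          have a1 := (RegAt.fr q τ).mul (hr' q G q1 hoff hG)
          have a2 : RegAt q (∑ i ∈ Finset.univ.erase k, (U i (βb k i) - U i (β i))) :=
            RegAt.sum fun i hi => hUU q i _ _ (q2 i (Finset.ne_of_mem_erase hi)) (hβ i)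
          have a4 : U k (β k) = 0 := by
            have := hTj k hk
            rcases β k with _ | _
            · rfl
            · exact this
          have a3 : fr w * (fr τ * G - ∑ i, U i (β i)) - s'' k =
              fr τ * (fr w * G - s') +
              fr w * ∑ i ∈ Finset.univ.erase k, (U i (βb k i) - U i (β i)) := by
            simp only [s'', if_pos hk]
            rw [hsum k, a4, Finset.sum_sub_distrib]
            ring
          rw [a3]
          exact a1.add ((RegAt.fr q w).mul a2)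
        · rw [if_neg hk] at hq
          have a1 := (RegAt.fr q w).mul (hΨ k hk q G β hq hoff hG hβ)
          have a3 : fr w * (fr τ * G - ∑ i, U i (β i)) - s'' k =
              fr w * (fr τ * G - ∑ i, U i (β i) - Ψ k) := by
            simp only [s'', if_neg hk]
            ring
          rw [a3]
          exact a1)
    refine ⟨A, hA, fun q G β hoff hG hβ => hA1 q _ hoff ⟨G, β, hG, hβ, rfl⟩,
      fun k hk q hq => ?_⟩
    have a1 := hA2 k q (by
      change eval q ((if k = j then e' else e k) *
        ∏ i ∈ Finset.univ.erase k, W i (βb k i)) ≠ 0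
      rw [if_neg hk]
      exact hq)
    simp only [s'', if_neg hk] at a1
    exact a1
  have hyh : (y j ^ N).IsHomogeneous N := by
    have := (hC j).hy.pow N
    rwa [one_mul] at this
  have hzh : (z j ^ N).IsHomogeneous N := by
    have := (hC j).hz.pow N
    rwa [one_mul] at this
  obtain ⟨A₁, k1, r1, r1'⟩ := key (y j ^ N) hyh hNy
  obtain ⟨A₂, k2, r2, r2'⟩ := key (z j ^ N) hzh hNz
  have y0 : y j ≠ 0 := ne_zero_of_yz (hC j).hz (hC j).yz
  have z0 : z j ≠ 0 := ne_zero_of_yz (hC j).hy fun q a1 a2 => (hC j).yz q a2 a1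
  have fy := fr_ne_zero (pow_ne_zero N y0)
  have fz := fr_ne_zero (pow_ne_zero N z0)
  -- division by the power
  have hdiv : ∀ {w : MvPolynomial (Fin 3) ℂ} {A g : Kf} {q : Fin 3 → ℂ}, w ≠ 0 →
      eval q w ≠ 0 → RegAt q (fr w * g - A) → RegAt q (g - A * (fr w)⁻¹) := by
    intro w A g q hw hq hr
    refine RegAt.of_mul hq ?_
    have a1 : (g - A * (fr w)⁻¹) * fr w = fr w * g - A := by
      rw [sub_mul, mul_assoc, inv_mul_cancel₀ (fr_ne_zero hw)]
      ring
    rw [a1]
    exact hr
  have hdiv' : ∀ {w : MvPolynomial (Fin 3) ℂ} {A g : Kf} {q : Fin 3 → ℂ}, w ≠ 0 →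
      eval q w ≠ 0 → RegAt q (A - fr w * g) → RegAt q (g - A * (fr w)⁻¹) := by
    intro w A g q hw hq hr
    refine hdiv hw hq ?_
    have a1 := hr.neg
    rwa [neg_sub] at a1
  have hky : Hk (-3) (A₁ * (fr (y j ^ N))⁻¹) := by
    have a1 := k1.mul (Hk.fr hyh).inv
    have a2 : (N : ℤ) - 3 + -(N : ℤ) = -3 := by ring
    rwa [a2] at a1
  have hkz : Hk (-3) (A₂ * (fr (z j ^ N))⁻¹) := by
    have a1 := k2.mul (Hk.fr hzh).inv
    have a2 : (N : ℤ) - 3 + -(N : ℤ) = -3 := by ring
    rwa [a2] at a1
  refine ⟨E j, A₂ * (fr (z j ^ N))⁻¹ + ∑ i, U i (βb j i),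
    A₁ * (fr (y j ^ N))⁻¹ - A₂ * (fr (z j ^ N))⁻¹, hE j, ?_, fun i hi => ?_,
    hkz.add (CousAux.hk_sum fun i _ => hUk i _), hky.sub hkz, fun q q1 q2 => ?_,
    fun q G q1 q2 q3 q4 => ?_, fun q G q1 q2 q3 q4 => ?_⟩
  · rw [map_mul]
    exact mul_ne_zero (e0 j) (hE0 j)
  · rw [map_mul, ei j i hi, zero_mul]
  · -- regularity of `T`
    have q1' : eval q (y j ^ N) ≠ 0 := by
      rw [map_pow]
      exact pow_ne_zero _ q1
    have q2' : eval q (z j ^ N) ≠ 0 := by
      rw [map_pow]
      exact pow_ne_zero _ q2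
    by_cases hoff : OffB b q
    · obtain ⟨G, hG⟩ := exists_sec hb hS hoff
      obtain ⟨β, hβ⟩ := hchart q hoff
      have a1 := hdiv (pow_ne_zero N y0) q1' (r1 q G β hoff hG hβ)
      have a2 := hdiv (pow_ne_zero N z0) q2' (r2 q G β hoff hG hβ)
      have a3 := a2.sub a1
      rwa [sub_sub_sub_cancel_left] at a3
    · have hq0 : q ≠ 0 := by
        rintro rfl
        apply q1
        rw [GlobAux.eval_zero_eq (hC j).hy 0, pow_one, zero_mul]
      have h3 : ∃ k, ∃ c' : ℂ, q = c' • b k := by
        by_contra hcon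
        push Not at hcon
        exact hoff ⟨hq0, hcon⟩
      obtain ⟨k, c', rfl⟩ := h3
      have hc' : c' ≠ 0 := by
        rintro rfl
        exact hq0 (zero_smul _ _)
      have hk : k ≠ j := by
        rintro rfl
        apply q1
        rw [GlobAux.eval_smul (hC k).hy, (hC k).yb, mul_zero]
      have hEk : eval (c' • b k) (E k) ≠ 0 := by
        obtain ⟨l, hl⟩ := hE k
        rw [GlobAux.eval_smul hl]
        refine mul_ne_zero (pow_ne_zero _ hc') ?_
        rw [map_mul]
        exact mul_ne_zero (e0 k) (hE0 k)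
      have a1 := hdiv' (pow_ne_zero N y0) q1' (r1' k hk _ hEk)
      have a2 := hdiv' (pow_ne_zero N z0) q2' (r2' k hk _ hEk)
      have a3 := a2.sub a1
      rwa [sub_sub_sub_cancel_left] at a3
  · have q1' : eval q (z j ^ N) ≠ 0 := by
      rw [map_pow]
      exact pow_ne_zero _ q1
    have hβ : ∀ i, eval q (W i (βb j i)) ≠ 0 := by
      intro i
      by_cases hi : i = j
      · simp only [W, if_pos hi, map_one]
        exact one_ne_zero
      · rw [map_mul] at q2
        exact hEW j q (right_ne_zero_of_mul q2) i hi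
    have a1 := hdiv (pow_ne_zero N z0) q1' (r2 q G (βb j) q3 q4 hβ)
    have a2 : fr τ * G - (A₂ * (fr (z j ^ N))⁻¹ + ∑ i, U i (βb j i)) =
        fr τ * G - ∑ i, U i (βb j i) - A₂ * (fr (z j ^ N))⁻¹ := by ring
    rw [a2]
    exact a1
  · have q1' : eval q (y j ^ N) ≠ 0 := by
      rw [map_pow]
      exact pow_ne_zero _ q1
    have hβ : ∀ i, eval q (W i (βb j i)) ≠ 0 := by
      intro i
      by_cases hi : i = j
      · simp only [W, if_pos hi, map_one]
        exact one_ne_zero
      · rw [map_mul] at q2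
        exact hEW j q (right_ne_zero_of_mul q2) i hi
    have a1 := hdiv (pow_ne_zero N y0) q1' (r1 q G (βb j) q3 q4 hβ)
    have a2 : fr τ * G - (A₂ * (fr (z j ^ N))⁻¹ + ∑ i, U i (βb j i)) -
        (A₁ * (fr (y j ^ N))⁻¹ - A₂ * (fr (z j ^ N))⁻¹) =
        fr τ * G - ∑ i, U i (βb j i) - A₁ * (fr (y j ^ N))⁻¹ := by ring
    rw [a2]
    exact a1

end MPb07157.O4
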