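import Pool.Agent.Lib.MP_b07157_agO4.GD

/-!
# Logarithmic vector fields
-/

noncomputable section

namespace MPb07157.O4

open MvPolynomial MPb07157Q
open MPb07157.OK
open MPb07157.OB (Dat)

variable {r l n d : ℕ} {f P : MvPolynomial (Fin 3) ℂ} {v : Fin 3 → MvPolynomial (Fin 3) ℂ}
  {g : Fin l → MvPolynomial (Fin 3) ℂ} {m : Fin l → ℕ}
  {b : Fin r → Fin 3 → ℂ} {c : ℂ} {t : Fin 3 → Kf} {Sec : (Fin 3 → ℂ) → Kf → Prop} {j : Fin r}

private theorem glb_curl (h : Dat f P v d n) :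
    (fr P * (DK 1 (fr (v 2)) - DK 2 (fr (v 1))) =
      DK 1 (fr P) * fr (v 2) - DK 2 (fr P) * fr (v 1)) ∧
    (fr P * (DK 2 (fr (v 0)) - DK 0 (fr (v 2))) =
      DK 2 (fr P) * fr (v 0) - DK 0 (fr P) * fr (v 2)) ∧
    (fr P * (DK 0 (fr (v 1)) - DK 1 (fr (v 0))) =
      DK 0 (fr P) * fr (v 1) - DK 1 (fr P) * fr (v 0)) := by
  have hf0 : fr f ≠ 0 := fr_ne_zero h.f0
  have r0 := CmpA.relL h 0
  have r1 := CmpA.relL h 1
  have r2 := CmpA.relL h 2
  have d12 := CmpA.relD h 2 1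
  have d21 := CmpA.relD h 1 2
  have d20 := CmpA.relD h 0 2
  have d02 := CmpA.relD h 2 0
  have d01 := CmpA.relD h 1 0
  have d10 := CmpA.relD h 0 1
  rw [DK_comm 1 2] at d12
  rw [DK_comm 2 0] at d20
  rw [DK_comm 0 1] at d01
  generalize DK 2 (DK 1 (fr f)) = f12 at *
  generalize DK 0 (DK 2 (fr f)) = f02 at *
  generalize DK 1 (DK 0 (fr f)) = f01 at *
  generalize DK 0 (fr f) = f0 at *
  generalize DK 1 (fr f) = f1 at *
  generalize DK 2 (fr f) = f2 at *
  generalize DK 0 (fr P) = p0 at *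
  generalize DK 1 (fr P) = p1 at *
  generalize DK 2 (fr P) = p2 at *
  generalize DK 1 (fr (v 2)) = v12 at *
  generalize DK 2 (fr (v 1)) = v21 at *
  generalize DK 2 (fr (v 0)) = v20 at *
  generalize DK 0 (fr (v 2)) = v02 at *
  generalize DK 0 (fr (v 1)) = v01 at *
  generalize DK 1 (fr (v 0)) = v10 at *
  generalize fr (v 0) = w0 at *
  generalize fr (v 1) = w1 at *
  generalize fr (v 2) = w2 at *
  generalize fr f = F at *
  generalize fr P = p at *
  have k0 : F * (v12 - v21) = p1 * f2 - p2 * f1 - f1 * w2 + f2 * w1 := by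
    linear_combination d21 - d12
  have k1 : F * (v20 - v02) = p2 * f0 - p0 * f2 - f2 * w0 + f0 * w2 := by
    linear_combination d02 - d20
  have k2 : F * (v01 - v10) = p0 * f1 - p1 * f0 - f0 * w1 + f1 * w0 := by
    linear_combination d10 - d01
  refine ⟨?_, ?_, ?_⟩
  · apply mul_left_cancel₀ hf0
    linear_combination p * k0 + (p1 + w1) * r2 - (p2 + w2) * r1
  · apply mul_left_cancel₀ hf0
    linear_combination p * k1 + (p2 + w2) * r0 - (p0 + w0) * r2
  · apply mul_left_cancel₀ hf0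
    linear_combination p * k2 + (p0 + w0) * r1 - (p1 + w1) * r0

private theorem glb_euler {k : ℤ} {g : Kf} (h : Hk k g) :
    fr (X 0) * DK 0 g + fr (X 1) * DK 1 g + fr (X 2) * DK 2 g = (k : Kf) * g := by
  have h1 := Hk.euler h
  rw [Fin.sum_univ_three, Algebra.smul_def, map_intCast] at h1
  exact h1

/-- (L2) The determinant with a curl.

Proof. From `P ∂_i f = f v_i` (`h.rel`), differentiating and antisymmetrizing,
`P (∂_i v_j - ∂_j v_i) = ∂_i P v_j - ∂_j P v_i` (compare `MPb07157.OK.curl_phi`, `cu_kills`). So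
`P cuK (G v) = ∇(G P) × v`, and
`P det (E, δ, cuK (G v)) = (E · ∇(G P)) (δ · v) - (E · v) (δ · ∇(G P))`, where
`E · ∇(G P) = 3 G P` (Euler for `G` and `P`), `E · v = d P` (from `E · ∇f = d f`),
`δ · v = P η` (from `δ f = η f`), `δ · ∇(G P) = P δ(G) + h G P`. Divide by `P`. -/
theorem det_cu (h : Dat f P v d n) {δ : Fin 3 → MvPolynomial (Fin 3) ℂ}
    {h' η : MvPolynomial (Fin 3) ℂ} (hP : ∑ k, δ k * pderiv k P = h' * P)
    (hδ : ∑ k, δ k * pderiv k f = η * f) {G : Kf} (hG : Hk (3 - n) G) :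
    det3 (fun k => fr (X k)) (fun k => fr (δ k)) (cuK fun k => G * fr (v k)) =
      fr P * Lg d δ h' η G := by
  have hp0 : fr P ≠ 0 := fr_ne_zero h.P0
  have hf0 : fr f ≠ 0 := fr_ne_zero h.f0
  obtain ⟨K0, K1, K2⟩ := glb_curl h
  have eG := glb_euler hG
  have eP := glb_euler (Hk.fr h.hP)
  have eF := glb_euler (Hk.fr h.hf)
  have r0 := CmpA.relL h 0
  have r1 := CmpA.relL h 1
  have r2 := CmpA.relL h 2
  have hP' := congrArg fr hP
  have hδ' := congrArg fr hδ
  rw [Fin.sum_univ_three, map_add, map_add, map_mul, map_mul, map_mul, map_mul, ← DK_fr, ← DK_fr,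
    ← DK_fr] at hP' hδ'
  push_cast at eG eP eF
  apply mul_left_cancel₀ hp0
  unfold Lg det3
  rw [Fin.sum_univ_three]
  have e0 : cuK (fun k => G * fr (v k)) 0 = G * DK 1 (fr (v 2)) + fr (v 2) * DK 1 G -
      (G * DK 2 (fr (v 1)) + fr (v 1) * DK 2 G) := by
    show DK 1 (G * fr (v 2)) - DK 2 (G * fr (v 1)) = _
    rw [DK_mul, DK_mul]
  have e1 : cuK (fun k => G * fr (v k)) 1 = G * DK 2 (fr (v 0)) + fr (v 0) * DK 2 G -
      (G * DK 0 (fr (v 2)) + fr (v 2) * DK 0 G) := by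
    show DK 2 (G * fr (v 0)) - DK 0 (G * fr (v 2)) = _
    rw [DK_mul, DK_mul]
  have e2 : cuK (fun k => G * fr (v k)) 2 = G * DK 0 (fr (v 1)) + fr (v 1) * DK 0 G -
      (G * DK 1 (fr (v 0)) + fr (v 0) * DK 1 G) := by
    show DK 0 (G * fr (v 1)) - DK 1 (G * fr (v 0)) = _
    rw [DK_mul, DK_mul]
  rw [e0, e1, e2]
  beta_reduce
  clear e0 e1 e2
  generalize DK 0 (fr f) = f0 at *
  generalize DK 1 (fr f) = f1 at *
  generalize DK 2 (fr f) = f2 at *
  generalize DK 0 (fr P) = p0 at *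
  generalize DK 1 (fr P) = p1 at *
  generalize DK 2 (fr P) = p2 at *
  generalize DK 1 (fr (v 2)) = v12 at *
  generalize DK 2 (fr (v 1)) = v21 at *
  generalize DK 2 (fr (v 0)) = v20 at *
  generalize DK 0 (fr (v 2)) = v02 at *
  generalize DK 0 (fr (v 1)) = v01 at *
  generalize DK 1 (fr (v 0)) = v10 at *
  generalize DK 0 G = g0 at *
  generalize DK 1 G = g1 at *
  generalize DK 2 G = g2 at *
  generalize fr (v 0) = w0 at *
  generalize fr (v 1) = w1 at *
  generalize fr (v 2) = w2 at *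
  generalize fr (δ 0) = a0 at *
  generalize fr (δ 1) = a1 at *
  generalize fr (δ 2) = a2 at *
  generalize fr (X 0) = x0 at *
  generalize fr (X 1) = x1 at *
  generalize fr (X 2) = x2 at *
  generalize fr f = F at *
  generalize fr P = p at *
  generalize fr h' = q at *
  generalize fr η = e at *
  have s1 : x0 * w0 + x1 * w1 + x2 * w2 = d * p := by
    apply mul_left_cancel₀ hf0
    linear_combination p * eF - x0 * r0 - x1 * r1 - x2 * r2
  have s2 : a0 * w0 + a1 * w1 + a2 * w2 = e * p := by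
    apply mul_left_cancel₀ hf0
    linear_combination p * hδ' - a0 * r0 - a1 * r1 - a2 * r2
  have s3 : x0 * (p * g0 + G * p0) + x1 * (p * g1 + G * p1) + x2 * (p * g2 + G * p2) =
      3 * G * p := by
    linear_combination p * eG + G * eP
  have s4 : a0 * (p * g0 + G * p0) + a1 * (p * g1 + G * p1) + a2 * (p * g2 + G * p2) =
      p * (a0 * g0 + a1 * g1 + a2 * g2) + G * (q * p) := by
    linear_combination G * hP'
  linear_combination G * (x1 * a2 - x2 * a1) * K0 + G * (x2 * a0 - x0 * a2) * K1 +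
    G * (x0 * a1 - x1 * a0) * K2 +
    (a0 * w0 + a1 * w1 + a2 * w2) * s3 + 3 * G * p * s2 -
    (a0 * (p * g0 + G * p0) + a1 * (p * g1 + G * p1) + a2 * (p * g2 + G * p2)) * s1 -
    d * p * s4

end MPb07157.O4
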