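import Pool.Agent.Lib.MP_b07157_agO4.GLa
import Pool.Agent.Lib.MP_b07157_agO4.GLb
import Pool.Agent.Lib.MP_b07157_agB2.Har

/-!
# Logarithmic vector fields
-/

noncomputable section

namespace MPb07157.O4

open MvPolynomial MPb07157Q
open MPb07157.OK
open MPb07157.OB (Dat)

variable {r l n d : ℕ} {f P : MvPolynomial (Fin 3) ℂ} {v : Fin 3 → MvPolynomial (Fin 3) ℂ}
  {g : Fin l → MvPolynomial (Fin 3) ℂ} {m : Fin l → ℕ}
  {b : Fin r → Fin 3 → ℂ} {c : ℂ} {t : Fin 3 → Kf} {Sec : (Fin 3 → ℂ) → Kf → Prop} {j : Fin r}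

namespace GLAux

theorem det3_add {A B D D' : Fin 3 → Kf} :
    det3 A B (fun k => D k + D' k) = det3 A B D + det3 A B D' := by
  unfold det3
  ring

theorem det3_mul {A B D : Fin 3 → Kf} (e : Kf) :
    det3 A B (fun k => D k * e) = det3 A B D * e := by
  unfold det3
  ring

theorem fr_det3 (A B D : Fin 3 → MvPolynomial (Fin 3) ℂ) :
    det3 (fun k => fr (A k)) (fun k => fr (B k)) (fun k => fr (D k)) = fr (det3 A B D) := by
  unfold det3
  simp only [map_add, map_mul, map_sub]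

theorem hk_det3 {a b c : ℤ} {A B D : Fin 3 → Kf} (hA : ∀ k, Hk a (A k)) (hB : ∀ k, Hk b (B k))
    (hD : ∀ k, Hk c (D k)) : Hk (a + (b + c)) (det3 A B D) := by
  unfold det3
  exact (((hA 0).mul (((hB 1).mul (hD 2)).sub ((hB 2).mul (hD 1)))).add
    ((hA 1).mul (((hB 2).mul (hD 0)).sub ((hB 0).mul (hD 2))))).add
    ((hA 2).mul (((hB 0).mul (hD 1)).sub ((hB 1).mul (hD 0))))

theorem Lg_add (d : ℕ) (δ : Fin 3 → MvPolynomial (Fin 3) ℂ) (h η : MvPolynomial (Fin 3) ℂ)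
    (G u : Kf) : Lg d δ h η (G + u) = Lg d δ h η G + Lg d δ h η u := by
  unfold Lg
  simp only [Fin.sum_univ_three, map_add]
  ring

theorem regAt_Lg (d : ℕ) (δ : Fin 3 → MvPolynomial (Fin 3) ℂ) (h η : MvPolynomial (Fin 3) ℂ)
    {q : Fin 3 → ℂ} {u : Kf} (hu : RegAt q u) : RegAt q (Lg d δ h η u) := by
  unfold Lg
  have h3 : RegAt q (3 : Kf) := by
    have h4 := RegAt.fr q (3 : MvPolynomial (Fin 3) ℂ)
    rwa [map_ofNat] at h4
  have hd : RegAt q (d : Kf) := by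
    have h4 := RegAt.fr q (d : MvPolynomial (Fin 3) ℂ)
    rwa [map_natCast] at h4
  exact ((h3.mul (RegAt.fr q η)).mul hu).sub
    (hd.mul ((RegAt.sum fun k _ => (RegAt.fr q (δ k)).mul (hu.DK k)).add
      ((RegAt.fr q h).mul hu)))

theorem exists_hsec (hb : ∀ j, b j ≠ 0) (hS : Sol f v n b c t Sec) {q : Fin 3 → ℂ}
    (hq : OffB b q) : ∃ G, Hk (3 - n) G ∧ Sec q G := by
  obtain ⟨ι, _, e', h', he', hh', hb', hc'⟩ := exists_cover hb
  obtain ⟨i, hi⟩ := hc' q hq
  obtain ⟨G, hG0, hG⟩ := hS.ex e' (h' i) he' (hh' i) (by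
    rintro h0
    rw [h0, map_zero] at hi
    exact hi rfl) (hb' i)
  exact ⟨G, hG0, hG q hi⟩

/-- Three regular functions have a common denominator. -/
theorem common3 {q : Fin 3 → ℂ} {τ : Fin 3 → Kf} (h : ∀ k, RegAt q (τ k)) :
    ∃ (e : MvPolynomial (Fin 3) ℂ) (a : Fin 3 → MvPolynomial (Fin 3) ℂ), eval q e ≠ 0 ∧
      ∀ k, τ k * fr e = fr (a k) := by
  obtain ⟨a0, b0, h0, e0⟩ := h 0
  obtain ⟨a1, b1, h1, e1⟩ := h 1
  obtain ⟨a2, b2, h2, e2⟩ := h 2
  refine ⟨b0 * b1 * b2, ![a0 * b1 * b2, a1 * b0 * b2, a2 * b0 * b1], ?_, ?_⟩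
  · rw [map_mul, map_mul]
    exact mul_ne_zero (mul_ne_zero h0 h1) h2
  · intro k
    fin_cases k
    · show τ 0 * fr (b0 * b1 * b2) = fr (a0 * b1 * b2)
      simp only [map_mul]
      rw [← e0]
      ring
    · show τ 1 * fr (b0 * b1 * b2) = fr (a1 * b0 * b2)
      simp only [map_mul]
      rw [← e1]
      ring
    · show τ 2 * fr (b0 * b1 * b2) = fr (a2 * b0 * b1)
      simp only [map_mul]
      rw [← e2]
      ring

end GLAux

open GLAux

/-- (L3) `L G` has one global solution.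

Proof. `s := - det3 (fr X) (fr δ) t / fr P` (degree: `hS.hom`, `1 + κ + 1 - n`). Let `G` be a
section at `q`. There is a homogeneous section `G'` at `q` (`exists_cover hb`, `hS.ex` as in
`MPb07157.OK.exists_sec`), `G - G' = u` is regular at `q` (`hS.uniq`), and
`Lg G = Lg G' + Lg u`, `Lg u` is regular. So let `G` be homogeneous. By `L2`,
`Lg G - s = det3 (fr X) (fr δ) τ / fr P`, `τ k = t k + cuK (G v) k` (linearity of `det3` in the last
argument). The `τ k` are regular at `q` (`hS.reg`), so `τ k * fr e = fr (a k)` with one polynomial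
`e`, `e q ≠ 0` (product of three denominators), and `∑ τ k DK k (fr f) = 0` (`hS.kill` and
`cu_kills`), so `∑ a k ∂_k f = 0`, and `L1` gives `det3 X δ a = P * Q`; hence
`det3 (fr X) (fr δ) τ / fr P * fr e = fr Q`. -/
theorem exists_s (hf : IsFact f g m) (h : Dat f (∏ j, g j) (vv g m) d n) (hb : ∀ j, b j ≠ 0)
    (hS : Sol f (vv g m) n b c t Sec) {κ : ℕ} {δ : Fin 3 → MvPolynomial (Fin 3) ℂ}
    {h' η : MvPolynomial (Fin 3) ℂ} (hκ : ∀ k, (δ k).IsHomogeneous κ)
    (hP : ∑ k, δ k * pderiv k (∏ j, g j) = h' * ∏ j, g j)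
    (hδ : ∑ k, δ k * pderiv k f = η * f) :
    ∃ s, Hk (κ + 2 - n) s ∧ ∀ q G, OffB b q → Sec q G → RegAt q (Lg d δ h' η G - s) := by
  have hP0 : fr (∏ j, g j) ≠ 0 := fr_ne_zero h.P0
  refine ⟨-(det3 (fun k => fr (X k)) (fun k => fr (δ k)) t * (fr (∏ j, g j))⁻¹), ?_, ?_⟩
  · have h1 : Hk (1 + (κ + 1) + -(n : ℤ))
        (det3 (fun k => fr (X k)) (fun k => fr (δ k)) t * (fr (∏ j, g j))⁻¹) := by
      refine (hk_det3 (fun k => ?_) (fun k => Hk.fr (hκ k)) hS.hom).mul (Hk.fr h.hP).inv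
      have h2 := Hk.fr (isHomogeneous_X ℂ k)
      simpa using h2
    have h2 : (κ : ℤ) + 2 - n = 1 + (κ + 1) + -(n : ℤ) := by ring
    rw [h2]
    exact h1.neg
  · intro q G hq hG
    obtain ⟨G', hG0, hG'⟩ := exists_hsec hb hS hq
    have hu := hS.uniq q G G' hG hG'
    have e1 : Lg d δ h' η G = Lg d δ h' η G' + Lg d δ h' η (G - G') := by
      rw [← Lg_add, add_sub_cancel]
    obtain ⟨e, a, he, ha⟩ := common3 (hS.reg q G' hG')
    have ha0 : ∑ k, a k * pderiv k f = 0 := by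
      apply fr_injective
      rw [map_sum, map_zero]
      have e5 : ∀ k, fr (a k * pderiv k f) =
          (t k * DK k (fr f) + cuK (fun j => G' * fr (vv g m j)) k * DK k (fr f)) * fr e := by
        intro k
        rw [map_mul, ← ha, ← DK_fr]
        ring
      rw [Finset.sum_congr rfl fun k _ => e5 k, ← Finset.sum_mul, Finset.sum_add_distrib, hS.kill,
        cu_kills h, add_zero, zero_mul]
    obtain ⟨Q, hQ⟩ := dvd_det hf h.hd h.hf hδ ha0
    have e2 := det_cu h hP hδ hG0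
    have e3 : det3 (fun k => fr (X k)) (fun k => fr (δ k))
        (fun k => (t k + cuK (fun j => G' * fr (vv g m j)) k) * fr e) =
        fr (∏ j, g j) * fr Q := by
      rw [funext ha, fr_det3, hQ, map_mul]
    rw [det3_mul, det3_add] at e3
    have e4 : (Lg d δ h' η G' -
        -(det3 (fun k => fr (X k)) (fun k => fr (δ k)) t * (fr (∏ j, g j))⁻¹)) * fr e =
        fr Q := by
      apply mul_left_cancel₀ hP0
      rw [← e3, e2, sub_neg_eq_add]
      have e7 : fr (∏ j, g j) * (fr (∏ j, g j))⁻¹ = 1 := mul_inv_cancel₀ hP0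
      generalize det3 (fun k => fr (X k)) (fun k => fr (δ k)) t = D0
      linear_combination D0 * fr e * e7
    have e6 : Lg d δ h' η G -
        -(det3 (fun k => fr (X k)) (fun k => fr (δ k)) t * (fr (∏ j, g j))⁻¹) =
        (Lg d δ h' η G' -
        -(det3 (fun k => fr (X k)) (fun k => fr (δ k)) t * (fr (∏ j, g j))⁻¹)) +
        Lg d δ h' η (G - G') := by
      rw [e1]
      ring
    rw [e6]
    refine RegAt.add ?_ (regAt_Lg d δ h' η hu)
    exact ⟨Q, e, he, e4⟩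

end MPb07157.O4
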