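import Pool.Agent.Lib.MP_b07157_agO4.GY
import Pool.Agent.Lib.MP_b07157_agO4.GL

/-!
# The class of a logarithmic divergence
-/

noncomputable section

namespace MPb07157.O4

open MvPolynomial MPb07157Q
open MPb07157.OK
open MPb07157.OB (Dat)

variable {r l n d : ℕ} {f : MvPolynomial (Fin 3) ℂ}
  {g : Fin l → MvPolynomial (Fin 3) ℂ} {m : Fin l → ℕ}
  {b : Fin r → Fin 3 → ℂ} {c : ℂ} {t : Fin 3 → Kf} {Sec : (Fin 3 → ℂ) → Kf → Prop} {j : Fin r}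
  {x y z : MvPolynomial (Fin 3) ℂ}

/-- (K1) For the vector field `δ / ε` of degree `n - 5`, which is logarithmic, the class of
`p = div (δ / ε) - h / ε + (3 / d) η / ε` is global.

Proof. `X3` (`gt_all`) for `ψ_k = fr (δ k) / fr ε`, of degree `κ - λ = n - 5`, regular where
`ε ≠ 0`, gives `e_k`, `s_k`, `T_k`. `L3` gives `s'`. The identity
`p G = ∑ DK k (ψ_k G) + (1 / (d ε)) Lg G` (`DK_mul`; `ring`). Put
`s := ∑ DK k s_k + s' / (d fr ε)`, `T := ∑ DK k T_k`, `e := (∏ e_k) ε`: `DK` preserves regularity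
(`RegAt.DK`) and lowers the degree by one (`Hk.DK`); `s' / ε` has degree
`κ + 2 - n - λ = -3`. -/
theorem gt_log (hf : IsFact f g m) (h : Dat f (∏ j, g j) (vv g m) d n) (hb : ∀ j, b j ≠ 0)
    (hbb : ∀ i j, i ≠ j → ∀ c : ℂ, b i ≠ c • b j) (hS : Sol f (vv g m) n b c t Sec)
    (hC : Crd (b j) x y z) {κ l' : ℕ} (hκl : (κ : ℤ) - l' = n - 5)
    {δ : Fin 3 → MvPolynomial (Fin 3) ℂ} {h' η ε : MvPolynomial (Fin 3) ℂ}
    (hκ : ∀ k, (δ k).IsHomogeneous κ) (hε : ε.IsHomogeneous l') (hε0 : eval (b j) ε ≠ 0)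
    (hP : ∑ k, δ k * pderiv k (∏ j, g j) = h' * ∏ j, g j)
    (hδ : ∑ k, δ k * pderiv k f = η * f) :
    GT b Sec j y z (-3) (∑ k, DK k (fr (δ k) * (fr ε)⁻¹) - fr h' * (fr ε)⁻¹ +
      algebraMap ℂ Kf (3 / d) * (fr η * (fr ε)⁻¹)) := by
  have hε1 : ε ≠ 0 := by
    rintro rfl
    exact hε0 (map_zero _)
  have hF : fr ε ≠ 0 := fr_ne_zero hε1
  have hd0 : (d : Kf) ≠ 0 := Nat.cast_ne_zero.2 h.hd.ne'
  have hdc : algebraMap ℂ Kf (3 / d) = 3 / d := by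
    rw [map_div₀, map_natCast, map_ofNat]
  have hreg : ∀ (a : MvPolynomial (Fin 3) ℂ) q, eval q ε ≠ 0 → RegAt q (fr a * (fr ε)⁻¹) := by
    intro a q hq
    refine RegAt.of_mul hq ?_
    rw [inv_mul_cancel_right₀ hF]
    exact RegAt.fr q a
  have hψ : ∀ k, Hk ((n : ℤ) - 5) (fr (δ k) * (fr ε)⁻¹) := by
    intro k
    have h1 := (Hk.fr (hκ k)).mul (Hk.fr hε).inv
    rwa [← sub_eq_add_neg, hκl] at h1
  have hg := fun k => gt_all hS hb hbb hC ⟨l', hε⟩ hε0 (hψ k) (fun q hq => hreg (δ k) q hq)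
  choose e s T he heb hei hs hT hTr h1 h2 using hg
  obtain ⟨s', hs', hL⟩ := exists_s hf h hb hS hκ hP hδ
  have key : ∀ G, (∑ k, DK k (fr (δ k) * (fr ε)⁻¹) - fr h' * (fr ε)⁻¹ +
      algebraMap ℂ Kf (3 / d) * (fr η * (fr ε)⁻¹)) * G =
      ∑ k, DK k (fr (δ k) * (fr ε)⁻¹ * G) +
        algebraMap ℂ Kf (1 / d) * (fr 1 * (fr ε)⁻¹) * Lg d δ h' η G := by
    intro G
    have e1 : algebraMap ℂ Kf (1 / d) = 1 / d := by
      rw [map_div₀, map_natCast, map_one]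
    rw [hdc, e1, Fin.sum_univ_three, Fin.sum_univ_three, DK_mul 0 _ G, DK_mul 1 _ G,
      DK_mul 2 _ G, Lg, Fin.sum_univ_three, map_one]
    field_simp
    ring
  have hq3 : ∀ q, eval q ((∏ k, e k) * ε) ≠ 0 → (∀ k, eval q (e k) ≠ 0) ∧ eval q ε ≠ 0 := by
    intro q hq
    rw [map_mul, map_prod] at hq
    refine ⟨fun k => ?_, (mul_ne_zero_iff.1 hq).2⟩
    exact Finset.prod_ne_zero_iff.1 (mul_ne_zero_iff.1 hq).1 k (Finset.mem_univ _)
  refine ⟨(∏ k, e k) * ε, ∑ k, DK k (s k) + algebraMap ℂ Kf (1 / d) * (fr 1 * (fr ε)⁻¹) * s',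
    ∑ k, DK k (T k), ?_, ?_, ?_, ?_, ?_, ?_, ?_, ?_⟩
  · choose L hL' using he
    exact ⟨_, (IsHomogeneous.prod _ _ _ fun k _ => hL' k).mul hε⟩
  · rw [map_mul, map_prod]
    exact mul_ne_zero (Finset.prod_ne_zero_iff.2 fun k _ => heb k) hε0
  · intro i hi
    rw [map_mul, map_prod, Finset.prod_eq_zero (Finset.mem_univ 0) (hei 0 i hi), zero_mul]
  · refine Hk.add (TrAux.hk_sum fun k => ?_) ?_
    · exact (hs k).DK k
    · have e2 := (TrAux.hk_C_mul (1 / (d : ℂ)) ((Hk.fr (isHomogeneous_one (Fin 3) ℂ)).mul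
        (Hk.fr hε).inv)).mul hs'
      have e3 : ((0 : ℕ) : ℤ) + -(l' : ℤ) + (κ + 2 - n) = -3 := by
        push_cast
        omega
      rwa [e3] at e2
  · refine TrAux.hk_sum fun k => ?_
    exact (hT k).DK k
  · intro q hy hz
    exact RegAt.sum fun k _ => (hTr k q hy hz).DK k
  · intro q G hz hq hO hSG
    obtain ⟨hq1, hq2⟩ := hq3 q hq
    rw [key]
    have e4 : ∑ k, DK k (fr (δ k) * (fr ε)⁻¹ * G) +
        algebraMap ℂ Kf (1 / d) * (fr 1 * (fr ε)⁻¹) * Lg d δ h' η G -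
        (∑ k, DK k (s k) + algebraMap ℂ Kf (1 / d) * (fr 1 * (fr ε)⁻¹) * s') =
        ∑ k, DK k (fr (δ k) * (fr ε)⁻¹ * G - s k) +
        algebraMap ℂ Kf (1 / d) * (fr 1 * (fr ε)⁻¹) * (Lg d δ h' η G - s') := by
      simp only [map_sub, Finset.sum_sub_distrib]
      ring
    rw [e4]
    exact (RegAt.sum fun k _ => (h1 k q G hz (hq1 k) hO hSG).DK k).add
      (((RegAt.const q _).mul (hreg 1 q hq2)).mul (hL q G hO hSG))
  · intro q G hy hq hO hSG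
    obtain ⟨hq1, hq2⟩ := hq3 q hq
    rw [key]
    have e4 : ∑ k, DK k (fr (δ k) * (fr ε)⁻¹ * G) +
        algebraMap ℂ Kf (1 / d) * (fr 1 * (fr ε)⁻¹) * Lg d δ h' η G -
        (∑ k, DK k (s k) + algebraMap ℂ Kf (1 / d) * (fr 1 * (fr ε)⁻¹) * s') -
        ∑ k, DK k (T k) =
        ∑ k, DK k (fr (δ k) * (fr ε)⁻¹ * G - s k - T k) +
        algebraMap ℂ Kf (1 / d) * (fr 1 * (fr ε)⁻¹) * (Lg d δ h' η G - s') := by
      simp only [map_sub, Finset.sum_sub_distrib]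
      ring
    rw [e4]
    exact (RegAt.sum fun k _ => (h2 k q G hy (hq1 k) hO hSG).DK k).add
      (((RegAt.const q _).mul (hreg 1 q hq2)).mul (hL q G hO hSG))

end MPb07157.O4
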