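import Pool.Agent.Lib.MP_b07157_agO4.GD
import Pool.Agent.Lib.MP_b07157_agQ.HomDvd

/-!
# Logarithmic vector fields
-/

noncomputable section

namespace MPb07157.O4

open MvPolynomial MPb07157Q
open MPb07157.OK
open MPb07157.OB (Dat)

variable {r l n d : ℕ} {f P : MvPolynomial (Fin 3) ℂ} {v : Fin 3 → MvPolynomial (Fin 3) ℂ}
  {g : Fin l → MvPolynomial (Fin 3) ℂ} {m : Fin l → ℕ}
  {b : Fin r → Fin 3 → ℂ} {c : ℂ} {t : Fin 3 → Kf} {Sec : (Fin 3 → ℂ) → Kf → Prop} {j : Fin r}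

theorem gla_leibniz (δ : Fin 3 → MvPolynomial (Fin 3) ℂ) (g R : MvPolynomial (Fin 3) ℂ) (e : ℕ) :
    ∑ k, δ k * pderiv k (g ^ (e + 1) * R) =
      g ^ e * (C ((e + 1 : ℕ) : ℂ) * (R * ∑ k, δ k * pderiv k g) +
        g * ∑ k, δ k * pderiv k R) := by
  rw [Finset.mul_sum, Finset.mul_sum, Finset.mul_sum, ← Finset.sum_add_distrib, Finset.mul_sum]
  refine Finset.sum_congr rfl fun k _ => ?_
  rw [Derivation.leibniz, Derivation.leibniz_pow, Nat.add_sub_cancel, smul_eq_mul, smul_eq_mul,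
    smul_eq_mul, nsmul_eq_mul, map_natCast]
  ring

/-- A logarithmic field of `f` is logarithmic for every factor. -/
theorem gla_log {δ : Fin 3 → MvPolynomial (Fin 3) ℂ} {g R η : MvPolynomial (Fin 3) ℂ} {e : ℕ}
    (hg : Prime g) (hR : ¬ g ∣ R)
    (h : ∑ k, δ k * pderiv k (g ^ (e + 1) * R) = η * (g ^ (e + 1) * R)) :
    g ∣ ∑ k, δ k * pderiv k g := by
  rw [gla_leibniz] at h
  have h1 : g ^ e * (C ((e + 1 : ℕ) : ℂ) * (R * ∑ k, δ k * pderiv k g)) =
      g ^ e * (g * (η * R - ∑ k, δ k * pderiv k R)) := by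
    rw [pow_succ] at h
    linear_combination h
  have h2 := mul_left_cancel₀ (pow_ne_zero e hg.ne_zero) h1
  have h3 : g ∣ C ((e + 1 : ℕ) : ℂ) * (R * ∑ k, δ k * pderiv k g) := by
    rw [h2]
    exact dvd_mul_right _ _
  have hu : IsUnit (C ((e + 1 : ℕ) : ℂ) : MvPolynomial (Fin 3) ℂ) :=
    (IsUnit.mk0 _ (Nat.cast_ne_zero.2 (Nat.succ_ne_zero e))).map C
  rcases hg.dvd_or_dvd h3 with h4 | h4
  · exact absurd (isUnit_of_dvd_unit h4 hu) hg.not_isUnit
  · rcases hg.dvd_or_dvd h4 with h5 | h5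
    · exact absurd h5 hR
    · exact h5

/-- Cramer's rule. -/
theorem gla_cramer {R : Type} [CommRing R] (A B D w : Fin 3 → R) (x : R)
    (hA : x ∣ ∑ k, A k * w k) (hB : x ∣ ∑ k, B k * w k) (hD : x ∣ ∑ k, D k * w k) (k : Fin 3) :
    x ∣ det3 A B D * w k := by
  obtain ⟨α, hα⟩ := hA
  obtain ⟨β, hβ⟩ := hB
  obtain ⟨γ, hγ⟩ := hD
  rw [Fin.sum_univ_three] at hα hβ hγ
  unfold det3
  fin_cases k
  · refine ⟨α * (B 1 * D 2 - B 2 * D 1) + β * (A 2 * D 1 - A 1 * D 2) +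
      γ * (A 1 * B 2 - A 2 * B 1), ?_⟩
    simp only [Fin.zero_eta]
    linear_combination (B 1 * D 2 - B 2 * D 1) * hα + (A 2 * D 1 - A 1 * D 2) * hβ +
      (A 1 * B 2 - A 2 * B 1) * hγ
  · refine ⟨α * (B 2 * D 0 - B 0 * D 2) + β * (A 0 * D 2 - A 2 * D 0) +
      γ * (A 2 * B 0 - A 0 * B 2), ?_⟩
    simp only [Fin.mk_one]
    linear_combination (B 2 * D 0 - B 0 * D 2) * hα + (A 0 * D 2 - A 2 * D 0) * hβ +
      (A 2 * B 0 - A 0 * B 2) * hγ
  · refine ⟨α * (B 0 * D 1 - B 1 * D 0) + β * (A 1 * D 0 - A 0 * D 1) +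
      γ * (A 0 * B 1 - A 1 * B 0), ?_⟩
    simp only [Fin.reduceFinMk]
    linear_combination (B 0 * D 1 - B 1 * D 0) * hα + (A 1 * D 0 - A 0 * D 1) * hβ +
      (A 0 * B 1 - A 1 * B 0) * hγ

/-- (L1) The reduced equation divides `det (E, δ, a)`, `E` the Euler field, if `δ f` is a multiple
of `f` and `a f = 0`.

Proof. Let `D` be the determinant and `g = g j` a factor, `f = g ^ m R`, `g ∤ R`. From
`∑ δ_k ∂_k f = η f`: `m R δ(g) + g δ(R) = η g R` (divide by `g ^ (m - 1)`), so `g ∣ δ(g)`. In the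
same way `g ∣ a(g)`. And `E(g) = deg g * g` (`g` is a form: `hf.exists_degree hh`,
`IsHomogeneous.sum_X_mul_pderiv`). For every `k`, `D ∂_k g` is a combination of `E(g)`, `δ(g)`,
`a(g)` (Cramer, an identity of `ring`), so `g ∣ D ∂_k g`. If `g ∤ D` then `g ∣ ∂_k g` for all `k`,
so `∂_k g = 0` (`RgA.pderiv_eq_zero_of_dvd`) and `g` is constant (`RgA.eq_C_of_pderiv`), which
contradicts irreducibility. The `g j` are irreducible and not associated, so their product divides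
`D`. -/
theorem dvd_det (hf : IsFact f g m) (hd : 0 < d) (hh : f.IsHomogeneous d)
    {δ a : Fin 3 → MvPolynomial (Fin 3) ℂ} {η : MvPolynomial (Fin 3) ℂ}
    (hδ : ∑ k, δ k * pderiv k f = η * f) (ha : ∑ k, a k * pderiv k f = 0) :
    ∏ j, g j ∣ det3 X δ a := by
  have hrel : ∀ i k, i ≠ k → ¬ g i ∣ g k := fun i k hik h =>
    hf.ne i k hik ((hf.irr i).associated_of_dvd (hf.irr k) h)
  refine Finset.prod_dvd_of_isRelPrime ?_ ?_
  · intro i _ k _ hik
    exact (hf.irr i).isRelPrime_iff_not_dvd.2 (hrel i k hik)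
  · intro j _
    have hp : Prime (g j) := (hf.irr j).prime
    obtain ⟨e, he⟩ : ∃ e, m j = e + 1 := Nat.exists_eq_succ_of_ne_zero (hf.pos j).ne'
    have hfR : f = g j ^ (e + 1) * ∏ k ∈ Finset.univ.erase j, g k ^ m k := by
      rw [← he, hf.eq]
      exact (Finset.mul_prod_erase Finset.univ (fun k => g k ^ m k) (Finset.mem_univ j)).symm
    have hR : ¬ g j ∣ ∏ k ∈ Finset.univ.erase j, g k ^ m k := by
      intro h
      obtain ⟨k, hk, hk2⟩ := (hp.dvd_finsetProd_iff _).1 h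
      exact hrel j k (Finset.ne_of_mem_erase hk).symm (hp.dvd_of_dvd_pow hk2)
    have h1 : g j ∣ ∑ k, δ k * pderiv k (g j) := by
      rw [hfR] at hδ
      exact gla_log hp hR hδ
    have h2 : g j ∣ ∑ k, a k * pderiv k (g j) := by
      rw [hfR] at ha
      refine gla_log (η := 0) (e := e) hp hR ?_
      rw [ha, zero_mul]
    obtain ⟨s, hs, hhom⟩ := hf.exists_degree hh j
    have h3 : g j ∣ ∑ k, X k * pderiv k (g j) := by
      rw [hhom.sum_X_mul_pderiv]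
      exact ⟨s, by rw [nsmul_eq_mul, mul_comm]⟩
    have h4 := gla_cramer X δ a (fun k => pderiv k (g j)) (g j) h3 h1 h2
    by_contra hcon
    have h5 : ∀ k, pderiv k (g j) = 0 := fun k =>
      MPb07157.OK.RgA.pderiv_eq_zero_of_dvd ((hp.dvd_or_dvd (h4 k)).resolve_left hcon)
    have h6 := MPb07157.OK.RgA.eq_C_of_pderiv h5
    apply (hf.irr j).not_isUnit
    rw [h6]
    refine (IsUnit.mk0 _ ?_).map C
    intro h7
    rw [h7, C_0] at h6
    exact (hf.irr j).ne_zero h6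

end MPb07157.O4
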