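import Pool.Agent.Lib.MP_b07157_agO4.GD

/-!
# The local data at a bad point
-/

noncomputable section

namespace MPb07157.O4

open MvPolynomial MPb07157Q
open MPb07157.OK
open MPb07157.O3 (An)

variable {r n : ℕ} {f : MvPolynomial (Fin 3) ℂ} {v : Fin 3 → MvPolynomial (Fin 3) ℂ}
  {b : Fin r → Fin 3 → ℂ} {c : ℂ} {t : Fin 3 → Kf} {Sec : (Fin 3 → ℂ) → Kf → Prop} {j : Fin r}
  {x y z : MvPolynomial (Fin 3) ℂ}

/-- (X1) The local data at `b j`: the difference `g₁ - g₂` of two sections.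

Proof. As the first half of `MPb07157.OK.loc_sol'` (agB3/Loc2R): `h0` from `exists_sep hbb j`,
`e := x * h0 * ε`; `hS.ex` for the forms `y * e` and `z * e` (nonzero, of positive degree, vanishing
at all `b i`) gives `g₁`, `g₂`; `g₁ - g₂` is regular where `y z e ≠ 0` (`hS.uniq`), so
`RgA.exists_pow` gives `M` and `a` (raise to a bigger power if `M = 0` is not wanted: `1 ≤ M`). The
degree of `a` from `isHomogeneous_of_hk`, if `a ≠ 0`. -/
theorem exists_split (hS : Sol f v n b c t Sec) (hb : ∀ j, b j ≠ 0)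
    (hbb : ∀ i j, i ≠ j → ∀ c : ℂ, b i ≠ c • b j) (hC : Crd (b j) x y z)
    {ε : MvPolynomial (Fin 3) ℂ} (hε : ∃ l, ε.IsHomogeneous l) (hε0 : eval (b j) ε ≠ 0) :
    ∃ (e a : MvPolynomial (Fin 3) ℂ) (g₁ g₂ : Kf) (m M : ℕ), e.IsHomogeneous m ∧ 0 < m ∧ 1 ≤ M ∧
      x ∣ e ∧ ε ∣ e ∧ eval (b j) e ≠ 0 ∧ (∀ i, i ≠ j → eval (b i) e = 0) ∧
      Hk (3 - n) g₁ ∧ Hk (3 - n) g₂ ∧ (∀ q, eval q (y * e) ≠ 0 → Sec q g₁) ∧
      (∀ q, eval q (z * e) ≠ 0 → Sec q g₂) ∧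
      (g₁ - g₂) * fr ((y * z) ^ M * e ^ M) = fr a := by
  obtain ⟨l, hl⟩ := hε
  obtain ⟨e0, h0, hh0, h0b, h0i⟩ := exists_sep hbb j
  have y0 : y ≠ 0 := Loc2Aux.ne_zero_of_yz hC.hz hC.yz
  have z0 : z ≠ 0 := Loc2Aux.ne_zero_of_yz hC.hy fun q a1 a2 => hC.yz q a2 a1
  have hE : (x * h0 * ε).IsHomogeneous (1 + e0 + l) := (hC.hx.mul hh0).mul hl
  have hEb : eval (b j) (x * h0 * ε) ≠ 0 := by
    rw [map_mul, map_mul]
    exact mul_ne_zero (mul_ne_zero hC.xb h0b) hε0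
  have hEi : ∀ i, i ≠ j → eval (b i) (x * h0 * ε) = 0 := by
    intro i hi
    rw [map_mul, map_mul, h0i i hi, mul_zero, zero_mul]
  have hx : x ∣ x * h0 * ε := ⟨h0 * ε, by ring⟩
  have hε' : ε ∣ x * h0 * ε := dvd_mul_left _ _
  generalize x * h0 * ε = e at hE hEb hEi hx hε'
  have hE0 : e ≠ 0 := by
    rintro rfl
    exact hEb (map_zero _)
  have hex : ∀ w : MvPolynomial (Fin 3) ℂ, w.IsHomogeneous 1 → w ≠ 0 → eval (b j) w = 0 →
      ∃ g', Hk (3 - n) g' ∧ (∀ q, eval q (w * e) ≠ 0 → Sec q g') := by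
    intro w hw w0 wb
    have hwe : ∀ i, eval (b i) (w * e) = 0 := by
      intro i
      rw [map_mul]
      by_cases hi : i = j
      · rw [hi, wb, zero_mul]
      · rw [hEi i hi, mul_zero]
    exact hS.ex (1 + (1 + e0 + l)) (w * e) (by omega) (hw.mul hE) (mul_ne_zero w0 hE0) hwe
  obtain ⟨g1, hg1, hs1⟩ := hex y hC.hy y0 hC.yb
  obtain ⟨g2, hg2, hs2⟩ := hex z hC.hz z0 hC.zb
  have hreg : ∀ q, eval q (y * z * e) ≠ 0 → RegAt q (g1 - g2) := by
    intro q hq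
    rw [map_mul, map_mul] at hq
    have q1 := left_ne_zero_of_mul hq
    have qe := right_ne_zero_of_mul hq
    refine hS.uniq q g1 g2 (hs1 q ?_) (hs2 q ?_)
    · rw [map_mul]
      exact mul_ne_zero (left_ne_zero_of_mul q1) qe
    · rw [map_mul]
      exact mul_ne_zero (right_ne_zero_of_mul q1) qe
  obtain ⟨N, a, ha⟩ := exists_pow hreg
  refine ⟨e, a * (y * z * e), g1, g2, 1 + e0 + l, N + 1, hE, by omega, by omega, hx, hε', hEb,
    hEi, hg1, hg2, hs1, hs2, ?_⟩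
  have h1 : (y * z) ^ (N + 1) * e ^ (N + 1) = (y * z * e) ^ N * (y * z * e) := by ring
  rw [h1, map_mul, ← mul_assoc, ha, ← map_mul]

/-- (X2) High powers of `y` and `z` kill the class.

Proof. With `X1` (`ε = 1`): if `M ≤ β`, then `fr (y ^ β z ^ γ) (g₁ - g₂) = ω := fr (a y ^ (β - M) z ^ γ) / fr (z ^ M e ^ M)`,
regular where `z e ≠ 0`. Take `s := fr (y ^ β z ^ γ) * g₂ + ω = fr (y ^ β z ^ γ) * g₁` : for `q` with
`e q ≠ 0`, off the lines, `G` a section at `q`: if `y q ≠ 0` then `G - g₁` is regular; if `z q ≠ 0`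
then `G - g₂` and `ω` are regular. If `M ≤ γ` exchange the roles (`s := fr (y ^ β z ^ γ) * g₂`). -/
theorem an_of_pow (hS : Sol f v n b c t Sec) (hb : ∀ j, b j ≠ 0)
    (hbb : ∀ i j, i ≠ j → ∀ c : ℂ, b i ≠ c • b j) (hC : Crd (b j) x y z) :
    ∃ M : ℕ, ∀ β γ : ℕ, M ≤ β ∨ M ≤ γ → An b n Sec j (β + γ) (y ^ β * z ^ γ) := by
  obtain ⟨e, a, g1, g2, m, M, hE, -, -, -, -, hEb, hEi, hg1, hg2, hs1, hs2, hga⟩ :=
    exists_split hS hb hbb hC (ε := 1) ⟨0, isHomogeneous_one _ _⟩ (by simp)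
  refine ⟨M, fun β γ hM => ?_⟩
  have hσ : (y ^ β * z ^ γ).IsHomogeneous (β + γ) := by
    have h1 := (hC.hy.pow β).mul (hC.hz.pow γ)
    rwa [one_mul, one_mul] at h1
  have hk : ∀ g, Hk (3 - n) g → Hk (3 - n + ((β + γ : ℕ) : ℤ)) (fr (y ^ β * z ^ γ) * g) := by
    intro g hg
    have h1 := (Hk.fr hσ).mul hg
    rwa [add_comm ((β + γ : ℕ) : ℤ)] at h1
  have hyz : ∀ q, OffB b q → eval q y = 0 → eval q z ≠ 0 := by
    intro q hoff hy hz
    obtain ⟨c', hc'⟩ := hC.yz q hy hz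
    exact hoff.2 j c' hc'
  have s1 : ∀ q, eval q e ≠ 0 → eval q y ≠ 0 → Sec q g1 := by
    intro q hq hy
    refine hs1 q ?_
    rw [map_mul]
    exact mul_ne_zero hy hq
  have s2 : ∀ q, eval q e ≠ 0 → eval q z ≠ 0 → Sec q g2 := by
    intro q hq hz
    refine hs2 q ?_
    rw [map_mul]
    exact mul_ne_zero hz hq
  have hpow : ∀ (w : MvPolynomial (Fin 3) ℂ) (q : Fin 3 → ℂ), eval q e ≠ 0 → eval q w ≠ 0 →
      eval q (w ^ M * e ^ M) ≠ 0 := by
    intro w q hq hw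
    rw [map_mul, map_pow, map_pow]
    exact mul_ne_zero (pow_ne_zero _ hw) (pow_ne_zero _ hq)
  rcases hM with hM | hM
  · obtain ⟨β', rfl⟩ := Nat.exists_eq_add_of_le hM
    refine ⟨e, fr (y ^ (M + β') * z ^ γ) * g1, ⟨_, hE⟩, hEb, hEi, hk g1 hg1,
      fun q G hq hoff hG => ?_⟩
    by_cases hy : eval q y = 0
    · have hz := hyz q hoff hy
      have h1 : RegAt q (fr (y ^ (M + β') * z ^ γ) * (g1 - g2)) := by
        refine RegAt.of_mul (hpow z q hq hz) ?_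
        have h2 : fr (y ^ (M + β') * z ^ γ) * (g1 - g2) * fr (z ^ M * e ^ M) =
            fr (y ^ β' * z ^ γ) * ((g1 - g2) * fr ((y * z) ^ M * e ^ M)) := by
          simp only [map_mul, map_pow]
          ring
        rw [h2, hga]
        exact (RegAt.fr q _).mul (RegAt.fr q _)
      have h3 : fr (y ^ (M + β') * z ^ γ) * G - fr (y ^ (M + β') * z ^ γ) * g1 =
          fr (y ^ (M + β') * z ^ γ) * (G - g2) -
            fr (y ^ (M + β') * z ^ γ) * (g1 - g2) := by ring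
      rw [h3]
      exact ((RegAt.fr q _).mul (hS.uniq q G g2 hG (s2 q hq hz))).sub h1
    · rw [← mul_sub]
      exact (RegAt.fr q _).mul (hS.uniq q G g1 hG (s1 q hq hy))
  · obtain ⟨γ', rfl⟩ := Nat.exists_eq_add_of_le hM
    refine ⟨e, fr (y ^ β * z ^ (M + γ')) * g2, ⟨_, hE⟩, hEb, hEi, hk g2 hg2,
      fun q G hq hoff hG => ?_⟩
    by_cases hz : eval q z = 0
    · have hy : eval q y ≠ 0 := fun h => hyz q hoff h hz
      have h1 : RegAt q (fr (y ^ β * z ^ (M + γ')) * (g1 - g2)) := by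
        refine RegAt.of_mul (hpow y q hq hy) ?_
        have h2 : fr (y ^ β * z ^ (M + γ')) * (g1 - g2) * fr (y ^ M * e ^ M) =
            fr (y ^ β * z ^ γ') * ((g1 - g2) * fr ((y * z) ^ M * e ^ M)) := by
          simp only [map_mul, map_pow]
          ring
        rw [h2, hga]
        exact (RegAt.fr q _).mul (RegAt.fr q _)
      have h3 : fr (y ^ β * z ^ (M + γ')) * G - fr (y ^ β * z ^ (M + γ')) * g2 =
          fr (y ^ β * z ^ (M + γ')) * (G - g1) +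
            fr (y ^ β * z ^ (M + γ')) * (g1 - g2) := by ring
      rw [h3]
      exact ((RegAt.fr q _).mul (hS.uniq q G g1 hG (s1 q hq hy))).add h1
    · rw [← mul_sub]
      exact (RegAt.fr q _).mul (hS.uniq q G g2 hG (s2 q hq hz))

end MPb07157.O4
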