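import Pool.Agent.Lib.MP_b07157_agO4.GN
import Pool.Agent.Lib.MP_b07157_agO4.GG
import Pool.Agent.Lib.MP_b07157_agO4.GX

/-!
# The obstruction vanishes at a bad point
-/

noncomputable section

namespace MPb07157.O4

open MvPolynomial MPb07157Q
open MPb07157.OK
open MPb07157.O3 (An)

variable {r n : ℕ} {f : MvPolynomial (Fin 3) ℂ} {v : Fin 3 → MvPolynomial (Fin 3) ℂ}
  {b : Fin r → Fin 3 → ℂ} {c : ℂ} {t : Fin 3 → Kf} {Sec : (Fin 3 → ℂ) → Kf → Prop} {j : Fin r}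
  {x y z : MvPolynomial (Fin 3) ℂ} {κ : ℤ} {ψ ψ' : Kf}

/-- Multiplication by a quotient of forms. -/
theorem AnK.unit (h : AnK b Sec j κ ψ) {ℓ₁ ℓ₂ : MvPolynomial (Fin 3) ℂ} {l₁ l₂ : ℕ}
    (h1 : ℓ₁.IsHomogeneous l₁) (h2 : ℓ₂.IsHomogeneous l₂) (h0 : eval (b j) ℓ₁ ≠ 0) {κ' : ℤ}
    (hκ : κ' = l₂ - l₁ + κ) : AnK b Sec j κ' (fr ℓ₂ * (fr ℓ₁)⁻¹ * ψ) := by
  obtain ⟨e, s, ⟨l, he⟩, e0, ei, hs, hr⟩ := h
  have hℓ : ℓ₁ ≠ 0 := by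
    rintro rfl
    exact h0 (map_zero _)
  have hf := fr_ne_zero hℓ
  refine ⟨e * ℓ₁, fr ℓ₂ * (fr ℓ₁)⁻¹ * s, ⟨_, he.mul h1⟩, ?_, fun i hi => ?_, ?_,
    fun q G q1 q2 q3 => ?_⟩
  · rw [map_mul]
    exact mul_ne_zero e0 h0
  · rw [map_mul, ei i hi, zero_mul]
  · have a1 := ((Hk.fr h2).mul (Hk.fr h1).inv).mul hs
    rw [hκ]
    exact a1
  · rw [map_mul] at q1
    refine RegAt.of_mul (right_ne_zero_of_mul q1) ?_
    have a1 := (RegAt.fr q ℓ₂).mul (hr q G (left_ne_zero_of_mul q1) q2 q3)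
    have a2 : (fr ℓ₂ * (fr ℓ₁)⁻¹ * ψ * G - fr ℓ₂ * (fr ℓ₁)⁻¹ * s) * fr ℓ₁ =
        fr ℓ₂ * (ψ * G - s) * ((fr ℓ₁)⁻¹ * fr ℓ₁) := by ring
    rw [a2, inv_mul_cancel₀ hf, mul_one]
    exact a1

theorem AnK.gt (h : AnK b Sec j κ ψ) (y z : MvPolynomial (Fin 3) ℂ) :
    GT b Sec j y z κ ψ := by
  obtain ⟨e, s, he, e0, ei, hs, hr⟩ := h
  refine ⟨e, s, 0, he, e0, ei, hs, Hk.zero _, fun q _ _ => RegAt.zero q,
    fun q G _ q1 q2 q3 => hr q G q1 q2 q3, fun q G _ q1 q2 q3 => ?_⟩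
  rw [sub_zero]
  exact hr q G q1 q2 q3

theorem GT.sub (h : GT b Sec j y z κ ψ) (h' : GT b Sec j y z κ ψ') :
    GT b Sec j y z κ (ψ - ψ') := by
  obtain ⟨e, s, T, ⟨l, he⟩, e0, ei, hs, hT, hTr, h1, h2⟩ := h
  obtain ⟨e', s', T', ⟨l', he'⟩, e0', ei', hs', hT', hTr', h1', h2'⟩ := h'
  refine ⟨e * e', s - s', T - T', ⟨_, he.mul he'⟩, ?_, fun i hi => ?_, hs.sub hs', hT.sub hT',
    fun q q1 q2 => (hTr q q1 q2).sub (hTr' q q1 q2), fun q G q1 q2 q3 q4 => ?_,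
    fun q G q1 q2 q3 q4 => ?_⟩
  · rw [map_mul]
    exact mul_ne_zero e0 e0'
  · rw [map_mul, ei i hi, zero_mul]
  · rw [map_mul] at q2
    have a1 := (h1 q G q1 (left_ne_zero_of_mul q2) q3 q4).sub
      (h1' q G q1 (right_ne_zero_of_mul q2) q3 q4)
    have a2 : (ψ - ψ') * G - (s - s') = ψ * G - s - (ψ' * G - s') := by ring
    rw [a2]
    exact a1
  · rw [map_mul] at q2
    have a1 := (h2 q G q1 (left_ne_zero_of_mul q2) q3 q4).sub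
      (h2' q G q1 (right_ne_zero_of_mul q2) q3 q4)
    have a2 : (ψ - ψ') * G - (s - s') - (T - T') = ψ * G - s - T - (ψ' * G - s' - T') := by ring
    rw [a2]
    exact a1

theorem gt_zero (hbb : ∀ i j, i ≠ j → ∀ c : ℂ, b i ≠ c • b j) (j : Fin r)
    (y z : MvPolynomial (Fin 3) ℂ) (κ : ℤ) : GT b Sec j y z κ 0 := by
  obtain ⟨l, e, he, e0, ei⟩ := exists_sep hbb j
  refine AnK.gt ⟨e, 0, ⟨l, he⟩, e0, ei, Hk.zero _, fun q G _ _ _ => ?_⟩ y z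
  rw [zero_mul, sub_zero]
  exact RegAt.zero q

/-- (M) The obstruction at `b j` vanishes, by interpolation. -/
theorem an_one2 (hS : Sol f v n b c t Sec) (hb : ∀ j, b j ≠ 0)
    (hbb : ∀ i j, i ≠ j → ∀ c : ℂ, b i ≠ c • b j) {x y z : Fin r → MvPolynomial (Fin 3) ℂ}
    (hC : ∀ i, Crd (b i) (x i) (y i) (z i)) (j : Fin r)
    (hI : ∀ β γ : ℕ, An b n Sec j (β + γ) (y j ^ β * z j ^ γ) ∨
      ∃ (τ ℓ₁ ℓ₂ : MvPolynomial (Fin 3) ℂ) (l₁ l₂ : ℕ), Hk (n - 6) (fr τ) ∧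
        ℓ₁.IsHomogeneous l₁ ∧ ℓ₂.IsHomogeneous l₂ ∧ eval (b j) ℓ₁ ≠ 0 ∧ eval (b j) ℓ₂ ≠ 0 ∧
        (n : ℤ) - 6 + l₁ = β + γ + l₂ ∧
        (∀ i, i ≠ j → GT b Sec i (y i) (z i) (-3) (fr τ)) ∧
        GT b Sec j (y j) (z j) (-3)
          (fr τ - fr ℓ₂ * (fr ℓ₁)⁻¹ * fr (y j ^ β * z j ^ γ))) :
    An b n Sec j 0 1 := by
  classical
  by_contra hcon
  obtain ⟨M, hM⟩ := an_of_pow hS hb hbb (hC j)
  have hex : ∃ D : ℕ, ∀ β γ : ℕ, D ≤ β + γ → An b n Sec j (β + γ) (y j ^ β * z j ^ γ) :=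
    ⟨2 * M, fun β γ h => hM β γ (by omega)⟩
  have h0 : Nat.find hex ≠ 0 := by
    intro h0
    have h1 := Nat.find_spec hex
    rw [h0] at h1
    have h2 := h1 0 0 (Nat.zero_le _)
    rw [pow_zero, pow_zero, one_mul] at h2
    exact hcon h2
  obtain ⟨D, hD⟩ := Nat.exists_eq_succ_of_ne_zero h0
  have hmax : ∀ β γ : ℕ, D + 1 ≤ β + γ → An b n Sec j (β + γ) (y j ^ β * z j ^ γ) := by
    have h1 := Nat.find_spec hex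
    rw [hD] at h1
    exact h1
  have hmin := Nat.find_min hex (m := D) (by omega)
  push Not at hmin
  obtain ⟨β, γ, hβγ, hnot⟩ := hmin
  rcases hI β γ with hA | ⟨τ, ℓ₁, ℓ₂, l₁, l₂, hτ, h1, h2, e1, e2, hdeg, hi, hj⟩
  · exact hnot hA
  have hpow : ∃ N, An b n Sec j N (y j ^ N) ∧ An b n Sec j N (z j ^ N) := by
    refine ⟨M, ?_, ?_⟩
    · have a1 := hM M 0 (Or.inl le_rfl)
      rwa [pow_zero, mul_one, add_zero] at a1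
    · have a1 := hM 0 M (Or.inr le_rfl)
      rwa [pow_zero, one_mul, zero_add] at a1
  have hgt := gt_glob hS hb hbb hC j hτ hi hpow
  have hψ : GT b Sec j (y j) (z j) (-3) (fr ℓ₂ * (fr ℓ₁)⁻¹ * fr (y j ^ β * z j ^ γ)) := by
    have a1 := hgt.sub hj
    rwa [sub_sub_cancel] at a1
  have hmul : ∀ w : MvPolynomial (Fin 3) ℂ, w.IsHomogeneous 1 →
      An b n Sec j (β + γ + 1) (w * (y j ^ β * z j ^ γ)) →
      AnK b Sec j (-2) (fr w * (fr ℓ₂ * (fr ℓ₁)⁻¹ * fr (y j ^ β * z j ^ γ))) := by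
    intro w _ hw
    have a1 : AnK b Sec j (3 - n + ((β + γ + 1 : ℕ) : ℤ)) (fr (w * (y j ^ β * z j ^ γ))) := hw
    have a2 := a1.unit h1 h2 e1 (κ' := -2) (by push_cast; omega)
    have a3 : fr w * (fr ℓ₂ * (fr ℓ₁)⁻¹ * fr (y j ^ β * z j ^ γ)) =
        fr ℓ₂ * (fr ℓ₁)⁻¹ * fr (w * (y j ^ β * z j ^ γ)) := by
      rw [map_mul fr w]
      ring
    rw [a3]
    exact a2
  have hy : AnK b Sec j (-2) (fr (y j) * (fr ℓ₂ * (fr ℓ₁)⁻¹ * fr (y j ^ β * z j ^ γ))) := by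
    refine hmul _ (hC j).hy ?_
    have a1 := hmax (β + 1) γ (by omega)
    have a2 : y j * (y j ^ β * z j ^ γ) = y j ^ (β + 1) * z j ^ γ := by ring
    have a3 : β + γ + 1 = β + 1 + γ := by omega
    rw [a2, a3]
    exact a1
  have hz : AnK b Sec j (-2) (fr (z j) * (fr ℓ₂ * (fr ℓ₁)⁻¹ * fr (y j ^ β * z j ^ γ))) := by
    refine hmul _ (hC j).hz ?_
    have a1 := hmax β (γ + 1) (by omega)
    have a2 : z j * (y j ^ β * z j ^ γ) = y j ^ β * z j ^ (γ + 1) := by ring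
    rw [a2]
    exact a1
  have hA := an_of_gt hS hb (hC j) hψ hy hz
  apply hnot
  have a1 := hA.unit h2 h1 e2 (κ' := 3 - n + ((β + γ : ℕ) : ℤ)) (by push_cast; omega)
  have f1 : fr ℓ₁ ≠ 0 := fr_ne_zero (by rintro rfl; exact e1 (map_zero _))
  have f2 : fr ℓ₂ ≠ 0 := fr_ne_zero (by rintro rfl; exact e2 (map_zero _))
  have a2 : fr ℓ₁ * (fr ℓ₂)⁻¹ * (fr ℓ₂ * (fr ℓ₁)⁻¹ * fr (y j ^ β * z j ^ γ)) =
      fr (y j ^ β * z j ^ γ) := by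
    have a3 : fr ℓ₁ * (fr ℓ₂)⁻¹ * (fr ℓ₂ * (fr ℓ₁)⁻¹ * fr (y j ^ β * z j ^ γ)) =
        fr ℓ₁ * (fr ℓ₁)⁻¹ * ((fr ℓ₂)⁻¹ * fr ℓ₂) * fr (y j ^ β * z j ^ γ) := by ring
    rw [a3, mul_inv_cancel₀ f1, inv_mul_cancel₀ f2, one_mul, one_mul]
  rw [a2] at a1
  exact a1

end MPb07157.O4
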