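import Pool.Agent.Lib.MP_b07157_agO4.GD

/-!
# A class which comes from a global function and is killed by `y` and `z` vanishes
-/

noncomputable section

namespace MPb07157.O4

open MvPolynomial MPb07157Q
open MPb07157.OK

variable {r n : ℕ} {f : MvPolynomial (Fin 3) ℂ} {v : Fin 3 → MvPolynomial (Fin 3) ℂ}
  {b : Fin r → Fin 3 → ℂ} {c : ℂ} {t : Fin 3 → Kf} {Sec : (Fin 3 → ℂ) → Kf → Prop} {j : Fin r}
  {x y z : MvPolynomial (Fin 3) ℂ}

/-- A local solution for a global function `T` gives a global solution. -/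
theorem globalize {b : Fin 3 → ℂ} (hC : Crd b x y z) {κ : ℤ} {e : MvPolynomial (Fin 3) ℂ}
    (he : ∃ l, e.IsHomogeneous l) (e0 : eval b e ≠ 0) {T a : Kf} (hT : Hk κ T) (ha : Hk κ a)
    (hTr : ∀ q, eval q y ≠ 0 → eval q z ≠ 0 → RegAt q T)
    (h1 : ∀ q, eval q z ≠ 0 → eval q e ≠ 0 → RegAt q a)
    (h2 : ∀ q, eval q y ≠ 0 → eval q e ≠ 0 → RegAt q (a - T)) :
    ∃ A, Hk κ A ∧ (∀ q, eval q z ≠ 0 → RegAt q A) ∧ ∀ q, eval q y ≠ 0 → RegAt q (A - T) := by
  obtain ⟨A, hA, hA'⟩ := cousin (κ := κ) (ι := Fin 3) ![z, y, e]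
    (by
      intro i
      fin_cases i
      · exact ⟨1, hC.hz⟩
      · exact ⟨1, hC.hy⟩
      · exact he)
    ![0, T, a]
    (by
      intro i
      fin_cases i
      · exact Hk.zero _
      · exact hT
      · exact ha)
    (by
      intro q hq
      by_cases hz : eval q z = 0
      · by_cases hy : eval q y = 0
        · obtain ⟨c', rfl⟩ := hC.yz q hy hz
          refine ⟨2, ?_⟩
          obtain ⟨l, hl⟩ := he
          change eval (c' • b) e ≠ 0
          rw [GlobAux.eval_smul hl]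
          refine mul_ne_zero (pow_ne_zero _ ?_) e0
          rintro rfl
          exact hq (zero_smul _ _)
        · exact ⟨1, hy⟩
      · exact ⟨0, hz⟩)
    (by
      have key : ∀ i k : Fin 3, i < k → ∀ q, eval q (![z, y, e] i) ≠ 0 →
          eval q (![z, y, e] k) ≠ 0 → RegAt q (![0, T, a] i - ![0, T, a] k) := by
        intro i k hik q hi hk
        fin_cases i <;> fin_cases k <;> first
          | exact absurd hik (by decide)
          | skip
        · change RegAt q (0 - T)
          rw [zero_sub]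
          exact (hTr q hk hi).neg
        · change RegAt q (0 - a)
          rw [zero_sub]
          exact (h1 q hi hk).neg
        · change RegAt q (T - a)
          rw [← neg_sub]
          exact (h2 q hi hk).neg
      intro i k q hi hk
      rcases lt_trichotomy i k with h | h | h
      · exact key i k h q hi hk
      · rw [h, sub_self]
        exact RegAt.zero q
      · rw [← neg_sub]
        exact (key k i h q hk hi).neg)
  refine ⟨A, hA, fun q hq => ?_, fun q hq => hA' 1 q hq⟩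
  have h3 : RegAt q (A - 0) := hA' 0 q hq
  rwa [sub_zero] at h3

/-- Points off the lines. -/
theorem offB_of_crd {b : Fin r → Fin 3 → ℂ} {e w : MvPolynomial (Fin 3) ℂ}
    (he : ∃ l, e.IsHomogeneous l) (ei : ∀ i, i ≠ j → eval (b i) e = 0)
    (hw : w.IsHomogeneous 1) (wb : eval (b j) w = 0) {q : Fin 3 → ℂ} (hq : eval q w ≠ 0)
    (hqe : eval q e ≠ 0) : OffB b q := by
  obtain ⟨l, hl⟩ := he
  refine ⟨?_, ?_⟩
  · rintro rfl
    apply hq
    rw [GlobAux.eval_zero_eq hw 0, pow_one, zero_mul]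
  · rintro i c rfl
    by_cases hi : i = j
    · apply hq
      rw [GlobAux.eval_smul hw, hi, wb, mul_zero]
    · apply hqe
      rw [GlobAux.eval_smul hl, ei i hi, mul_zero]

open Loc2Aux in
/-- (N) If `ψ γ_j` comes from a global function and is killed by `y` and `z`, it vanishes. -/
theorem an_of_gt (hS : Sol f v n b c t Sec) (hb : ∀ j, b j ≠ 0) (hC : Crd (b j) x y z) {ψ : Kf}
    (h : GT b Sec j y z (-3) ψ) (hy : AnK b Sec j (-2) (fr y * ψ))
    (hz : AnK b Sec j (-2) (fr z * ψ)) : AnK b Sec j (-3) ψ := by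
  obtain ⟨e, s, T, he, e0, ei, hs, hT, hTr, h1, h2⟩ := h
  have y0 : y ≠ 0 := ne_zero_of_yz hC.hz hC.yz
  have z0 : z ≠ 0 := ne_zero_of_yz hC.hy fun q a1 a2 => hC.yz q a2 a1
  have fy := fr_ne_zero y0
  have fz := fr_ne_zero z0
  have key : ∀ w : MvPolynomial (Fin 3) ℂ, w.IsHomogeneous 1 → AnK b Sec j (-2) (fr w * ψ) →
      ∃ A, Hk (-2) A ∧ (∀ q, eval q z ≠ 0 → RegAt q A) ∧
        ∀ q, eval q y ≠ 0 → RegAt q (A - fr w * T) := by
    intro w hw hAn
    obtain ⟨e', s', he', e0', ei', hs', hr'⟩ := hAn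
    have hee : ∃ l, (e * e').IsHomogeneous l := by
      obtain ⟨l, hl⟩ := he
      obtain ⟨l', hl'⟩ := he'
      exact ⟨_, hl.mul hl'⟩
    have hei : ∀ i, i ≠ j → eval (b i) (e * e') = 0 := by
      intro i hi
      rw [map_mul, ei i hi, zero_mul]
    have hkw : Hk (-2) (fr w * T) := by
      have a1 := (Hk.fr hw).mul hT
      have a2 : ((1 : ℕ) : ℤ) + -3 = -2 := by norm_num
      rwa [a2] at a1
    have hks : Hk (-2) (s' - fr w * s) := by
      have a1 := (Hk.fr hw).mul hs
      have a2 : ((1 : ℕ) : ℤ) + -3 = -2 := by norm_num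
      rw [a2] at a1
      exact hs'.sub a1
    refine globalize hC hee (by rw [map_mul]; exact mul_ne_zero e0 e0') hkw hks
      (fun q q1 q2 => (RegAt.fr q w).mul (hTr q q1 q2)) (fun q q1 q2 => ?_) (fun q q1 q2 => ?_)
    · have hoff := offB_of_crd hee hei hC.hz hC.zb q1 q2
      rw [map_mul] at q2
      obtain ⟨G, hG⟩ := exists_sec hb hS hoff
      have a1 := ((RegAt.fr q w).mul (h1 q G q1 (left_ne_zero_of_mul q2) hoff hG)).sub
        (hr' q G (right_ne_zero_of_mul q2) hoff hG)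
      have a2 : s' - fr w * s = fr w * (ψ * G - s) - (fr w * ψ * G - s') := by ring
      rw [a2]
      exact a1
    · have hoff := offB_of_crd hee hei hC.hy hC.yb q1 q2
      rw [map_mul] at q2
      obtain ⟨G, hG⟩ := exists_sec hb hS hoff
      have a1 := ((RegAt.fr q w).mul (h2 q G q1 (left_ne_zero_of_mul q2) hoff hG)).sub
        (hr' q G (right_ne_zero_of_mul q2) hoff hG)
      have a2 : s' - fr w * s - fr w * T = fr w * (ψ * G - s - T) - (fr w * ψ * G - s') := by
        ring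
      rw [a2]
      exact a1
  obtain ⟨A₁, k1, r1, r1'⟩ := key y hC.hy hy
  obtain ⟨A₂, k2, r2, r2'⟩ := key z hC.hz hz
  have hrel : fr z * A₁ = fr y * A₂ := by
    obtain ⟨p, hp⟩ : ∃ p, fr z * A₁ - fr y * A₂ = fr p := by
      refine hartogs_offB (r := 1) (b := fun _ => b j) (fun _ => hb j) fun q hq => ?_
      by_cases hz' : eval q z = 0
      · have hy' : eval q y ≠ 0 := by
          intro hy'
          obtain ⟨c', hc'⟩ := hC.yz q hy' hz'
          exact hq.2 0 c' hc'
        have a1 := ((RegAt.fr q z).mul (r1' q hy')).sub ((RegAt.fr q y).mul (r2' q hy'))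
        have a2 : fr z * A₁ - fr y * A₂ =
            fr z * (A₁ - fr y * T) - fr y * (A₂ - fr z * T) := by ring
        rw [a2]
        exact a1
      · exact ((RegAt.fr q z).mul (r1 q hz')).sub ((RegAt.fr q y).mul (r2 q hz'))
    have hp0 : p = 0 := by
      by_contra hp0
      have a1 : Hk (((1 : ℕ) : ℤ) + -2) (fr p) := by
        rw [← hp]
        exact ((Hk.fr hC.hz).mul k1).sub ((Hk.fr hC.hy).mul k2)
      obtain ⟨m', hm', -⟩ := isHomogeneous_of_hk hp0 a1
      omega
    rw [hp0, map_zero] at hp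
    exact sub_eq_zero.1 hp
  have hA : Hk (-3) (A₁ * (fr y)⁻¹) := by
    have a1 := k1.mul (Hk.fr hC.hy).inv
    have a2 : (-2 : ℤ) + -((1 : ℕ) : ℤ) = -3 := by norm_num
    rwa [a2] at a1
  refine ⟨e, s + A₁ * (fr y)⁻¹, he, e0, ei, hs.add hA, fun q G q1 q2 q3 => ?_⟩
  by_cases hz' : eval q z = 0
  · have hy' : eval q y ≠ 0 := by
      intro hy'
      obtain ⟨c', hc'⟩ := hC.yz q hy' hz'
      exact q2.2 j c' hc'
    have a1 : RegAt q (A₁ * (fr y)⁻¹ - T) := by
      refine RegAt.of_mul hy' ?_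
      have a2 : (A₁ * (fr y)⁻¹ - T) * fr y = A₁ - fr y * T := by
        rw [sub_mul, mul_assoc, inv_mul_cancel₀ fy]
        ring
      rw [a2]
      exact r1' q hy'
    have a3 := (h2 q G hy' q1 q2 q3).sub a1
    have a4 : ψ * G - (s + A₁ * (fr y)⁻¹) = ψ * G - s - T - (A₁ * (fr y)⁻¹ - T) := by ring
    rw [a4]
    exact a3
  · have a1 : RegAt q (A₁ * (fr y)⁻¹) := by
      refine RegAt.of_mul hz' ?_
      have a2 : A₁ * (fr y)⁻¹ * fr z = A₂ := by
        rw [mul_right_comm, mul_comm A₁, hrel, mul_comm (fr y), mul_assoc, mul_inv_cancel₀ fy,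
          mul_one]
      rw [a2]
      exact r2 q hz'
    have a3 := (h1 q G hz' q1 q2 q3).sub a1
    have a4 : ψ * G - (s + A₁ * (fr y)⁻¹) = ψ * G - s - A₁ * (fr y)⁻¹ := by ring
    rw [a4]
    exact a3

end MPb07157.O4
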