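import Pool.Agent.Lib.MP_b07157_agO4.GD
import Pool.Agent.Lib.MP_b07157_agB2.Cous

/-!
# Forms in the ideal of powers of three linear forms
-/

noncomputable section

namespace MPb07157.O4

open MvPolynomial MPb07157Q
open MPb07157.OK

variable {b : Fin 3 → ℂ} {x y z : MvPolynomial (Fin 3) ℂ}

namespace GPaux

/-- A linear form is determined by its values at the unit vectors. -/
theorem lin_eq {L : MvPolynomial (Fin 3) ℂ} (hL : L.IsHomogeneous 1) :
    L = ∑ j, C (eval (Pi.single j 1) L) * X j := by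
  obtain ⟨c, hc⟩ : ∃ c : Fin 3 → ℂ, L = ∑ j, C (c j) * X j := by
    refine ⟨fun j => coeff (Finsupp.single j 1) L, ?_⟩
    ext m
    rw [coeff_sum]
    simp only [coeff_C_mul, coeff_X]
    by_cases h : m.degree = 1
    · obtain ⟨j, rfl⟩ : ∃ j, m = Finsupp.single j 1 := by
        rw [Finsupp.degree_eq_sum, Fin.sum_univ_three] at h
        have h3 : (m 0 = 1 ∧ m 1 = 0 ∧ m 2 = 0) ∨ (m 0 = 0 ∧ m 1 = 1 ∧ m 2 = 0) ∨
            (m 0 = 0 ∧ m 1 = 0 ∧ m 2 = 1) := by omega
        rcases h3 with ⟨h0, h1, h2⟩ | ⟨h0, h1, h2⟩ | ⟨h0, h1, h2⟩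
        · refine ⟨0, ?_⟩
          ext i
          fin_cases i <;> simp [h0, h1, h2]
        · refine ⟨1, ?_⟩
          ext i
          fin_cases i <;> simp [h0, h1, h2]
        · refine ⟨2, ?_⟩
          ext i
          fin_cases i <;> simp [h0, h1, h2]
      rw [Finset.sum_eq_single j]
      · simp
      · intro i _ hi
        rw [if_neg, mul_zero]
        intro h2
        exact hi (Finsupp.single_left_injective one_ne_zero h2)
      · intro h
        exact absurd (Finset.mem_univ _) h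
    · rw [hL.coeff_eq_zero h]
      symm
      refine Finset.sum_eq_zero fun j _ => ?_
      rw [if_neg, mul_zero]
      rintro rfl
      exact h (by simp)
  conv_lhs => rw [hc]
  refine Finset.sum_congr rfl fun j _ => ?_
  congr 2
  rw [hc, map_sum, Finset.sum_eq_single j]
  · simp
  · intro i _ hi
    simp [hi]
  · intro h
    exact absurd (Finset.mem_univ _) h

/-- Divide by a power of a variable. -/
theorem mon_split {D : ℕ} {F : MvPolynomial (Fin 3) ℂ} (hF : F.IsHomogeneous D) (i : Fin 3)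
    (K : ℕ) :
    ∃ G R : MvPolynomial (Fin 3) ℂ, G.IsHomogeneous (D - K) ∧ R.IsHomogeneous D ∧
      F = X i ^ K * G + R ∧ (D < K → G = 0) ∧ ∀ m ∈ R.support, m ∈ F.support ∧ m i < K := by
  have hdeg : ∀ m, coeff m F ≠ 0 → m.degree = D := by
    intro m hm
    by_contra h
    exact hm (hF.coeff_eq_zero h)
  have hG : ∀ m, coeff m (F.divMonomial (Finsupp.single i K)) ≠ 0 → m.degree + K = D := by
    intro m hm
    rw [coeff_divMonomial] at hm
    have h1 := hdeg _ hm
    rw [map_add, Finsupp.degree_single] at h1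
    omega
  have hR : ∀ m, coeff m (F.modMonomial (Finsupp.single i K)) ≠ 0 → coeff m F ≠ 0 ∧ m i < K := by
    intro m hm
    by_cases hle : Finsupp.single i K ≤ m
    · exact absurd (coeff_modMonomial_of_le _ hle) hm
    · rw [coeff_modMonomial_of_not_le _ hle] at hm
      refine ⟨hm, ?_⟩
      by_contra hlt
      push Not at hlt
      apply hle
      rw [Finsupp.single_le_iff]
      exact hlt
  refine ⟨F.divMonomial (Finsupp.single i K), F.modMonomial (Finsupp.single i K), ?_, ?_, ?_, ?_, ?_⟩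
  · intro m hm
    have := hG m hm
    rw [Finsupp.degree_eq_weight_one] at this
    exact Nat.eq_sub_of_add_eq this
  · intro m hm
    have := hdeg m (hR m hm).1
    rw [Finsupp.degree_eq_weight_one] at this
    exact this
  · rw [X_pow_eq_monomial]
    exact (divMonomial_add_modMonomial F _).symm
  · intro hlt
    ext m
    rw [coeff_zero]
    by_contra hm
    have := hG m hm
    omega
  · intro m hm
    have := hR m (mem_support_iff.1 hm)
    exact ⟨mem_support_iff.2 this.1, this.2⟩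

end GPaux

/-- (P0) Every form is a form in `x`, `y`, `z`.

Proof. `x`, `y`, `z` are linear forms without common zero except `0` (`hC.yz`, `hC.xb`), so they are
linearly independent and the `X i` are linear combinations of them (`X i = α x + β y + γ z`);
substitute in `F`. -/
theorem exists_form (hC : Crd b x y z) {D : ℕ} {F : MvPolynomial (Fin 3) ℂ}
    (hF : F.IsHomogeneous D) :
    ∃ F' : MvPolynomial (Fin 3) ℂ, F'.IsHomogeneous D ∧ F = aeval ![x, y, z] F' := by
  set v : Fin 3 → MvPolynomial (Fin 3) ℂ := ![x, y, z] with hv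
  have hv1 : ∀ i, (v i).IsHomogeneous 1 := by
    intro i
    fin_cases i
    · exact hC.hx
    · exact hC.hy
    · exact hC.hz
  set A : Matrix (Fin 3) (Fin 3) ℂ := fun i j => eval (Pi.single j 1) (v i) with hA
  have hvA : ∀ i, v i = ∑ j, C (A i j) * X j := fun i => GPaux.lin_eq (hv1 i)
  have hmul : ∀ q, A.mulVec q = fun i => eval q (v i) := by
    intro q
    funext i
    rw [hvA i, map_sum]
    simp only [Matrix.mulVec, dotProduct, map_mul, eval_C, eval_X]
  have hinj : Function.Injective A.mulVec := by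
    rw [← Matrix.coe_mulVecLin, ← LinearMap.ker_eq_bot, LinearMap.ker_eq_bot']
    intro q hq
    rw [Matrix.mulVecLin_apply, hmul] at hq
    have h0 := congrFun hq 0
    have h1 := congrFun hq 1
    have h2 := congrFun hq 2
    simp only [hv, Matrix.cons_val_zero, Matrix.cons_val_one, Matrix.cons_val, Pi.zero_apply]
      at h0 h1 h2
    obtain ⟨c, rfl⟩ := hC.yz q h1 h2
    have h3 : eval (c • b) x = c * eval b x := by
      have h4 := HarAux.eval_smul_hom hC.hx c b
      rwa [pow_one] at h4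
    rw [h3] at h0
    rw [(mul_eq_zero.1 h0).resolve_right hC.xb, zero_smul]
  have hunit : IsUnit A := Matrix.mulVec_injective_iff_isUnit.1 hinj
  obtain ⟨u, hu⟩ := hunit
  set B : Matrix (Fin 3) (Fin 3) ℂ := (↑u⁻¹ : Matrix (Fin 3) (Fin 3) ℂ) with hB
  have hBA : B * A = 1 := by rw [hB, ← hu, Units.inv_mul]
  have hX : ∀ k, (X k : MvPolynomial (Fin 3) ℂ) = ∑ i, C (B k i) * v i := by
    intro k
    have h1 : ∀ i, C (B k i) * v i = ∑ j, C (B k i * A i j) * X j := by
      intro i
      conv_lhs => rw [hvA i]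
      rw [Finset.mul_sum]
      refine Finset.sum_congr rfl fun j _ => ?_
      rw [map_mul]
      ring
    rw [Finset.sum_congr rfl fun i _ => h1 i, Finset.sum_comm]
    have h2 : ∀ j, ∑ i, C (B k i * A i j) * (X j : MvPolynomial (Fin 3) ℂ) =
        if j = k then X j else 0 := by
      intro j
      rw [← Finset.sum_mul, ← map_sum]
      have h3 := congrFun (congrFun hBA k) j
      rw [Matrix.mul_apply, Matrix.one_apply] at h3
      rw [h3]
      split_ifs with h4 h5 h5
      · rw [map_one, one_mul]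
      · exact absurd h4.symm h5
      · exact absurd h5.symm h4
      · rw [map_zero, zero_mul]
    rw [Finset.sum_congr rfl fun j _ => h2 j, Finset.sum_ite_eq', if_pos (Finset.mem_univ _)]
  refine ⟨aeval (fun k => ∑ i, C (B k i) * X i) F, ?_, ?_⟩
  · have h := hF.aeval (fun k => ∑ i, C (B k i) * X i) (n := 1) fun k =>
      IsHomogeneous.sum _ _ _ fun i _ => (isHomogeneous_X ℂ i).C_mul (B k i)
    rwa [one_mul] at h
  · have h : ((aeval v : MvPolynomial (Fin 3) ℂ →ₐ[ℂ] MvPolynomial (Fin 3) ℂ).comp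
        (aeval fun k => ∑ i, C (B k i) * X i)) = AlgHom.id ℂ _ := by
      apply MvPolynomial.algHom_ext
      intro k
      rw [AlgHom.comp_apply, aeval_X, map_sum, AlgHom.id_apply]
      rw [hX k]
      refine Finset.sum_congr rfl fun i _ => ?_
      rw [map_mul, aeval_X, aeval_C]
      rfl
    exact (congrArg (fun φ : MvPolynomial (Fin 3) ℂ →ₐ[ℂ] MvPolynomial (Fin 3) ℂ => φ F)
      h).symm

namespace GPaux

/-- Pigeonhole for forms in the variables. -/
theorem pigeon_X {D K M : ℕ} (hD : K + 2 * M ≤ D + 2)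
    {F : MvPolynomial (Fin 3) ℂ} (hF : F.IsHomogeneous D) :
    ∃ F₁ F₂ F₃ : MvPolynomial (Fin 3) ℂ, F₁.IsHomogeneous (D - K) ∧ F₂.IsHomogeneous (D - M) ∧
      F₃.IsHomogeneous (D - M) ∧ F = X 0 ^ K * F₁ + X 1 ^ M * F₂ + X 2 ^ M * F₃ ∧
      (D < K → F₁ = 0) ∧ (D < M → F₂ = 0) ∧ (D < M → F₃ = 0) := by
  obtain ⟨F₁, R₁, h1, h1', h1e, h1z, h1s⟩ := mon_split hF 0 K
  obtain ⟨F₂, R₂, h2, h2', h2e, h2z, h2s⟩ := mon_split h1' 1 M
  obtain ⟨F₃, R₃, h3, h3', h3e, h3z, h3s⟩ := mon_split h2' 2 M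
  have hR : R₃ = 0 := by
    ext m
    rw [coeff_zero]
    by_contra hm
    have e1 := h3s m (mem_support_iff.2 hm)
    have e2 := h2s m e1.1
    have e3 := h1s m e2.1
    have hd : m.degree = D := by
      by_contra h
      exact hm (h3'.coeff_eq_zero h)
    rw [Finsupp.degree_eq_sum, Fin.sum_univ_three] at hd
    have := e1.2
    have := e2.2
    have := e3.2
    omega
  refine ⟨F₁, F₂, F₃, h1, h2, h3, ?_, h1z, h2z, h3z⟩
  rw [h1e, h2e, h3e, hR]
  ring

theorem aeval_hom (hC : Crd b x y z) {D : ℕ} {F : MvPolynomial (Fin 3) ℂ}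
    (hF : F.IsHomogeneous D) : (aeval ![x, y, z] F : MvPolynomial (Fin 3) ℂ).IsHomogeneous D := by
  have h := hF.aeval (![x, y, z] : Fin 3 → MvPolynomial (Fin 3) ℂ) (n := 1) fun i => by
    fin_cases i
    · exact hC.hx
    · exact hC.hy
    · exact hC.hz
  rwa [one_mul] at h

end GPaux

/-- (P1) A form of degree `D ≥ K + 2 M - 2` is in the ideal `(x ^ K, y ^ M, z ^ M)`.

Proof. By P0 it is a sum of monomials `c x ^ i y ^ j z ^ l`, `i + j + l = D`, and `i ≥ K` or
`j ≥ M` or `l ≥ M`. -/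
theorem pigeon (hC : Crd b x y z) {D K M : ℕ} (hD : K + 2 * M ≤ D + 2)
    {F : MvPolynomial (Fin 3) ℂ} (hF : F.IsHomogeneous D) :
    ∃ F₁ F₂ F₃ : MvPolynomial (Fin 3) ℂ, F₁.IsHomogeneous (D - K) ∧ F₂.IsHomogeneous (D - M) ∧
      F₃.IsHomogeneous (D - M) ∧ F = x ^ K * F₁ + y ^ M * F₂ + z ^ M * F₃ ∧
      (D < K → F₁ = 0) ∧ (D < M → F₂ = 0) ∧ (D < M → F₃ = 0) := by
  obtain ⟨F', hF', rfl⟩ := exists_form hC hF
  obtain ⟨F₁, F₂, F₃, h1, h2, h3, he, z1, z2, z3⟩ := GPaux.pigeon_X hD hF'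
  refine ⟨aeval ![x, y, z] F₁, aeval ![x, y, z] F₂, aeval ![x, y, z] F₃,
    GPaux.aeval_hom hC h1, GPaux.aeval_hom hC h2, GPaux.aeval_hom hC h3, ?_, ?_, ?_, ?_⟩
  · conv_lhs => rw [he]
    simp only [map_add, map_mul, map_pow, aeval_X, Matrix.cons_val_zero, Matrix.cons_val_one,
      Matrix.cons_val]
  · intro h
    rw [z1 h, map_zero]
  · intro h
    rw [z2 h, map_zero]
  · intro h
    rw [z3 h, map_zero]

namespace GPaux

/-- A form which vanishes at `b` is in the ideal `(y, z)`. -/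
theorem mem_yz (hC : Crd b x y z) {D : ℕ} {F : MvPolynomial (Fin 3) ℂ}
    (hF : F.IsHomogeneous D) (hb : eval b F = 0) :
    ∃ G H : MvPolynomial (Fin 3) ℂ, F = y * G + z * H := by
  obtain ⟨F', hF', rfl⟩ := exists_form hC hF
  obtain ⟨G, R, -, h1', h1e, -, h1s⟩ := mon_split hF' 1 1
  obtain ⟨H, S, -, h2', h2e, -, h2s⟩ := mon_split h1' 2 1
  have hS : S = C (coeff (Finsupp.single 0 D) S) * X 0 ^ D := by
    ext m
    rw [X_pow_eq_monomial, coeff_C_mul, coeff_monomial]
    split_ifs with h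
    · rw [mul_one, h]
    · rw [mul_zero]
      by_contra hm
      have e1 := h2s m (mem_support_iff.2 hm)
      have e2 := h1s m e1.1
      have hd : m.degree = D := by
        by_contra h
        exact hm (h2'.coeff_eq_zero h)
      rw [Finsupp.degree_eq_sum, Fin.sum_univ_three] at hd
      have e3 := e1.2
      have e4 := e2.2
      apply h
      ext i
      fin_cases i
      · simp
        omega
      · simp
        omega
      · simp
        omega
  have he : (aeval ![x, y, z] F' : MvPolynomial (Fin 3) ℂ) =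
      y * aeval ![x, y, z] G + z * aeval ![x, y, z] H +
        C (coeff (Finsupp.single 0 D) S) * x ^ D := by
    conv_lhs => rw [h1e, h2e, hS]
    simp only [map_add, map_mul, map_pow, aeval_X, Matrix.cons_val_zero, Matrix.cons_val_one,
      Matrix.cons_val, pow_one, aeval_C, algebraMap_eq]
    ring
  have hc : coeff (Finsupp.single 0 D) S = 0 := by
    rw [he, map_add, map_add, map_mul, map_mul, hC.yb, hC.zb, zero_mul, zero_mul, zero_add,
      zero_add, map_mul, eval_C, map_pow] at hb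
    exact (mul_eq_zero.1 hb).resolve_right (pow_ne_zero _ hC.xb)
  refine ⟨aeval ![x, y, z] G, aeval ![x, y, z] H, ?_⟩
  rw [he, hc, C_0, zero_mul, add_zero]

theorem hc_mul_left {n : ℕ} {q : MvPolynomial (Fin 3) ℂ} (hq : q.IsHomogeneous n)
    (p : MvPolynomial (Fin 3) ℂ) (m : ℕ) :
    homogeneousComponent (n + m) (q * p) = q * homogeneousComponent m p := by
  rw [mul_comm q p, add_comm, CousAux.hc_mul hq, mul_comm]

end GPaux

/-- (P2) The power `e ^ M` of a form with `e b ≠ 0` divides `x ^ K` modulo `(y ^ M, z ^ M)`.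

Proof. Put `e' = e ^ M`, of degree `m' = m M`, `ξ = e' b / (x b) ^ m'`, `ρ = ξ x ^ m' - e'`. Then
`ρ b = 0`, so the coefficient of `x ^ m'` in `ρ` (P0) vanishes and `ρ` is in the ideal `(y, z)`,
`ρ ^ (2 M)` is in `(y ^ M, z ^ M)`, and `e'` divides `(ξ x ^ m') ^ (2 M) - ρ ^ (2 M)`
(`sub_dvd_pow_sub_pow`). All quotients are forms (or take homogeneous components). -/
theorem approx_inv (hC : Crd b x y z) {m : ℕ} {e : MvPolynomial (Fin 3) ℂ}
    (he : e.IsHomogeneous m) (heb : eval b e ≠ 0) (M : ℕ) :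
    ∃ (u ρ₁ ρ₂ : MvPolynomial (Fin 3) ℂ) (c : ℂ) (K l : ℕ), c ≠ 0 ∧ M ≤ K ∧ m * M + l = K ∧
      u.IsHomogeneous l ∧ ρ₁.IsHomogeneous (K - M) ∧ ρ₂.IsHomogeneous (K - M) ∧
      e ^ M * u = C c * x ^ K + y ^ M * ρ₁ + z ^ M * ρ₂ := by
  set m' : ℕ := m * M with hm'
  have he' : (e ^ M).IsHomogeneous m' := he.pow M
  set ξ : ℂ := eval b (e ^ M) / eval b x ^ m' with hξ
  have hξ0 : ξ ≠ 0 := by
    rw [hξ, map_pow]
    exact div_ne_zero (pow_ne_zero _ heb) (pow_ne_zero _ hC.xb)
  have hxm : (x ^ m').IsHomogeneous m' := by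
    have := hC.hx.pow m'
    rwa [one_mul] at this
  set ρ : MvPolynomial (Fin 3) ℂ := C ξ * x ^ m' - e ^ M with hρ
  have hρh : ρ.IsHomogeneous m' := (hxm.C_mul ξ).sub he'
  have hρb : eval b ρ = 0 := by
    rw [hρ, map_sub, map_mul, eval_C, map_pow (eval b) x, hξ, div_mul_cancel₀, sub_self]
    exact pow_ne_zero _ hC.xb
  obtain ⟨G, H, hGH⟩ := GPaux.mem_yz hC hρh hρb
  obtain ⟨A, B, hAB⟩ : ∃ A B : MvPolynomial (Fin 3) ℂ, A * y ^ M + B * z ^ M = ρ ^ (2 * M) := by
    rw [← Ideal.mem_span_pair, hGH]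
    refine Ideal.add_pow_mem_of_pow_mem_of_le (m := M) (n := M) _ ?_ ?_ (by omega)
    · rw [mul_pow]
      exact Ideal.mul_mem_right _ _ (Ideal.subset_span (by simp))
    · rw [mul_pow]
      exact Ideal.mul_mem_right _ _ (Ideal.subset_span (by simp))
  obtain ⟨u₀, hu₀⟩ : e ^ M ∣ (C ξ * x ^ m') ^ (2 * M) - ρ ^ (2 * M) := by
    have h := sub_dvd_pow_sub_pow (C ξ * x ^ m') ρ (2 * M)
    rwa [hρ, sub_sub_cancel] at h
  set K : ℕ := m' * (2 * M) + M with hK
  have hmK : m' ≤ K := by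
    rcases Nat.eq_zero_or_pos M with h | h
    · rw [hm', h, mul_zero]
      exact Nat.zero_le _
    · have : m' * 1 ≤ m' * (2 * M) := Nat.mul_le_mul_left _ (by omega)
      omega
  obtain ⟨l, hl⟩ := Nat.exists_eq_add_of_le hmK
  have hy : (y ^ M).IsHomogeneous M := by
    have := hC.hy.pow M
    rwa [one_mul] at this
  have hz : (z ^ M).IsHomogeneous M := by
    have := hC.hz.pow M
    rwa [one_mul] at this
  have hxM : (x ^ M).IsHomogeneous M := by
    have := hC.hx.pow M
    rwa [one_mul] at this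
  have hxK : (C (ξ ^ (2 * M)) * x ^ K).IsHomogeneous K := by
    have := hC.hx.pow K
    rw [one_mul] at this
    exact this.C_mul _
  have hρK : (ρ ^ (2 * M) * x ^ M).IsHomogeneous K := (hρh.pow _).mul hxM
  have key : e ^ M * (u₀ * x ^ M) = C (ξ ^ (2 * M)) * x ^ K - ρ ^ (2 * M) * x ^ M := by
    rw [← mul_assoc, ← hu₀, sub_mul, mul_pow, ← pow_mul, ← C_pow, mul_assoc, ← pow_add, ← hK]
  have key2 : ρ ^ (2 * M) * x ^ M = y ^ M * homogeneousComponent (K - M) (A * x ^ M) +
      z ^ M * homogeneousComponent (K - M) (B * x ^ M) := by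
    have hMK : M + (K - M) = K := by omega
    rw [← GPaux.hc_mul_left hy, ← GPaux.hc_mul_left hz, ← map_add, hMK]
    have h1 : y ^ M * (A * x ^ M) + z ^ M * (B * x ^ M) = ρ ^ (2 * M) * x ^ M := by
      rw [← hAB]
      ring
    rw [h1, homogeneousComponent_of_mem hρK, if_pos rfl]
  refine ⟨homogeneousComponent l (u₀ * x ^ M), -homogeneousComponent (K - M) (A * x ^ M),
    -homogeneousComponent (K - M) (B * x ^ M), ξ ^ (2 * M), K, l, pow_ne_zero _ hξ0, by omega,
    hl.symm, homogeneousComponent_isHomogeneous _ _, (homogeneousComponent_isHomogeneous _ _).neg,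
    (homogeneousComponent_isHomogeneous _ _).neg, ?_⟩
  rw [← GPaux.hc_mul_left he', key, ← hl, homogeneousComponent_of_mem (hxK.sub hρK), if_pos rfl,
    key2]
  ring

end MPb07157.O4
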