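import Pool.Agent.Lib.MP_b07157_agO4.GP
import Pool.Agent.Lib.MP_b07157_agO4.GX
import Pool.Agent.Lib.MP_b07157_agB2.Loc2

/-!
# Classes of degree `-2`
-/

noncomputable section

namespace MPb07157.O4

open MvPolynomial MPb07157Q
open MPb07157.OK
open MPb07157.O3 (An)

variable {r n : ℕ} {f : MvPolynomial (Fin 3) ℂ} {v : Fin 3 → MvPolynomial (Fin 3) ℂ}
  {b : Fin r → Fin 3 → ℂ} {c : ℂ} {t : Fin 3 → Kf} {Sec : (Fin 3 → ℂ) → Kf → Prop} {j : Fin r}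
  {x y z : MvPolynomial (Fin 3) ℂ}

/-- The identity behind `gt_all`. -/
private theorem gy_id {K : Type} [Field K] {W A U F1 F2 F3 R1 R2 c P Q G S : K} (hc : c ≠ 0)
    (hP : P ≠ 0) (hQ : Q ≠ 0) (hG : G ≠ 0) (hS : S ≠ 0) (h1 : W * (P * Q * G) = A)
    (h2 : A * U = S * F1 + P * F2 + Q * F3) (h3 : G * U = c * S + P * R1 + Q * R2) :
    W = F1 * (c * (P * Q))⁻¹ + (F2 * (c * Q * S)⁻¹ - A * R1 * (c * Q * G * S)⁻¹) +
      (F3 * (c * P * S)⁻¹ - A * R2 * (c * P * G * S)⁻¹) := by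
  have hN : c * P * Q * G * S ≠ 0 := by
    simp only [ne_eq, mul_eq_zero, not_or]
    exact ⟨⟨⟨⟨hc, hP⟩, hQ⟩, hG⟩, hS⟩
  apply mul_right_cancel₀ hN
  have e1 : F1 * (c * (P * Q))⁻¹ * (c * P * Q * G * S) = F1 * G * S := by
    field_simp
  have e2 : F2 * (c * Q * S)⁻¹ * (c * P * Q * G * S) = F2 * P * G := by
    field_simp
  have e3 : A * R1 * (c * Q * G * S)⁻¹ * (c * P * Q * G * S) = A * R1 * P := by
    field_simp
  have e4 : F3 * (c * P * S)⁻¹ * (c * P * Q * G * S) = F3 * Q * G := by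
    field_simp
  have e5 : A * R2 * (c * P * G * S)⁻¹ * (c * P * Q * G * S) = A * R2 * Q := by
    field_simp
  rw [add_mul, add_mul, sub_mul, sub_mul, e1, e2, e3, e4, e5]
  linear_combination (c * S) * h1 + G * h2 - A * h3

private theorem gy_reg {q : Fin 3 → ℂ} {p b : MvPolynomial (Fin 3) ℂ} (hb : eval q b ≠ 0) :
    RegAt q (fr p * (fr b)⁻¹) := by
  have hb0 : b ≠ 0 := by
    rintro rfl
    exact hb (map_zero _)
  refine RegAt.of_mul hb ?_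
  rw [mul_assoc, inv_mul_cancel₀ (fr_ne_zero hb0), mul_one]
  exact RegAt.fr q p

private theorem gy_hk {k l : ℤ} {p b : MvPolynomial (Fin 3) ℂ} {m : ℕ} (hp : Hk k (fr p))
    (hb : b.IsHomogeneous m) (hl : k - m = l) : Hk l (fr p * (fr b)⁻¹) := by
  have h1 := hp.mul (Hk.fr hb).inv
  rwa [← sub_eq_add_neg, hl] at h1

/-- (X3) All classes of degree `-2` come from global functions.

Proof. `X1` with `ε`. The function `ψ (g₁ - g₂)` is regular where `y z e ≠ 0` and has degree `-2`,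
so `ψ (g₁ - g₂) fr ((y z) ^ M e ^ M) = fr a` for some `M ≥ 1` (`RgA.exists_pow`; a common power)
and `a = 0` or `a` is a form of degree `2 M + m M - 2`. `P2`: `e ^ M u = c x ^ K + y ^ M ρ₁ + z ^ M ρ₂`.
`a u` has degree `K + 2 M - 2`; `P1`: `a u = x ^ K F₁ + y ^ M F₂ + z ^ M F₃`. So, dividing by
`c (y z) ^ M e ^ M x ^ K`:
`a / ((y z) ^ M e ^ M) = a u / (c (y z) ^ M x ^ K) - a (y ^ M ρ₁ + z ^ M ρ₂) / (c (y z) ^ M e ^ M x ^ K)
  = F₁ / (c (y z) ^ M) + r_z + r_y`,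
`r_z := F₂ / (c z ^ M x ^ K) - a ρ₁ / (c z ^ M e ^ M x ^ K)` regular where `z e ≠ 0` (`x ∣ e`),
`r_y := F₃ / (c y ^ M x ^ K) - a ρ₂ / (c y ^ M e ^ M x ^ K)` regular where `y e ≠ 0`.
`T := F₁ / (c (y z) ^ M)`, `s := ψ g₂ + r_z`: where `z e ≠ 0`, `ψ G - s = ψ (G - g₂) - r_z`; where
`y e ≠ 0`, `ψ G - s - T = ψ (G - g₁) + r_y`. -/
theorem gt_all (hS : Sol f v n b c t Sec) (hb : ∀ j, b j ≠ 0)
    (hbb : ∀ i j, i ≠ j → ∀ c : ℂ, b i ≠ c • b j) (hC : Crd (b j) x y z)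
    {ε : MvPolynomial (Fin 3) ℂ} (hε : ∃ l, ε.IsHomogeneous l) (hε0 : eval (b j) ε ≠ 0) {ψ : Kf}
    (hψ : Hk (n - 5) ψ) (hr : ∀ q, eval q ε ≠ 0 → RegAt q ψ) : GT b Sec j y z (-2) ψ := by
  obtain ⟨e, a₀, g₁, g₂, m, M₀, he, hm, hM₀, hxe, hεe, heb, hei, hg₁, hg₂, hs₁, hs₂, ha₀⟩ :=
    exists_split hS hb hbb hC hε hε0
  have hεq : ∀ q, eval q e ≠ 0 → eval q ε ≠ 0 := by
    intro q hq h0
    obtain ⟨w, hw⟩ := hεe
    apply hq
    rw [hw, map_mul, h0, zero_mul]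
  have hxq : ∀ q, eval q e ≠ 0 → eval q x ≠ 0 := by
    intro q hq h0
    obtain ⟨w, hw⟩ := hxe
    apply hq
    rw [hw, map_mul, h0, zero_mul]
  have y0 : y ≠ 0 := Loc2Aux.ne_zero_of_yz hC.hz hC.yz
  have z0 : z ≠ 0 := Loc2Aux.ne_zero_of_yz hC.hy fun q h1 h2 => hC.yz q h2 h1
  have x0 : x ≠ 0 := by
    rintro rfl
    exact hC.xb (map_zero _)
  have e0 : e ≠ 0 := by
    rintro rfl
    exact heb (map_zero _)
  -- the numerator of `ψ (g₁ - g₂)`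
  have hreg : ∀ q, eval q (y * z * e) ≠ 0 → RegAt q (ψ * (g₁ - g₂)) := by
    intro q hq
    have h1 : eval q e ≠ 0 := by
      rw [map_mul] at hq
      exact right_ne_zero_of_mul hq
    refine (hr q (hεq q h1)).mul (RegAt.of_mul (b := (y * z) ^ M₀ * e ^ M₀) ?_ ?_)
    · rw [← mul_pow, map_pow]
      exact pow_ne_zero _ hq
    · rw [ha₀]
      exact RegAt.fr q a₀
  obtain ⟨M₁, a₁, ha₁⟩ := exists_pow hreg
  obtain ⟨M, a, hM, ha⟩ : ∃ (M : ℕ) (a : MvPolynomial (Fin 3) ℂ), 1 ≤ M ∧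
      ψ * (g₁ - g₂) * fr ((y * z * e) ^ M) = fr a := by
    refine ⟨M₁ + 1, a₁ * (y * z * e), by omega, ?_⟩
    rw [pow_succ, map_mul, ← mul_assoc, ha₁, ← map_mul]
  have hak : Hk ((2 + m) * M - 2) (fr a) := by
    rw [← ha]
    have h1 : ((y * z * e) ^ M).IsHomogeneous ((1 + 1 + m) * M) :=
      ((hC.hy.mul hC.hz).mul he).pow M
    have h2 := (hψ.mul (hg₁.sub hg₂)).mul (Hk.fr h1)
    have e1 : (n : ℤ) - 5 + (3 - n) + (((1 + 1 + m) * M : ℕ) : ℤ) = (2 + m) * M - 2 := by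
      push_cast
      ring
    rwa [e1] at h2
  obtain ⟨u, ρ₁, ρ₂, c', K, l, hc', hMK, hK, hu, hρ₁, hρ₂, hP2⟩ := approx_inv hC he heb M
  -- the three parts
  obtain ⟨F₁, F₂, F₃, hF₁, hF₂, hF₃, hF⟩ : ∃ F₁ F₂ F₃ : MvPolynomial (Fin 3) ℂ,
      Hk (2 * M - 2) (fr F₁) ∧ Hk (K + M - 2) (fr F₂) ∧ Hk (K + M - 2) (fr F₃) ∧
      a * u = x ^ K * F₁ + y ^ M * F₂ + z ^ M * F₃ := by
    by_cases ha0 : a = 0
    · refine ⟨0, 0, 0, ?_, ?_, ?_, ?_⟩
      · rw [map_zero]; exact Hk.zero _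
      · rw [map_zero]; exact Hk.zero _
      · rw [map_zero]; exact Hk.zero _
      · rw [ha0]; ring
    · obtain ⟨da, hda, hah⟩ := isHomogeneous_of_hk ha0 hak
      have hD : ((da + l : ℕ) : ℤ) = K + 2 * M - 2 := by
        have hK' : (m : ℤ) * M + l = K := by exact_mod_cast hK
        push_cast
        rw [hda, ← hK']
        ring
      obtain ⟨F₁, F₂, F₃, h1, h2, h3, h4, -, -, -⟩ :=
        pigeon hC (D := da + l) (K := K) (M := M) (by omega) (hah.mul hu)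
      refine ⟨F₁, F₂, F₃, ?_, ?_, ?_, h4⟩
      · have h5 := Hk.fr h1
        have e1 : (((da + l) - K : ℕ) : ℤ) = 2 * M - 2 := by omega
        rwa [e1] at h5
      · have h5 := Hk.fr h2
        have e1 : (((da + l) - M : ℕ) : ℤ) = K + M - 2 := by omega
        rwa [e1] at h5
      · have h5 := Hk.fr h3
        have e1 : (((da + l) - M : ℕ) : ℤ) = K + M - 2 := by omega
        rwa [e1] at h5
  have hC0 : (C c' : MvPolynomial (Fin 3) ℂ) ≠ 0 := by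
    rw [ne_eq, C_eq_zero]
    exact hc'
  have hCq : ∀ q, eval q (C c' : MvPolynomial (Fin 3) ℂ) ≠ 0 := by
    intro q
    rw [eval_C]
    exact hc'
  have hid := gy_id (W := ψ * (g₁ - g₂)) (A := fr a) (U := fr u) (F1 := fr F₁) (F2 := fr F₂)
    (F3 := fr F₃) (R1 := fr ρ₁) (R2 := fr ρ₂) (c := fr (C c')) (P := fr (y ^ M))
    (Q := fr (z ^ M)) (G := fr (e ^ M)) (S := fr (x ^ K)) (fr_ne_zero hC0)
    (fr_ne_zero (pow_ne_zero _ y0)) (fr_ne_zero (pow_ne_zero _ z0))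
    (fr_ne_zero (pow_ne_zero _ e0)) (fr_ne_zero (pow_ne_zero _ x0))
    (by rw [← map_mul, ← map_mul, ← mul_pow, ← mul_pow]; exact ha)
    (by rw [← map_mul, hF, map_add, map_add, map_mul, map_mul, map_mul])
    (by rw [← map_mul, hP2, map_add, map_add, map_mul, map_mul, map_mul])
  rw [← map_mul fr (y ^ M) (z ^ M), ← map_mul fr (C c') (y ^ M * z ^ M),
    ← map_mul fr (C c') (z ^ M), ← map_mul fr (C c') (y ^ M),
    ← map_mul fr (C c' * z ^ M) (x ^ K), ← map_mul fr (C c' * z ^ M) (e ^ M),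
    ← map_mul fr (C c' * z ^ M * e ^ M) (x ^ K), ← map_mul fr (C c' * y ^ M) (x ^ K),
    ← map_mul fr (C c' * y ^ M) (e ^ M), ← map_mul fr (C c' * y ^ M * e ^ M) (x ^ K),
    ← map_mul fr a ρ₁, ← map_mul fr a ρ₂] at hid
  obtain ⟨T, hT⟩ : ∃ T, T = fr F₁ * (fr (C c' * (y ^ M * z ^ M)))⁻¹ := ⟨_, rfl⟩
  obtain ⟨rz, hrz⟩ : ∃ rz, rz = fr F₂ * (fr (C c' * z ^ M * x ^ K))⁻¹ -
      fr (a * ρ₁) * (fr (C c' * z ^ M * e ^ M * x ^ K))⁻¹ := ⟨_, rfl⟩
  obtain ⟨ry, hry⟩ : ∃ ry, ry = fr F₃ * (fr (C c' * y ^ M * x ^ K))⁻¹ -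
      fr (a * ρ₂) * (fr (C c' * y ^ M * e ^ M * x ^ K))⁻¹ := ⟨_, rfl⟩
  rw [← hT, ← hrz, ← hry] at hid
  have hxh : (x ^ K).IsHomogeneous (1 * K) := hC.hx.pow K
  have hyh : (y ^ M).IsHomogeneous (1 * M) := hC.hy.pow M
  have hzh : (z ^ M).IsHomogeneous (1 * M) := hC.hz.pow M
  have heh : (e ^ M).IsHomogeneous (m * M) := he.pow M
  have hch : (C c' : MvPolynomial (Fin 3) ℂ).IsHomogeneous 0 := isHomogeneous_C _ c'
  have hK' : (m : ℤ) * M + l = K := by exact_mod_cast hK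
  have haρ₁ : Hk ((2 + m) * M - 2 + (K - M)) (fr (a * ρ₁)) := by
    rw [map_mul]
    have h1 := hak.mul (Hk.fr hρ₁)
    rwa [Nat.cast_sub hMK] at h1
  have hrzk : Hk (-2) rz := by
    rw [hrz]
    refine (gy_hk hF₂ ((hch.mul hzh).mul hxh) ?_).sub
      (gy_hk haρ₁ (((hch.mul hzh).mul heh).mul hxh) ?_)
    · push_cast
      ring
    · push_cast
      ring
  have hTk : Hk (-2) T := by
    rw [hT]
    refine gy_hk hF₁ (hch.mul (hyh.mul hzh)) ?_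
    push_cast
    ring
  have hrzr : ∀ q, eval q z ≠ 0 → eval q e ≠ 0 → RegAt q rz := by
    intro q hz he'
    rw [hrz]
    refine (gy_reg ?_).sub (gy_reg ?_)
    · rw [map_mul, map_mul, map_pow, map_pow]
      exact mul_ne_zero (mul_ne_zero (hCq q) (pow_ne_zero _ hz)) (pow_ne_zero _ (hxq q he'))
    · rw [map_mul, map_mul, map_mul, map_pow, map_pow, map_pow]
      exact mul_ne_zero (mul_ne_zero (mul_ne_zero (hCq q) (pow_ne_zero _ hz))
        (pow_ne_zero _ he')) (pow_ne_zero _ (hxq q he'))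
  have hryr : ∀ q, eval q y ≠ 0 → eval q e ≠ 0 → RegAt q ry := by
    intro q hy he'
    rw [hry]
    refine (gy_reg ?_).sub (gy_reg ?_)
    · rw [map_mul, map_mul, map_pow, map_pow]
      exact mul_ne_zero (mul_ne_zero (hCq q) (pow_ne_zero _ hy)) (pow_ne_zero _ (hxq q he'))
    · rw [map_mul, map_mul, map_mul, map_pow, map_pow, map_pow]
      exact mul_ne_zero (mul_ne_zero (mul_ne_zero (hCq q) (pow_ne_zero _ hy))
        (pow_ne_zero _ he')) (pow_ne_zero _ (hxq q he'))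
  refine ⟨e, ψ * g₂ + rz, T, ⟨m, he⟩, heb, hei, ?_, hTk, ?_, ?_, ?_⟩
  · refine Hk.add ?_ hrzk
    have h1 := hψ.mul hg₂
    have e1 : (n : ℤ) - 5 + (3 - n) = -2 := by ring
    rwa [e1] at h1
  · intro q hy hz
    rw [hT]
    refine gy_reg ?_
    rw [map_mul, map_mul, map_pow, map_pow]
    exact mul_ne_zero (hCq q) (mul_ne_zero (pow_ne_zero _ hy) (pow_ne_zero _ hz))
  · intro q G hz he' _ hG
    have h1 : RegAt q (G - g₂) := hS.uniq q G g₂ hG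
      (hs₂ q (by rw [map_mul]; exact mul_ne_zero hz he'))
    have h2 := ((hr q (hεq q he')).mul h1).sub (hrzr q hz he')
    have e1 : ψ * (G - g₂) - rz = ψ * G - (ψ * g₂ + rz) := by ring
    rwa [e1] at h2
  · intro q G hy he' _ hG
    have h1 : RegAt q (G - g₁) := hS.uniq q G g₁ hG
      (hs₁ q (by rw [map_mul]; exact mul_ne_zero hy he'))
    have h2 := ((hr q (hεq q he')).mul h1).add (hryr q hy he')
    have e1 : ψ * (G - g₁) + ry = ψ * G - (ψ * g₂ + rz) - T := by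
      linear_combination (-1) * hid
    rwa [e1] at h2

end MPb07157.O4
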