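import Pool.Agent.Lib.MP_b07157_agO4.NumDefs
import Pool.Agent.Lib.MP_b07157_agO3.Fat

/-!
# Curves with few singular points which are not quasi-homogeneous
-/

noncomputable section

namespace MPb07157.O4

open MvPolynomial MPb07157Q
open MPb07157.OK
open MPb07157.O3 MPb07157.O3.G2b MPb07157.O3.Fat

theorem aeval_scale {g : Fin 3 → MvPolynomial (Fin 3) ℂ} (a : ℂ) {G : MvPolynomial (Fin 3) ℂ}
    {n : ℕ} (hG : G.IsHomogeneous n) :
    aeval (fun i => C a * g i) G = C (a ^ n) * aeval g G := by
  rw [aeval_def, aeval_def, eval₂_eq', eval₂_eq', Finset.mul_sum]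
  refine Finset.sum_congr rfl fun m hm => ?_
  have h1 : ∑ i, m i = n := by
    have h2 := hG (mem_support_iff.1 hm)
    rw [← h2]
    simp [Finsupp.weight_apply, Finsupp.sum_fintype]
  simp only [mul_pow]
  rw [Finset.prod_mul_distrib, Finset.prod_pow_eq_pow_sum, h1, C_pow]
  ring

theorem coeff_scale (a : ℂ) (G : MvPolynomial (Fin 3) ℂ) (m : Fin 3 →₀ ℕ) :
    coeff m (aeval (fun i => C a * X i) G) = a ^ m.degree * coeff m G := by
  induction G using MvPolynomial.induction_on' with
  | add p q hp hq => rw [map_add, coeff_add, coeff_add, hp, hq, mul_add]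
  | monomial u c =>
    have h1 : aeval (fun i => C a * X i) (monomial u c : MvPolynomial (Fin 3) ℂ) =
        monomial u (a ^ u.degree * c) := by
      rw [aeval_monomial, Finsupp.prod_fintype _ _ (fun i => pow_zero _)]
      simp only [mul_pow]
      rw [Finset.prod_mul_distrib, Finset.prod_pow_eq_pow_sum, monomial_eq,
        Finsupp.prod_fintype _ _ (fun i => pow_zero _), Finsupp.degree_eq_sum, algebraMap_eq,
        C_mul, C_pow]
      ring
    rw [h1, coeff_monomial, coeff_monomial]
    split_ifs with h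
    · rw [h]
    · rw [mul_zero]

/-- Multiplicities at proportional points. -/
theorem mu_scale {b : Fin 3 → ℂ} {a : ℂ} (ha : a ≠ 0) {m n : ℕ} {F : MvPolynomial (Fin 3) ℂ}
    (hF : F.IsHomogeneous n) (h : Mu (a • b) m F) : Mu b m F := by
  rw [RgC.mu_iff] at h ⊢
  intro e he
  have h1 := h e he
  have h2 : translate (a • b) F =
      C (a ^ n) * aeval (fun i => C a⁻¹ * X i) (translate b F) := by
    have h3 : aeval (fun i => C a⁻¹ * X i) (translate b F) =
        aeval (fun i => C a⁻¹ * X i + C (b i) : Fin 3 → MvPolynomial (Fin 3) ℂ) F := by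
      unfold translate
      rw [← AlgHom.comp_apply]
      congr 1
      refine MvPolynomial.algHom_ext fun i => ?_
      rw [AlgHom.comp_apply, aeval_X, aeval_X, map_add, aeval_X, algHom_C, algebraMap_eq]
    rw [h3, ← aeval_scale a hF]
    unfold translate
    congr 1
    refine MvPolynomial.algHom_ext fun i => ?_
    rw [aeval_X, aeval_X, Pi.smul_apply, smul_eq_mul, C_mul]
    have h4 : (C a : MvPolynomial (Fin 3) ℂ) * C a⁻¹ = 1 := by
      rw [← C_mul, mul_inv_cancel₀ ha, C_1]
    linear_combination (-(X i : MvPolynomial (Fin 3) ℂ)) * h4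
  rw [h2, coeff_C_mul, coeff_scale] at h1
  have h3 := (mul_eq_zero.1 h1).resolve_left (pow_ne_zero _ ha)
  exact (mul_eq_zero.1 h3).resolve_left (pow_ne_zero _ (inv_ne_zero ha))

/-- The polynomial with given coefficients of small exponents. -/
theorem exists_coeffs (N : ℕ) (c : (Fin 2 →₀ ℕ) → ℂ) : ∃ P : MvPolynomial (Fin 2) ℂ,
    ∀ m : Fin 2 →₀ ℕ, m 0 < N → m 1 < N → coeff m P = c m := by
  classical
  refine ⟨∑ i ∈ Finset.range N, ∑ k ∈ Finset.range N,
    monomial (Finsupp.single 0 i + Finsupp.single 1 k)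
      (c (Finsupp.single 0 i + Finsupp.single 1 k)), fun m h0 h1 => ?_⟩
  have hm : Finsupp.single 0 (m 0) + Finsupp.single 1 (m 1) = m := by
    ext i
    fin_cases i <;> simp
  rw [coeff_sum, Finset.sum_eq_single (m 0)]
  · rw [coeff_sum, Finset.sum_eq_single (m 1)]
    · rw [hm, coeff_monomial, if_pos rfl]
    · intro k _ hk
      rw [coeff_monomial, if_neg]
      intro h
      apply hk
      have := DFunLike.congr_fun h 1
      simpa using this
    · intro h
      exact absurd (Finset.mem_range.2 h1) h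
  · intro i _ hi
    rw [coeff_sum]
    refine Finset.sum_eq_zero fun k _ => ?_
    rw [coeff_monomial, if_neg]
    intro h
    apply hi
    have := DFunLike.congr_fun h 0
    simpa using this
  · intro h
    exact absurd (Finset.mem_range.2 h0) h

/-- The point of a frame with its coordinates. -/
def toLoc (E : Frame) : Loc := ⟨E.p, E.u, E.w, 0, 1, 1, 0⟩

theorem sum_elim_le {r s t : ℕ} {M : Fin r → ℕ} {K : Fin s → ℕ} {ν : Fin t → ℕ} {n : ℕ}
    (h : ∑ j, M j + ∑ j, K j + ∑ i, ν i + 5 ≤ n) (hn : 6 ≤ n) :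
    ∑ j, (Sum.elim M K) j + ∑ i, ν i ≤ n - 6 + 1 := by
  rw [Fintype.sum_sum_type]
  simp only [Sum.elim_inl, Sum.elim_inr]
  omega

/-- **The numerical criterion.** -/
theorem singG_of_num {d : ℕ} {f : MvPolynomial (Fin 3) ℂ} (h : SingNum d f) : SingG d f := by
  classical
  obtain ⟨F, k, n, r, s, t, L, M, E, K, Q, ν, hsq, h1, h2, hF, hL, hE, hQ, hdis, hsum, hpt⟩ := h
  refine ⟨F, k, n, r, s, L, E, hsq, h1, h2, hF, fun j => (hL j).1, fun j => (hE j).1, ?_,
    fun q hq hq0 => ?_⟩
  swap
  · rcases hpt q hq hq0 with h3 | h3 | h3 | h3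
    · exact Or.inl h3
    · exact Or.inr (Or.inr (Or.inl h3))
    · exact Or.inr (Or.inr (Or.inr h3))
    · exact Or.inr (Or.inl h3.1)
  intro c e
  have hmult : ∀ q, q ≠ 0 → ¬ IsWHAt f q → (∀ j (c : ℂ), q ≠ c • (L j).p) →
      (∀ j (c : ℂ), q ≠ c • (E j).p) → ∀ μ, (∀ i < μ, homogeneousComponent i (translate q F) = 0) →
      4 < μ → ∃ (i : Fin t) (a : ℂ), q = a • Q i ∧ μ ≤ ν i + 4 := by
    intro q hq hw hl he μ hμ h4
    have hq0 : eval q f = 0 := by
      have h5 : eval q F = 0 := by
        have h6 : Mu q μ F := hμ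
        rw [RgC.mu_iff] at h6
        have h7 := h6 0 (by rw [map_zero]; omega)
        rwa [RgC.coeff_zero_translate'] at h7
      obtain ⟨w, hw'⟩ := h1
      rw [hw', map_mul, h5, zero_mul]
    rcases hpt q hq hq0 with h3 | ⟨j, c', h3⟩ | ⟨j, c', h3⟩ | ⟨-, i, a, h3⟩
    · exact absurd h3 hw
    · exact absurd h3 (hl j c')
    · exact absurd h3 (he j c')
    · refine ⟨i, a, h3, ?_⟩
      obtain ⟨m, hm, hne⟩ := hQ i
      by_contra hcon
      apply hne
      have ha : a ≠ 0 := by
        rintro rfl
        exact hq (by rw [h3, zero_smul])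
      exact mu_scale ha hF (m := μ) (by rw [← h3]; exact hμ) m (by omega)
  rcases Nat.lt_or_ge n 6 with hn | hn
  · refine ⟨0, Or.inl rfl, fun j m hm => ?_, fun j => (hE j).2 _ ?_,
      fun q hq hw _ hl he μ hμ i hi => ?_⟩
    · exfalso
      have h3 : M j = 0 := by
        have := Finset.single_le_sum (f := M) (fun i _ => Nat.zero_le _) (Finset.mem_univ j)
        omega
      have h4 := (hL j).2
      rw [h3, zero_mul] at h4
      omega
    · have h3 : K j = 0 := by
        have := Finset.single_le_sum (f := K) (fun i _ => Nat.zero_le _) (Finset.mem_univ j)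
        omega
      rw [h3]
      exact any_wge _
    · exfalso
      obtain ⟨i', a, -, h3⟩ := hmult q hq hw hl he μ hμ (by omega)
      have := Finset.single_le_sum (f := ν) (fun i _ => Nat.zero_le _) (Finset.mem_univ i')
      omega
  · choose P hP using fun j => exists_coeffs ((L j).N) (c j)
    obtain ⟨τ, t1, t2, t3⟩ := fat_points (L := Sum.elim L fun j => toLoc (E j)) (Q := Q)
      (M := Sum.elim M K) (ν := ν) (e := n - 6) (by
        rintro (j | j)
        · exact (hL j).1.ind
        · exact (hE j).1) (by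
        rintro (j | j)
        · exact (hL j).1.hφ
        · exact Polynomial.eval_zero) (by
        rintro (i | i) (j | j) hij a
        · exact hdis (Sum.inl j) (Sum.inl i) (fun h => hij (by
            rw [Sum.inl.inj h])) a
        · exact hdis (Sum.inr (Sum.inl j)) (Sum.inl i) (by simp) a
        · exact hdis (Sum.inl j) (Sum.inr (Sum.inl i)) (by simp) a
        · exact hdis (Sum.inr (Sum.inl j)) (Sum.inr (Sum.inl i)) (fun h => hij (by
            rw [Sum.inl.inj (Sum.inr.inj h)])) a) (by
        rintro i (j | j) a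
        · exact hdis (Sum.inl j) (Sum.inr (Sum.inr i)) (by simp) a
        · exact hdis (Sum.inr (Sum.inl j)) (Sum.inr (Sum.inr i)) (by simp) a)
      (sum_elim_le hsum hn) (Sum.elim P e)
    refine ⟨τ, Or.inr ⟨hn, t1⟩, fun j m hm => ?_, fun j => (hE j).2 _ (t2 (Sum.inr j)),
      fun q hq hw _ hl he μ hμ i hi => ?_⟩
    · have ha := (hL j).1.ha
      have hb := (hL j).1.hb
      have h3 : m 0 < (L j).N := by nlinarith
      have h4 : m 1 < (L j).N := by nlinarith
      rw [← hP j m h3 h4]
      have h5 := t2 (Sum.inl j)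
      by_contra hne
      have h6 := h5 m (by
        rw [coeff_sub]
        exact sub_ne_zero.2 hne)
      have h7 : M j ≤ m 0 + m 1 := by
        have : (Sum.elim M K) (Sum.inl j) = M j := rfl
        rw [this] at h6
        omega
      have h8 := (hL j).2
      have h9 : M j * min (L j).a (L j).b ≤ (L j).a * m 0 + (L j).b * m 1 := by
        have h10 : (m 0 + m 1) * min (L j).a (L j).b ≤ (L j).a * m 0 + (L j).b * m 1 := by
          have e1 : min (L j).a (L j).b ≤ (L j).a := min_le_left _ _
          have e2 : min (L j).a (L j).b ≤ (L j).b := min_le_right _ _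
          nlinarith
        exact (Nat.mul_le_mul_right _ h7).trans h10
      omega
    · obtain ⟨i', a, h3, h4⟩ := hmult q hq hw hl he μ hμ (by omega)
      have h5 := t3 i' a
      rw [← h3] at h5
      exact h5 i (by omega)

end MPb07157.O4
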