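import Pool.Agent.Lib.MP_b07157_agO4.GDefs

/-!
# Curves with few singular points which are not quasi-homogeneous: definitions
-/

noncomputable section

namespace MPb07157

open MvPolynomial

/-- No two of the points are proportional. -/
def Distinct {ι : Type} (p : ι → Fin 3 → ℂ) : Prop := ∀ i j, i ≠ j → ∀ c : ℂ, p i ≠ c • p j

/-- Every point of the curve is quasi-homogeneous, or one of the points `L j`, at which the reduced
curve (with equation `F`, of degree `n`) is semi-quasi-homogeneous and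
`N ≤ 2 (a + b) + M j min (a, b)`, or one of the points `E j`, at which all functions of order
at least `K j` are in `LogI`, or one of the points `Q i`, which are ordinary multiple points of
multiplicity at most `ν i + 4` of the reduced curve; and the sum of the `M j`, `K j` and `ν i` is at
most `n - 5`. -/
def SingNum (d : ℕ) (f : MvPolynomial (Fin 3) ℂ) : Prop :=
  ∃ (F : MvPolynomial (Fin 3) ℂ) (k n r s t : ℕ) (L : Fin r → Loc) (M : Fin r → ℕ)
    (E : Fin s → Frame) (K : Fin s → ℕ) (Q : Fin t → Fin 3 → ℂ) (ν : Fin t → ℕ),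
    Squarefree F ∧ F ∣ f ∧ f ∣ F ^ k ∧ F.IsHomogeneous n ∧
    (∀ j, (L j).Sqh F ∧ (L j).N ≤ 2 * ((L j).a + (L j).b) + M j * min (L j).a (L j).b) ∧
    (∀ j, LinearIndependent ℂ ![(E j).p, (E j).u, (E j).w] ∧
      ∀ φ, WGe 1 1 (K j) φ → LogI d ((E j).tay f) ((E j).tay F) φ) ∧
    (∀ i, ∃ m ≤ ν i + 4, homogeneousComponent m (translate (Q i) F) ≠ 0) ∧
    Distinct (Sum.elim (fun j => (L j).p) (Sum.elim (fun j => (E j).p) Q)) ∧
    ∑ j, M j + ∑ j, K j + ∑ i, ν i + 5 ≤ n ∧
    ∀ q, q ≠ 0 → eval q f = 0 →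
      IsWHAt f q ∨ (∃ (j : Fin r) (c : ℂ), q = c • (L j).p) ∨
        (∃ (j : Fin s) (c : ℂ), q = c • (E j).p) ∨
        OrdPt f q ∧ ∃ (i : Fin t) (c : ℂ), q = c • Q i

end MPb07157
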